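import Pool.Agent.H76.PR.Dea

/-!
# Two hops: a moving slope kills the velocity, own slope paths

`slope_constL`: as `slope_const`, the slope path `c` belongs to the line; the copies over one record
have the same slope path up to `K / B₀`, `B₀` a bound for the differences of the velocities. The height
`n` is relative to any slope `cw` of the context.
-/

set_option autoImplicit false

namespace Pool.PRQ76

open Finset Real MvPolynomial
open Pool.Agent.H49.Ent Pool.Agent.H32.Dense Pool.STK Pool.OWN68 Pool.PR46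
open Pool.BFL (Pb)

/-- Displacement with a moving slope of the line, for the pairs over one record. -/
structure DisL {Ω Λ Γ 𝒞 𝒟 : Type} (p : Ω → ℝ) (M K : ℕ) (B₀ : ℝ) (L : Ω → Λ) (t : Ω → ℤ)
    (G : Ω → Γ) (C : Λ → 𝒞) (D : Λ → 𝒟) (u n : Λ → ℤ → ℤ) (du : 𝒟 → ℝ)
    (c : Λ → Polynomial ℝ) (cw : 𝒞 → ℤ → ℝ) : Prop where
  dis : ∀ ω ω', 0 < p ω → 0 < p ω' → G ω = G ω' →
      |du (D (L ω')) - du (D (L ω))| ≤ B₀ ∧
      (∀ x : ℝ, |x| ≤ 1 → |(c (L ω')).eval x - (c (L ω)).eval x| ≤ K / B₀) ∧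
      ∀ τ : ℤ, |τ| ≤ (M : ℤ) → |((u (L ω') τ : ℝ) - u (L ω) τ) -
        (du (D (L ω')) - du (D (L ω))) * (((τ : ℝ) - t ω) / M)| ≤ K ∧
        |((n (L ω') τ : ℝ) - n (L ω) τ) -
        ((c (L ω)).eval ((t ω : ℝ) / M) - cw (C (L ω)) τ) *
          ((du (D (L ω')) - du (D (L ω))) * (((τ : ℝ) - t ω) / M))| ≤ K

/-- The hypotheses for one law. -/
structure SloL {Ω Λ Γ₁ Γ₂ 𝒞 𝒟 𝒩₁ 𝒩₂ : Type} [Fintype Ω] (p : Ω → ℝ) (d M K Q : ℕ)
    (δ c₀ h α B₀ B₁ B₂ : ℝ) (L : Ω → Λ) (t : Ω → ℤ) (G₁ : Ω → Γ₁) (G₂ : Ω → Γ₂) (C : Λ → 𝒞)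
    (D : Λ → 𝒟) (N₁ : Λ → 𝒩₁) (N₂ : Λ → 𝒩₂) (u n : Λ → ℤ → ℤ) (du : 𝒟 → ℝ)
    (c : Λ → Polynomial ℝ) (cw : 𝒞 → ℤ → ℝ) : Prop where
  rcs : Recs p M (δ * Q) L t G₁ G₂ C D N₁ N₂
  cdeg : ∀ x, (c x).natDegree ≤ d
  cb : ∀ ω, 0 < p ω → ∀ x : ℝ, |x| ≤ 1 → |(c (L ω)).eval x| ≤ K
  wb : ∀ ω, 0 < p ω → ∀ τ : ℤ, |τ| ≤ (M : ℤ) → |cw (C (L ω)) τ| ≤ K
  b0 : 0 < B₀
  b0M : B₀ ≤ K * M
  d1 : DisL p M K B₀ L t G₁ C D u n du c cw
  d2 : DisL p M K B₀ L t G₂ C D u n du c cw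
  al1 : ∀ E : Ω → Prop, c₀ ≤ Pb p E →
      α * Q ≤ CH (cond p E True) (fun ω => ⌊du (D (L ω)) / B₁⌋) G₁
  al2 : ∀ E : Ω → Prop, c₀ ≤ Pb p E →
      α * Q ≤ CH (cond p E True) (fun ω => ⌊du (D (L ω)) / B₂⌋) G₂
  nf : ∀ k ≤ Q + 1, ∀ E : Ω → Prop, c₀ ≤ Pb p E →
      CH (cond p E True) (fun ω => n (L ω) (t ω)) (fun ω => ((n (L ω) (t ω) / 2 ^ k,
        u (L ω) (t ω)), (t ω, (C (L ω), D (L ω))))) ≤ (1 - h) * k * Real.log 2 + δ * Q

/-- `s (c (x - s) - w)`. -/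
noncomputable def mslw (c : Polynomial ℝ) (x w : ℝ) : Polynomial ℝ :=
  msl c x + Polynomial.C (c.eval x - w) * Polynomial.X

theorem mslw_eval (c : Polynomial ℝ) (x w s : ℝ) :
    (mslw c x w).eval s = s * (c.eval (x - s) - w) := by
  unfold mslw
  rw [Polynomial.eval_add, msl_eval, Polynomial.eval_mul, Polynomial.eval_C, Polynomial.eval_X]
  ring

theorem mslw_deg {c : Polynomial ℝ} {d : ℕ} (h : c.natDegree ≤ d) (x w : ℝ) :
    (mslw c x w).natDegree ≤ d + 1 := by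
  unfold mslw
  refine (Polynomial.natDegree_add_le _ _).trans (max_le (msl_deg h x) ?_)
  refine (Polynomial.natDegree_C_mul_le _ _).trans (Polynomial.natDegree_X_le.trans ?_)
  omega

theorem mslw_der (c : Polynomial ℝ) (x w s : ℝ) :
    (mslw c x w).derivative.eval s = (msl c x).derivative.eval s + (c.eval x - w) := by
  unfold mslw
  simp only [Polynomial.derivative_add, Polynomial.derivative_C_mul, Polynomial.derivative_X,
    Polynomial.eval_add, Polynomial.eval_mul, Polynomial.eval_C, Polynomial.eval_one, mul_one]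

/-- The freedom sees the oscillation of the derivative. -/
theorem frp_gen {k₁ k₂ b B o ξ : ℝ} {g : Polynomial ℝ} (hB : 1 ≤ B) (h1 : B ≤ |k₁|)
    (h2 : B ≤ |k₂|) (ho : 0 ≤ o) (hξ : |ξ| ≤ 2)
    (hle : o ≤ |g.derivative.eval ξ - g.derivative.eval 0|) :
    B * o ≤ frp k₁ k₂ (phi b k₁ k₂ g) := by
  have hJ : |k₁| * |k₂| * o ≤ nrm (jac k₁ k₂ (phi b k₁ k₂ g)) := by
    have hv : (![0, ξ] : Fin 2 → ℝ) ∈ Bx := by
      rw [mem_Bx]
      intro j
      fin_cases j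
      · show |(0 : ℝ)| ≤ 2
        norm_num
      · exact hξ
    have h3 := le_nrm (jac k₁ k₂ (phi b k₁ k₂ g)) hv
    rw [phi_jac] at h3
    have e1 : (![0, ξ] : Fin 2 → ℝ) 1 = ξ := rfl
    have e2 : (![0, ξ] : Fin 2 → ℝ) 0 = 0 := rfl
    rw [e1, e2, abs_mul, abs_mul] at h3
    refine le_trans ?_ h3
    exact mul_le_mul_of_nonneg_left hle (by positivity)
  unfold frp
  rw [le_div_iff₀ (mx_pos k₁ k₂)]
  refine le_trans ?_ (le_max_left _ _)
  refine le_trans ?_ hJ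
  have hmx : max 1 (max |k₁| |k₂|) = max |k₁| |k₂| :=
    max_eq_right (hB.trans (h1.trans (le_max_left _ _)))
  rw [hmx]
  have hkk : B * max |k₁| |k₂| ≤ |k₁| * |k₂| := by
    have hk1 : 0 ≤ |k₁| := abs_nonneg _
    have hk2 : 0 ≤ |k₂| := abs_nonneg _
    rcases le_total |k₁| |k₂| with h | h
    · rw [max_eq_right h]
      exact mul_le_mul_of_nonneg_right h1 hk2
    · rw [max_eq_left h, mul_comm |k₁|]
      exact mul_le_mul_of_nonneg_right h2 hk1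
  have h4 := mul_le_mul_of_nonneg_right hkk ho
  linarith

/-- The freedom sees the oscillation of the slope. -/
theorem frp_oscw {k₁ k₂ b B x w : ℝ} {c : Polynomial ℝ} (hB : 1 ≤ B) (h1 : B ≤ |k₁|)
    (h2 : B ≤ |k₂|) (hx : |x| ≤ 1) {y : ℝ} (hy : |y| ≤ 1) :
    B * |c.eval y - c.eval x| ≤ frp k₁ k₂ (phi b k₁ k₂ (mslw c x w)) := by
  obtain ⟨ξ, hξ, hle⟩ := msl_mvt c x (x - y) (by
    refine (abs_sub _ _).trans ?_
    linarith)
  have e0 : x - (x - y) = y := by ring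
  rw [e0] at hle
  refine frp_gen hB h1 h2 (abs_nonneg _) hξ (hle.trans (le_of_eq ?_))
  have e3 : (msl c x).derivative.eval 0 = 0 := by
    rw [msl_der, sub_zero]
    ring
  rw [mslw_der, mslw_der, e3]
  congr 1
  ring

/-- **A moving slope kills the velocity, own slope paths.** -/
theorem slope_constL (d K : ℕ) (hK : 1 ≤ K) {h α ε : ℝ} (hh : 0 < h) (hh1 : h ≤ 1) (hα : 0 < α)
    (hε : 0 < ε) :
    ∃ δ > 0, ∃ c₀ > 0, ∃ Q₀ : ℕ, ∀ Q ≥ Q₀, ∀ M : ℕ, 1 ≤ M → M ≤ 2 ^ Q → ∀ B₀ B₁ B₂ : ℝ, 1 ≤ B₁ →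
      1 ≤ B₂ → ∀ {Ω Λ Γ₁ Γ₂ 𝒞 𝒟 𝒩₁ 𝒩₂ : Type} [Fintype Ω] {p : Ω → ℝ},
      IsLaw p → ∀ {L : Ω → Λ} {t : Ω → ℤ} {G₁ : Ω → Γ₁} {G₂ : Ω → Γ₂} {C : Λ → 𝒞} {D : Λ → 𝒟}
      {N₁ : Λ → 𝒩₁} {N₂ : Λ → 𝒩₂} {u n : Λ → ℤ → ℤ} {du : 𝒟 → ℝ} {c : Λ → Polynomial ℝ}
      {cw : 𝒞 → ℤ → ℝ},
      SloL p d M K Q δ c₀ h α B₀ B₁ B₂ L t G₁ G₂ C D N₁ N₂ u n du c cw →
      Pb p (fun ω => ∃ x : ℝ, |x| ≤ 1 ∧ (2 : ℝ) ^ (ε * Q) ≤ min B₁ B₂ *
        |(c (L ω)).eval x - (c (L ω)).eval ((t ω : ℝ) / M)|) ≤ ε := by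
  classical
  have hKr : (1 : ℝ) ≤ K := by exact_mod_cast hK
  obtain ⟨A, hA1, hext⟩ := poly_ext d
  obtain ⟨K', hK'⟩ : ∃ K' : ℕ, K' = ⌈6 * A * K ^ 2⌉₊ + 4 * K := ⟨_, rfl⟩
  have hK'1 : 6 * A * K ^ 2 ≤ K' := by
    rw [hK']
    push_cast
    have := Nat.le_ceil (6 * A * (K : ℝ) ^ 2)
    linarith
  have hK'2 : 4 * (K : ℝ) ≤ K' := by
    rw [hK']
    push_cast
    have : (0 : ℝ) ≤ (⌈6 * A * (K : ℝ) ^ 2⌉₊ : ℝ) := Nat.cast_nonneg _
    linarith
  have hK'3 : 1 ≤ K' := by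
    have : (1 : ℝ) ≤ K' := by linarith
    exact_mod_cast this
  obtain ⟨ε₁, hε₁⟩ : ∃ ε₁ : ℝ, ε₁ = ε / 3 := ⟨_, rfl⟩
  have hε₁0 : 0 < ε₁ := by rw [hε₁]; positivity
  obtain ⟨δ, hδ, c₁, hc₁, Q₁, hpoly⟩ := poly_eps (d + 1) K' hK'3 hh hh1 hε₁0
  obtain ⟨c₀, hc₀⟩ : ∃ c₀ : ℝ, c₀ = min c₁ (ε₁ / 2) := ⟨_, rfl⟩
  have hc₀0 : 0 < c₀ := by rw [hc₀]; exact lt_min hc₁ (by positivity)
  have hc₀1 : c₀ ≤ c₁ := by rw [hc₀]; exact min_le_left _ _
  have hc₀2 : c₀ ≤ ε₁ / 2 := by rw [hc₀]; exact min_le_right _ _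
  refine ⟨δ, hδ, c₀, hc₀0, max Q₁ ⌈(|Real.log (6 / ε₁)| + 1) / α + 4 * K / (2 / 3 * ε)⌉₊, ?_⟩
  intro Q hQ M hM hMQ B₀ B₁ B₂ hB₁ hB₂ Ω Λ Γ₁ Γ₂ 𝒞 𝒟 𝒩₁ 𝒩₂ _ p hp L t G₁ G₂ C D N₁ N₂ u n du c
    cw H
  have hQ1 : Q₁ ≤ Q := (le_max_left _ _).trans hQ
  have hQ2' : (|Real.log (6 / ε₁)| + 1) / α + 4 * K / (2 / 3 * ε) ≤ Q :=
    (Nat.le_ceil _).trans (by exact_mod_cast (le_max_right _ _).trans hQ)
  have hQa : 0 ≤ (|Real.log (6 / ε₁)| + 1) / α := by positivity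
  have hQb : 0 ≤ 4 * (K : ℝ) / (2 / 3 * ε) := by positivity
  have hQ2 : (|Real.log (6 / ε₁)| + 1) / α ≤ Q := by linarith
  have hQ3 : 4 * (K : ℝ) / (2 / 3 * ε) ≤ Q := by linarith
  rw [div_le_iff₀ hα] at hQ2
  rw [div_le_iff₀ (by positivity)] at hQ3
  have hMr : (1 : ℝ) ≤ M := by exact_mod_cast hM
  have hM0 : (0 : ℝ) < M := by linarith
  have hL4 := P4_law hp L G₁ G₂
  have hlive : ∀ {Γ : Type} (G : Ω → Γ) (B : ℝ), 0 < B → (∀ E : Ω → Prop, c₀ ≤ Pb p E →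
      α * Q ≤ CH (cond p E True) (fun ω => ⌊du (D (L ω)) / B⌋) G) →
      Pb (glue p p G G) (fun w => |du (D (L w.2)) - du (D (L w.1))| < B) ≤ ε₁ := by
    intro Γ G B hB hal
    refine alive_Pb hp G (fun ω => du (D (L ω))) hB hε₁0 fun E hE => ?_
    refine lt_of_lt_of_le ?_ (hal E (hc₀2.trans hE))
    have := le_abs_self (Real.log (6 / ε₁))
    linarith
  have hal₁ := hlive G₁ B₁ (by linarith) H.al1
  have hal₂ := hlive G₂ B₂ (by linarith) H.al2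
  -- the data
  obtain ⟨k₁, hk₁⟩ : ∃ k₁ : Zt Λ 𝒟 → ℝ, k₁ = fun z => du z.2.2.1 - du (D z.2.2.2) := ⟨_, rfl⟩
  obtain ⟨k₂, hk₂⟩ : ∃ k₂ : Zt Λ 𝒟 → ℝ, k₂ = fun z => du z.2.1 - du z.2.2.1 := ⟨_, rfl⟩
  obtain ⟨Φ, hΦ⟩ : ∃ Φ : Zt Λ 𝒟 → MvPolynomial (Fin 2) ℝ, Φ = fun z =>
      phi (n z.2.2.2 z.1) (k₁ z) (k₂ z) (mslw (c z.2.2.2) ((z.1 : ℝ) / M)
        (cw (C z.2.2.2) z.1)) := ⟨_, rfl⟩
  have hPH : PolyH p (d + 1) M K' Q δ c₁ h L t G₁ G₂ C D N₁ N₂ u n k₁ k₂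
      (fun z => (u z.2.2.2 z.1 : ℝ)) Φ := by
    refine ⟨H.rcs, fun z => ?_, ?_, fun k hk E hE => H.nf k hk E (hc₀1.trans hE)⟩
    · rw [hΦ]
      exact phi_deg _ _ _ (mslw_deg (H.cdeg _) _ _)
    · intro ω₀ ω₁ ω₁' ω₂ p0 p1 p1' p2 e1 e2 e3 τ hτ z hz
      have hk1z : k₁ z = du (D (L ω₁)) - du (D (L ω₀)) := by rw [hk₁, hz]
      have hk2z : k₂ z = du (D (L ω₂)) - du (D (L ω₁)) := by rw [hk₂, hz]
      have hΦz : Φ z = phi (n (L ω₀) τ) (k₁ z) (k₂ z) (mslw (c (L ω₀)) ((τ : ℝ) / M)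
          (cw (C (L ω₀)) τ)) := by
        rw [hΦ, hz]
      obtain ⟨b1, b2, b3⟩ := H.d1.dis ω₀ ω₁ p0 p1 e1
      obtain ⟨c1, -, c3⟩ := H.d2.dis ω₁' ω₂ p1' p2 e3
      obtain ⟨b4, b5⟩ := b3 τ hτ
      obtain ⟨c4, c5⟩ := c3 τ hτ
      rw [← e2] at c1 c4 c5
      have hC01 : C (L ω₀) = C (L ω₁) := (H.rcs.g1 _ _ p0 p1 e1).1
      rw [← hC01] at c5
      rw [← hk1z] at b1 b4 b5
      rw [← hk2z] at c1 c4 c5
      have hKM : (K : ℝ) * M ≤ K' * M := mul_le_mul_of_nonneg_right (by linarith) hM0.le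
      have b1M := b1.trans H.b0M
      have c1M := c1.trans H.b0M
      have hτ' : |(τ : ℝ) / M| ≤ 1 := by
        rw [abs_div, abs_of_pos hM0, div_le_one hM0]
        exact_mod_cast hτ
      refine ⟨b1M.trans hKM, c1M.trans hKM, ?_, ?_, ?_⟩
      · -- the gradient
        have hg : ∀ s : ℝ, |s| ≤ 2 →
            |(mslw (c (L ω₀)) ((τ : ℝ) / M) (cw (C (L ω₀)) τ)).derivative.eval s| ≤
              6 * A * K := by
          intro s hs
          rw [mslw_der, msl_der]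
          obtain ⟨f1, f2⟩ := hext (c (L ω₀)) K (H.cdeg _) (H.cb ω₀ p0) ((τ : ℝ) / M - s) (by
            refine (abs_sub _ _).trans ?_
            linarith)
          obtain ⟨f3, -⟩ := hext (c (L ω₀)) K (H.cdeg _) (H.cb ω₀ p0) ((τ : ℝ) / M)
            (by linarith)
          have f4 := abs_sub ((c (L ω₀)).eval ((τ : ℝ) / M - s) -
            (c (L ω₀)).eval ((τ : ℝ) / M)) (s * (c (L ω₀)).derivative.eval ((τ : ℝ) / M - s))
          have f5 := abs_sub ((c (L ω₀)).eval ((τ : ℝ) / M - s))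
            ((c (L ω₀)).eval ((τ : ℝ) / M))
          have f6 : |s * (c (L ω₀)).derivative.eval ((τ : ℝ) / M - s)| ≤ 2 * (A * K) := by
            rw [abs_mul]
            exact mul_le_mul hs f2 (abs_nonneg _) (by norm_num)
          have f7 := abs_sub ((c (L ω₀)).eval ((τ : ℝ) / M)) (cw (C (L ω₀)) τ)
          have f8 := H.wb ω₀ p0 τ hτ
          have f9 : (K : ℝ) ≤ A * K := by nlinarith
          refine (abs_add_le _ _).trans ?_
          linarith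
        rw [hΦz]
        have h4 : (K : ℝ) * M * (6 * A * K) ≤ K' * M := by
          have e : (K : ℝ) * M * (6 * A * K) = 6 * A * K ^ 2 * M := by ring
          rw [e]
          exact mul_le_mul_of_nonneg_right hK'1 hM0.le
        unfold ngr
        refine max_le (nrm_le fun v hv => ?_) (nrm_le fun v hv => ?_)
        · rw [phi_p0, abs_mul]
          exact (mul_le_mul b1M (hg _ (mem_Bx.mp hv 0)) (abs_nonneg _) (by positivity)).trans h4
        · rw [phi_p1, abs_mul]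
          exact (mul_le_mul c1M (hg _ (mem_Bx.mp hv 1)) (abs_nonneg _) (by positivity)).trans h4
      · -- the height `u`
        have ea : (z.2.2.2, z.1) = (L ω₀, τ) := by rw [hz]
        have ea1 : z.2.2.2 = L ω₀ := (Prod.ext_iff.mp ea).1
        have ea2 : z.1 = τ := (Prod.ext_iff.mp ea).2
        show |(u (L ω₂) τ : ℝ) - ((u z.2.2.2 z.1 : ℝ) + (k₁ z * ((τ - t ω₀ : ℤ) : ℝ) +
          k₂ z * ((τ - t ω₁' : ℤ) : ℝ)) / M)| ≤ K'
        rw [ea1, ea2]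
        push_cast
        have e : (u (L ω₂) τ : ℝ) - ((u (L ω₀) τ : ℝ) + (k₁ z * ((τ : ℝ) - t ω₀) +
            k₂ z * ((τ : ℝ) - t ω₁')) / M) =
            (((u (L ω₁) τ : ℝ) - u (L ω₀) τ) - k₁ z * (((τ : ℝ) - t ω₀) / M)) +
            (((u (L ω₂) τ : ℝ) - u (L ω₁) τ) - k₂ z * (((τ : ℝ) - t ω₁') / M)) := by
          field_simp
          ring
        rw [e]
        refine (abs_add_le _ _).trans ?_
        linarith
      · -- the height `n`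
        rw [hΦz, phi_eval, mslw_eval, mslw_eval]
        have pp0 : pnt M (τ - t ω₀, τ - t ω₁') 0 = ((τ : ℝ) - t ω₀) / M := by
          unfold pnt
          simp
        have pp1 : pnt M (τ - t ω₀, τ - t ω₁') 1 = ((τ : ℝ) - t ω₁') / M := by
          unfold pnt
          simp
        rw [pp0, pp1]
        have q0 : (τ : ℝ) / M - ((τ : ℝ) - t ω₀) / M = (t ω₀ : ℝ) / M := by ring
        have q1 : (τ : ℝ) / M - ((τ : ℝ) - t ω₁') / M = (t ω₁' : ℝ) / M := by ring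
        rw [q0, q1]
        obtain ⟨W, hW⟩ : ∃ W, W = cw (C (L ω₀)) τ := ⟨_, rfl⟩
        rw [← hW] at b5 c5 ⊢
        have ht1 : |(t ω₁' : ℝ) / M| ≤ 1 := by
          rw [abs_div, abs_of_pos hM0, div_le_one hM0]
          exact_mod_cast H.rcs.tb _ p1'
        have hcc := b2 _ ht1
        have hs1 : |((τ : ℝ) - t ω₁') / M| ≤ 2 := by
          rw [sub_div]
          exact (abs_sub _ _).trans (by linarith)
        have herr : |((c (L ω₁)).eval ((t ω₁' : ℝ) / M) - (c (L ω₀)).eval ((t ω₁' : ℝ) / M)) *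
            (k₂ z * (((τ : ℝ) - t ω₁') / M))| ≤ 2 * K := by
          rw [abs_mul, abs_mul]
          have g1 : |k₂ z| * |((τ : ℝ) - t ω₁') / M| ≤ B₀ * 2 :=
            mul_le_mul c1 hs1 (abs_nonneg _) H.b0.le
          have g2 := mul_le_mul hcc g1 (by positivity) (by
            have := H.b0
            positivity : (0 : ℝ) ≤ K / B₀)
          have e : (K : ℝ) / B₀ * (B₀ * 2) = 2 * K := by
            have := H.b0
            field_simp
          rw [e] at g2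
          exact g2
        have e : (n (L ω₂) τ : ℝ) - ((n (L ω₀) τ : ℝ) + k₁ z * (((τ : ℝ) - t ω₀) / M *
            ((c (L ω₀)).eval ((t ω₀ : ℝ) / M) - W)) +
            k₂ z * (((τ : ℝ) - t ω₁') / M * ((c (L ω₀)).eval ((t ω₁' : ℝ) / M) - W))) =
            ((((n (L ω₁) τ : ℝ) - n (L ω₀) τ) - ((c (L ω₀)).eval ((t ω₀ : ℝ) / M) - W) *
              (k₁ z * (((τ : ℝ) - t ω₀) / M))) +
            (((n (L ω₂) τ : ℝ) - n (L ω₁) τ) - ((c (L ω₁)).eval ((t ω₁' : ℝ) / M) - W) *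
              (k₂ z * (((τ : ℝ) - t ω₁') / M)))) +
            ((c (L ω₁)).eval ((t ω₁' : ℝ) / M) - (c (L ω₀)).eval ((t ω₁' : ℝ) / M)) *
            (k₂ z * (((τ : ℝ) - t ω₁') / M)) := by
          ring
        have c5' : |((n (L ω₂) τ : ℝ) - n (L ω₁) τ) - ((c (L ω₁)).eval ((t ω₁' : ℝ) / M) - W) *
              (k₂ z * (((τ : ℝ) - t ω₁') / M))| ≤ K := by
          rw [e2]
          rw [e2] at c5
          exact c5
        rw [e]
        refine (abs_add_le _ _).trans ?_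
        have h9 := abs_add_le (((n (L ω₁) τ : ℝ) - n (L ω₀) τ) -
          ((c (L ω₀)).eval ((t ω₀ : ℝ) / M) - W) * (k₁ z * (((τ : ℝ) - t ω₀) / M)))
          (((n (L ω₂) τ : ℝ) - n (L ω₁) τ) - ((c (L ω₁)).eval ((t ω₁' : ℝ) / M) - W) *
              (k₂ z * (((τ : ℝ) - t ω₁') / M)))
        linarith
  have key := hpoly Q hQ1 M hM hMQ hp hPH
  -- the three events
  have hpair := Pb_marg (P4_pair hp L G₁ G₂) (fun w => |du (D (L w.2)) - du (D (L w.1))| < B₂)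
  have hpair1 := Pb_marg (P4_pair1 hp L G₁ G₂) (fun w => |du (D (L w.2)) - du (D (L w.1))| < B₁)
  have hfr := Pb_marg (P4_s hp L G₁ G₂) (fun ω => ∃ x : ℝ, |x| ≤ 1 ∧ (2 : ℝ) ^ (ε * Q) ≤
    min B₁ B₂ * |(c (L ω)).eval x - (c (L ω)).eval ((t ω : ℝ) / M)|)
  rw [← hfr]
  have h1 : Pb (P4 p L G₁ G₂) (fun w => ∃ x : ℝ, |x| ≤ 1 ∧ (2 : ℝ) ^ (ε * Q) ≤
      min B₁ B₂ * |(c (L w.2)).eval x - (c (L w.2)).eval ((t w.2 : ℝ) / M)|) ≤
      Pb (P4 p L G₁ G₂) (fun w => (2 : ℝ) ^ (ε₁ * Q) ≤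
        frp (k₁ (zt L t D w)) (k₂ (zt L t D w)) (Φ (zt L t D w)) ∨
        |du (D (L w.1.2)) - du (D (L w.1.1.2))| < B₂) +
      Pb (P4 p L G₁ G₂) (fun w => |du (D (L w.1.1.1.2)) - du (D (L w.1.1.1.1))| < B₁) := by
    refine Pb_imp2 hL4.nonneg fun w hz hbad => ?_
    obtain ⟨q1, q2, q3⟩ := P4_pos hp L G₁ G₂ hz
    obtain ⟨a1, a2, a3, a4, a5, a6, a7⟩ := P3_sup hp L G₁ G₂ q1
    by_cases hB1 : |du (D (L w.1.1.1.2)) - du (D (L w.1.1.1.1))| < B₁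
    · exact Or.inr hB1
    · left
      by_cases hB2 : |du (D (L w.1.2)) - du (D (L w.1.1.2))| < B₂
      · exact Or.inr hB2
      · left
        push Not at hB1 hB2
        obtain ⟨x, hx, hbx⟩ := hbad
        have hτ' : |(t w.2 : ℝ) / M| ≤ 1 := by
          rw [abs_div, abs_of_pos hM0, div_le_one hM0]
          exact_mod_cast H.rcs.tb _ q2
        have hk1z : k₁ (zt L t D w) = du (D (L w.1.1.1.2)) - du (D (L w.1.1.1.1)) := by
          rw [hk₁]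
          rfl
        have hk2z : k₂ (zt L t D w) = du (D (L w.1.2)) - du (D (L w.1.1.1.2)) := by
          rw [hk₂]
          rfl
        have hΦz : Φ (zt L t D w) = phi (n (L w.1.1.1.1) (t w.2)) (k₁ (zt L t D w))
            (k₂ (zt L t D w)) (mslw (c (L w.1.1.1.1)) ((t w.2 : ℝ) / M)
            (cw (C (L w.1.1.1.1)) (t w.2))) := by
          rw [hΦ]
          rfl
        -- the slope paths
        obtain ⟨b1, b2, -⟩ := H.d1.dis _ _ a1 a2 a5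
        obtain ⟨-, c2, -⟩ := H.d2.dis _ _ a3 a4 a7
        rw [← a6] at c2
        have hBB : min B₁ B₂ ≤ B₀ := (min_le_left _ _).trans (hB1.trans b1)
        have hcd : ∀ y : ℝ, |y| ≤ 1 →
            |(c (L w.2)).eval y - (c (L w.1.1.1.1)).eval y| ≤ 2 * K / B₀ := by
          intro y hy
          have g1 := b2 y hy
          have g2 := c2 y hy
          rw [q3] at g2
          have e : (c (L w.2)).eval y - (c (L w.1.1.1.1)).eval y =
              ((c (L w.2)).eval y - (c (L w.1.1.1.2)).eval y) +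
              ((c (L w.1.1.1.2)).eval y - (c (L w.1.1.1.1)).eval y) := by ring
          rw [e]
          refine (abs_add_le _ _).trans ?_
          have e2 : 2 * (K : ℝ) / B₀ = K / B₀ + K / B₀ := by ring
          rw [e2]
          exact add_le_add g2 g1
        rw [← a6] at hB2
        rw [← hk1z] at hB1
        rw [← hk2z] at hB2
        have h3 := frp_oscw (b := (n (L w.1.1.1.1) (t w.2) : ℝ)) (c := c (L w.1.1.1.1))
          (w := cw (C (L w.1.1.1.1)) (t w.2))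
          (le_min hB₁ hB₂) ((min_le_left _ _).trans hB1) ((min_le_right _ _).trans hB2) hτ' hx
        rw [hΦz]
        obtain ⟨B, hB⟩ : ∃ B, B = min B₁ B₂ := ⟨_, rfl⟩
        rw [← hB] at h3 hBB hbx
        have hBp : 0 < B := by
          rw [hB]
          exact lt_min (by linarith) (by linarith)
        have h4 : B * |(c (L w.2)).eval x - (c (L w.2)).eval ((t w.2 : ℝ) / M)| ≤
            B * |(c (L w.1.1.1.1)).eval x - (c (L w.1.1.1.1)).eval ((t w.2 : ℝ) / M)| +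
              4 * K := by
          have g1 := hcd x hx
          have g2 := hcd _ hτ'
          have e : (c (L w.2)).eval x - (c (L w.2)).eval ((t w.2 : ℝ) / M) =
              ((c (L w.1.1.1.1)).eval x - (c (L w.1.1.1.1)).eval ((t w.2 : ℝ) / M)) +
              (((c (L w.2)).eval x - (c (L w.1.1.1.1)).eval x) -
              ((c (L w.2)).eval ((t w.2 : ℝ) / M) -
                (c (L w.1.1.1.1)).eval ((t w.2 : ℝ) / M))) := by ring
          have g3 : |(c (L w.2)).eval x - (c (L w.2)).eval ((t w.2 : ℝ) / M)| ≤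
              |(c (L w.1.1.1.1)).eval x - (c (L w.1.1.1.1)).eval ((t w.2 : ℝ) / M)| +
              (2 * K / B₀ + 2 * K / B₀) := by
            rw [e]
            refine (abs_add_le _ _).trans ?_
            have g4 := abs_sub ((c (L w.2)).eval x - (c (L w.1.1.1.1)).eval x)
              ((c (L w.2)).eval ((t w.2 : ℝ) / M) -
                (c (L w.1.1.1.1)).eval ((t w.2 : ℝ) / M))
            linarith
          have g5 := mul_le_mul_of_nonneg_left g3 hBp.le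
          have g6 : B * (2 * K / B₀ + 2 * K / B₀) ≤ 4 * K := by
            have e2 : B * (2 * K / B₀ + 2 * K / B₀) = 4 * K * (B / B₀) := by ring
            rw [e2]
            have g7 : B / B₀ ≤ 1 := by
              rw [div_le_one H.b0]
              exact hBB
            have g8 := mul_le_mul_of_nonneg_left g7 (by positivity : (0 : ℝ) ≤ 4 * K)
            linarith
          linarith
        have h5 : (2 : ℝ) ^ (ε₁ * Q) + 4 * K ≤ (2 : ℝ) ^ (ε * Q) := by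
          have e : ε * Q = ε₁ * Q + 2 / 3 * ε * Q := by
            rw [hε₁]
            ring
          rw [e, Real.rpow_add (by norm_num)]
          have g1 : (1 : ℝ) ≤ (2 : ℝ) ^ (ε₁ * Q) :=
            Real.one_le_rpow (by norm_num) (by positivity)
          have g2 : 1 + 4 * (K : ℝ) ≤ (2 : ℝ) ^ (2 / 3 * ε * Q) := by
            have g3 : 1 ≤ 2 / 3 * ε * Q := by linarith
            have g4 := one_add_mul_self_le_rpow_one_add (by norm_num : (-1 : ℝ) ≤ 1) g3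
            have e2 : (1 : ℝ) + 1 = 2 := by norm_num
            rw [e2] at g4
            linarith
          have g5 := mul_le_mul_of_nonneg_left g2 (by linarith : (0 : ℝ) ≤ (2 : ℝ) ^ (ε₁ * Q))
          have g6 : 4 * (K : ℝ) ≤ (2 : ℝ) ^ (ε₁ * Q) * (4 * K) := by
            have := mul_le_mul_of_nonneg_right g1 (by positivity : (0 : ℝ) ≤ 4 * K)
            linarith
          linarith
        linarith
  have h2 : Pb (P4 p L G₁ G₂) (fun w => (2 : ℝ) ^ (ε₁ * Q) ≤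
        frp (k₁ (zt L t D w)) (k₂ (zt L t D w)) (Φ (zt L t D w)) ∨
        |du (D (L w.1.2)) - du (D (L w.1.1.2))| < B₂) ≤
      Pb (P4 p L G₁ G₂) (fun w => (2 : ℝ) ^ (ε₁ * Q) ≤
        frp (k₁ (zt L t D w)) (k₂ (zt L t D w)) (Φ (zt L t D w))) +
      Pb (P4 p L G₁ G₂) (fun w => |du (D (L w.1.2)) - du (D (L w.1.1.2))| < B₂) :=
    Pb_imp2 hL4.nonneg fun w _ hbad => hbad
  have h3 : Pb (P4 p L G₁ G₂) (fun w => |du (D (L w.1.2)) - du (D (L w.1.1.2))| < B₂) ≤ ε₁ :=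
    hpair.le.trans hal₂
  have h4 : Pb (P4 p L G₁ G₂) (fun w => |du (D (L w.1.1.1.2)) - du (D (L w.1.1.1.1))| < B₁) ≤
      ε₁ := hpair1.le.trans hal₁
  have h5 : ε₁ + ε₁ + ε₁ = ε := by rw [hε₁]; ring
  linarith

end Pool.PRQ76
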