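import Pool.Agent.H23.D2.Gen
import Pool.Agent.H2.GEN.AttF

/-!
# Two lines with the same charts

`dil_cell`: points with near coordinates in a natural box of `2 ^ n` times the sides. `pair_pt`: two
points with the same time, the same charts and near first coordinates: the differences in the last two
coordinates are proportional, the factor is the derivative of the chart. `pair_own`: two samples with
the same time and the same charts: the own lines, at all times.
-/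

set_option autoImplicit false

namespace Pool.PRQ76

open Finset Real MvPolynomial
open Pool.Agent.H49.Ent Pool.Agent.H32.Dense Pool.STK Pool.KA Pool.KSAT Pool.K2S Pool.PB Pool.S6C
open Pool.GEN Pool.CHT Pool.CHX Pool.ISO Pool.D2R
open Pool.PB.Trl (rt rt_mem t_rt)

variable {m J : ℕ}

/-- **Near points** in a natural box of `2 ^ n` times the sides. -/
theorem dil_cell (r D : ℕ) : ∃ C : ℕ, 1 ≤ C ∧ ∀ {m : ℕ} {c : ℕ → Fin m}
    {P : ℕ → MvPolynomial (Option (Fin m)) ℝ} {g : ℕ → ℕ} {a e n hi v : ℕ} {t : ℝ}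
    {x : Option (Fin m) → ℝ}, Set.InjOn c (Set.Iio r) →
    (∀ l, (P l).totalDegree ≤ D) → (∀ l, DepC c l (P l)) → |x none - t| ≤ 1 / 2 ^ a →
    (∀ l < r, |x (some (c l)) - eval x (P l)| ≤ 2 ^ n / 2 ^ g l) →
    (∀ i < r, ∀ b, NBx c P g a t i b → ∀ l < i,
      |eval b (pderiv (some (c l)) (P i))| ≤ 2 ^ (e + nlp g l i)) →
    (∀ i < r, e + g i + v + C * (n + 1) ≤ hi) →
    ∀ i ≤ r, ∀ y : Option (Fin m) → ℝ, y none = x none →
      (∀ l < i, |y (some (c l)) - x (some (c l))| ≤ 1 / 2 ^ hi) →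
      (∀ l < i, |y (some (c l)) - eval y (P l)| ≤ 2 ^ (n + 1) / 2 ^ g l) ∧
        (i < r → |eval y (P i) - eval x (P i)| ≤ 1 / 4 / 2 ^ (g i + v)) := by
  obtain ⟨c₁, D₁, hD1, h₁⟩ := nbx_dil r (fun _ => D)
  obtain ⟨c₂, hc₂⟩ := pow_unbounded_of_one_lt (4 * (r : ℝ)) (one_lt_two (α := ℝ))
  refine ⟨c₁ + c₂ + D₁ + 2, by omega, ?_⟩
  intro m c P g a e n hi v t x hc hdeg hdep hxt hpos hlip hJ i
  have hn1 : (1 : ℝ) ≤ 2 ^ n := one_le_pow₀ (by norm_num)
  have hCn : ∀ i < r, e + g i + v + (c₁ + c₂ + 2 + (n + 1) * D₁) ≤ hi := by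
    intro i hi'
    have h1 := hJ i hi'
    have h2 : c₁ + c₂ + 2 + (n + 1) * D₁ ≤ (c₁ + c₂ + D₁ + 2) * (n + 1) := by nlinarith
    omega
  have hstep : ∀ l < r, ∀ z : Option (Fin m) → ℝ,
      |eval z (P l) - eval x (P l)| ≤ 1 / 4 / 2 ^ (g l + v) →
      |z (some (c l)) - x (some (c l))| ≤ 1 / 2 ^ hi →
      |z (some (c l)) - eval z (P l)| ≤ 2 ^ (n + 1) / 2 ^ g l := by
    intro l hl z h3' h5
    have h3 : |eval z (P l) - eval x (P l)| ≤ 1 / 4 / 2 ^ g l := h3'.trans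
      (div_le_div_of_nonneg_left (by norm_num) (by positivity)
        (pow_le_pow_right₀ (by norm_num) (by omega)))
    have h4 := hpos l hl
    have h6 : (1 : ℝ) / 2 ^ hi ≤ 1 / 4 / 2 ^ g l := by
      rw [div_div]
      refine one_div_le_one_div_of_le (by positivity) ?_
      have e1 : (4 : ℝ) * 2 ^ g l = 2 ^ (g l + 2) := by rw [pow_add]; ring
      rw [e1]
      exact pow_le_pow_right₀ (by norm_num) (by have := hCn l hl; omega)
    have h7 : (2 : ℝ) ^ (n + 1) / 2 ^ g l = 2 ^ n / 2 ^ g l + 2 ^ n / 2 ^ g l := by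
      rw [pow_succ]; ring
    have h8 : (1 : ℝ) / 4 / 2 ^ g l ≤ 2 ^ n / 2 ^ g l / 4 := by
      rw [div_div, div_div, div_le_div_iff₀ (by positivity) (by positivity)]
      have : (0 : ℝ) < 2 ^ g l := by positivity
      nlinarith
    have h9 : (0 : ℝ) ≤ 2 ^ n / 2 ^ g l := by positivity
    rw [h7]
    rw [abs_le] at h3 h4 h5 ⊢
    constructor <;> linarith [h3.1, h3.2, h4.1, h4.2, h5.1, h5.2]
  induction i with
  | zero =>
    intro _ y hy _
    refine ⟨fun l hl => absurd hl (Nat.not_lt_zero l), fun h0 => ?_⟩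
    have h1 : eval y (P 0) = eval x (P 0) := hdep 0 _ _ hy fun l hl => absurd hl (Nat.not_lt_zero l)
    rw [h1, sub_self, abs_zero]
    positivity
  | succ i ih =>
    intro hi' y hy hyx
    have hir : i < r := hi'
    have ih' := ih hir.le
    have hbx : ∀ z : Option (Fin m) → ℝ, z none = x none →
        (∀ l < i + 1, |z (some (c l)) - x (some (c l))| ≤ 1 / 2 ^ hi) →
        ∀ l < i + 1, |z (some (c l)) - eval z (P l)| ≤ 2 ^ (n + 1) / 2 ^ g l := by
      intro z hz hzx l hl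
      obtain ⟨k1, k2⟩ := ih' z hz fun l hl => hzx l (by omega)
      rcases Nat.lt_or_ge l i with h2 | h2
      · exact k1 l h2
      · have : l = i := by omega
        subst this
        exact hstep l hir z (k2 hir) (hzx l (by omega))
    refine ⟨hbx y hy hyx, fun hi1 => ?_⟩
    have hsup : e + (Finset.range (i + 2)).sup g + v + (c₁ + c₂ + 2 + (n + 1) * D₁) ≤ hi := by
      have h2 : (Finset.range (i + 2)).sup g ≤ hi - (e + v + (c₁ + c₂ + 2 + (n + 1) * D₁)) := by
        refine Finset.sup_le fun j hj => ?_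
        have := hCn j (by rw [mem_range] at hj; omega)
        omega
      have h3 := hCn (i + 1) hi1
      omega
    have hnlp : ∀ l < i + 1, g (i + 1) + nlp g l (i + 1) ≤ (Finset.range (i + 2)).sup g := by
      intro l hl
      unfold nlp
      have h2 : (Finset.Icc l (i + 1)).sup g ≤ (Finset.range (i + 2)).sup g :=
        Finset.sup_mono fun j hj => by
          rw [Finset.mem_Icc] at hj
          rw [mem_range]
          omega
      have h3 : g (i + 1) ≤ (Finset.Icc l (i + 1)).sup g :=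
        Finset.le_sup (f := g) (Finset.mem_Icc.2 ⟨hl.le, le_rfl⟩)
      omega
    obtain ⟨L, hL⟩ : ∃ L : ℝ, L = 2 ^ (c₁ + (n + 1) * D₁ + e + (Finset.range (i + 2)).sup g) /
      2 ^ g (i + 1) := ⟨_, rfl⟩
    have hL0 : 0 ≤ L := by rw [hL]; positivity
    have h2 := mv_chain (hdep (i + 1)) (b := x) (b' := y) hL0
      (by positivity : (0 : ℝ) ≤ 1 / 2 ^ hi) hy hyx (by
      intro z hz hzx l hl
      have h3 := h₁ (a := a) (t := t) (M := 2 ^ (e + nlp g l (i + 1))) (n + 1) hi1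
        (hc.mono fun j hj => lt_trans hj hi1) hdeg hdep (DepC.pderiv (hdep (i + 1)) l)
        (totalDegree_pdσ (hdeg (i + 1)) _) (by positivity)
        (fun b hb => hlip (i + 1) hi1 b hb l hl) z (by rw [hz]; exact hxt) (hbx z hz hzx)
      refine h3.trans ?_
      rw [hL, le_div_iff₀ (by positivity), ← pow_add, ← pow_add]
      refine pow_le_pow_right₀ (by norm_num) ?_
      have := hnlp l hl
      omega)
    refine h2.trans ?_
    have h3 : ((i + 1 : ℕ) : ℝ) ≤ r := by exact_mod_cast hi'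
    have h4 : (r : ℝ) ≤ 2 ^ c₂ / 4 := by linarith
    have h5 : L * (((i + 1 : ℕ) : ℝ) * (1 / 2 ^ hi)) ≤
        2 ^ (c₁ + (n + 1) * D₁ + e + (Finset.range (i + 2)).sup g) / 2 ^ g (i + 1) *
          (2 ^ c₂ / 4 * (1 / 2 ^ hi)) := by
      rw [hL]
      refine mul_le_mul_of_nonneg_left ?_ (by positivity)
      exact mul_le_mul_of_nonneg_right (h3.trans h4) (by positivity)
    refine h5.trans ?_
    have h6 : (2 : ℝ) ^ (c₁ + (n + 1) * D₁ + e + (Finset.range (i + 2)).sup g) / 2 ^ g (i + 1) *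
        (2 ^ c₂ / 4 * (1 / 2 ^ hi)) =
        1 / 4 * (2 ^ (c₁ + (n + 1) * D₁ + e + (Finset.range (i + 2)).sup g + c₂) /
          (2 ^ g (i + 1) * 2 ^ hi)) := by
      rw [pow_add (2 : ℝ) (c₁ + (n + 1) * D₁ + e + (Finset.range (i + 2)).sup g) c₂]
      field_simp
    rw [h6, div_eq_mul_one_div (1 / 4 : ℝ)]
    refine mul_le_mul_of_nonneg_left ?_ (by norm_num)
    rw [div_le_div_iff₀ (by positivity) (by positivity), one_mul, ← pow_add, ← pow_add]
    refine pow_le_pow_right₀ (by norm_num) ?_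
    omega

/-- The mean value theorem in one coordinate. -/
theorem mv_one (Q : MvPolynomial (Option (Fin m)) ℝ) (k : Fin m) (y z : Option (Fin m) → ℝ)
    (h : ∀ o, o ≠ some k → y o = z o) : ∃ θ ∈ Set.Icc (0 : ℝ) 1,
    eval y Q - eval z Q = eval (fun o => z o + θ * (y o - z o)) (pderiv (some k) Q) *
      (y (some k) - z (some k)) := by
  classical
  obtain ⟨g, hg⟩ : ∃ g : Option (Fin m) → Polynomial ℝ, g = fun j =>
      Polynomial.C (z j) + Polynomial.C (y j - z j) * Polynomial.X := ⟨_, rfl⟩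
  have hge : ∀ (P : MvPolynomial (Option (Fin m)) ℝ) (t : ℝ), (MvPolynomial.aeval g P).eval t =
      MvPolynomial.eval (fun j => z j + t * (y j - z j)) P := by
    intro P t
    rw [Pool.KBX.eval_aeval_poly]
    congr 1
    congr 1
    funext j
    rw [hg]
    simp
    ring
  have hd : ∀ t, (Polynomial.derivative (MvPolynomial.aeval g Q)).eval t =
      eval (fun j => z j + t * (y j - z j)) (pderiv (some k) Q) * (y (some k) - z (some k)) := by
    intro t
    rw [der_aevalσ, Polynomial.eval_finsetSum, Finset.sum_eq_single (some k)]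
    · rw [Polynomial.eval_mul, hge]
      congr 1
      rw [hg]
      simp
    · intro o _ ho
      rw [Polynomial.eval_mul, hg]
      simp [h o ho]
    · intro h'
      exact absurd (Finset.mem_univ _) h'
  obtain ⟨τ, hτ, hτd⟩ := exists_deriv_eq_slope (fun t => (MvPolynomial.aeval g Q).eval t)
    (zero_lt_one' ℝ) (Polynomial.continuous _).continuousOn
    (Polynomial.differentiable _).differentiableOn
  have e1 : (MvPolynomial.aeval g Q).eval 1 = eval y Q := by
    rw [hge]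
    congr 2
    funext j
    ring
  have e0 : (MvPolynomial.aeval g Q).eval 0 = eval z Q := by
    rw [hge]
    congr 2
    funext j
    ring
  rw [Polynomial.deriv, hd] at hτd
  simp only [e1, e0, sub_zero, div_one] at hτd
  exact ⟨τ, ⟨hτ.1.le, hτ.2.le⟩, hτd.symm⟩

/-- **Two points with the same time and the same charts.** The coordinates `c l`, `l < r`, are near;
`c₀` is the derivative of the chart of `c (r + 1)` in the direction `c r`, up to a natural error, on the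
slice through the first point. -/
theorem pair_pt (r D : ℕ) : ∃ C : ℕ, 1 ≤ C ∧ ∀ {m : ℕ} {c : ℕ → Fin m}
    {P : ℕ → MvPolynomial (Option (Fin m)) ℝ} {g : ℕ → ℕ} {a e n hi : ℕ} {t c₀ : ℝ}
    {z z' : Option (Fin m) → ℝ}, Set.InjOn c (Set.Iio (r + 2)) →
    (∀ l, (P l).totalDegree ≤ D) → (∀ l, DepC c l (P l)) → |z none - t| ≤ 1 / 2 ^ a →
    (∀ l < r + 2, |z (some (c l)) - eval z (P l)| ≤ 2 ^ n / 2 ^ g l) →
    (∀ l < r + 2, |z' (some (c l)) - eval z' (P l)| ≤ 2 ^ n / 2 ^ g l) →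
    (∀ i < r + 2, ∀ b, NBx c P g a t i b → ∀ l < i,
      |eval b (pderiv (some (c l)) (P i))| ≤ 2 ^ (e + nlp g l i)) →
    (∀ i < r + 2, e + g i + C * (n + 1) ≤ hi) →
    (∀ y : ℝ, |y| ≤ 2 ^ (n + 2) / 2 ^ g r →
      |eval (Function.update z (some (c r)) (z (some (c r)) + y))
        (pderiv (some (c r)) (P (r + 1))) - c₀| ≤ 2 ^ n * 2 ^ g r / 2 ^ g (r + 1)) →
    z' none = z none → (∀ l < r, |z' (some (c l)) - z (some (c l))| ≤ 1 / 2 ^ hi) →
    |(z' (some (c (r + 1))) - z (some (c (r + 1)))) -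
      c₀ * (z' (some (c r)) - z (some (c r)))| ≤ 2 ^ (C * (n + 1)) / 2 ^ g (r + 1) ∧
    |z' (some (c r)) - z (some (c r))| ≤ 2 ^ (n + 2) / 2 ^ g r := by
  obtain ⟨C₁, hC₁, hcell⟩ := dil_cell (r + 2) D
  refine ⟨C₁ + 6, by omega, ?_⟩
  intro m c P g a e n hi t c₀ z z' hc hdeg hdep hzt hz hz' hlip hhi hosc hn hnear
  have hhi' : ∀ i < r + 2, e + g i + 0 + C₁ * (n + 1) ≤ hi := by
    intro i hi'
    have h1 := hhi i hi'
    have h2 : C₁ * (n + 1) ≤ (C₁ + 6) * (n + 1) := Nat.mul_le_mul_right _ (by omega)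
    omega
  have hn1 : (1 : ℝ) ≤ 2 ^ n := one_le_pow₀ (by norm_num)
  have hne : c r ≠ c (r + 1) := fun h => by
    have := hc (Set.mem_Iio.2 (show r < r + 2 by omega))
      (Set.mem_Iio.2 (show r + 1 < r + 2 by omega)) h
    omega
  have hne' : ∀ l < r, c l ≠ c r := fun l hl h => by
    have := hc (Set.mem_Iio.2 (show l < r + 2 by omega))
      (Set.mem_Iio.2 (show r < r + 2 by omega)) h
    omega
  -- the charts of `c r` at the two points
  have hPr := (hcell (P := P) (g := g) (a := a) (e := e) (n := n) (hi := hi) (t := t) (x := z)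
    hc hdeg hdep hzt hz hlip hhi' r (by omega) z' hn hnear).2 (by omega)
  rw [add_zero] at hPr
  have hn4 : (1 : ℝ) / 4 / 2 ^ g r ≤ 2 ^ n / 2 ^ g r := by
    rw [div_div, div_le_div_iff₀ (by positivity) (by positivity)]
    have : (0 : ℝ) < 2 ^ g r := by positivity
    nlinarith
  have hu : |z' (some (c r)) - z (some (c r))| ≤ 2 ^ (n + 2) / 2 ^ g r := by
    have h1 := hz r (by omega)
    have h2 := hz' r (by omega)
    have e1 : (2 : ℝ) ^ (n + 2) / 2 ^ g r = 4 * (2 ^ n / 2 ^ g r) := by rw [pow_add]; ring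
    have h9 : (0 : ℝ) ≤ 2 ^ n / 2 ^ g r := by positivity
    rw [e1]
    rw [abs_le] at h1 h2 hPr ⊢
    constructor <;> linarith [h1.1, h1.2, h2.1, h2.2, hPr.1, hPr.2]
  refine ⟨?_, hu⟩
  -- the mixed point
  obtain ⟨y, hy⟩ : ∃ y : Option (Fin m) → ℝ, y = fun o => if o = some (c r) then z' o else z o :=
    ⟨_, rfl⟩
  have hyn : y none = z none := by
    rw [hy]
    exact if_neg (by simp)
  have hyr : y (some (c r)) = z' (some (c r)) := by
    rw [hy]
    exact if_pos rfl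
  have hyl : ∀ o, o ≠ some (c r) → y o = z o := by
    intro o ho
    rw [hy]
    exact if_neg ho
  have hylc : ∀ l < r, y (some (c l)) = z (some (c l)) := fun l hl =>
    hyl _ fun h => hne' l hl (Option.some_injective _ h)
  have hPy : eval y (P r) = eval z (P r) := hdep r _ _ hyn hylc
  -- from `z'` to `y`
  have hA := (hcell (P := P) (g := g) (a := a) (e := e) (n := n) (hi := hi) (t := t) (x := z')
    hc hdeg hdep (by rw [hn]; exact hzt) hz' hlip hhi' (r + 1) (by omega) y (by rw [hyn, hn])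
    (fun l hl => by
      rcases Nat.lt_or_ge l r with h | h
      · rw [hylc l h, abs_sub_comm]
        exact hnear l h
      · have : l = r := by omega
        subst this
        rw [hyr, sub_self, abs_zero]
        positivity)).2 (by omega)
  -- from `y` to `z`
  obtain ⟨θ, hθ, hmv⟩ := mv_one (P (r + 1)) (c r) y z hyl
  have hbe : (fun o => z o + θ * (y o - z o)) = Function.update z (some (c r))
      (z (some (c r)) + θ * (z' (some (c r)) - z (some (c r)))) := by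
    funext o
    by_cases ho : o = some (c r)
    · subst ho
      rw [Function.update_self, hyr]
    · rw [Function.update_of_ne ho, hyl o ho]
      ring
  have hB := hosc (θ * (z' (some (c r)) - z (some (c r)))) (by
    rw [abs_mul, abs_of_nonneg hθ.1]
    exact (mul_le_of_le_one_left (abs_nonneg _) hθ.2).trans hu)
  rw [← hbe] at hB
  have hu0 : 0 ≤ |z' (some (c r)) - z (some (c r))| := abs_nonneg _
  have hmv' : |eval y (P (r + 1)) - eval z (P (r + 1)) - c₀ * (z' (some (c r)) - z (some (c r)))| ≤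
      2 ^ n * 2 ^ g r / 2 ^ g (r + 1) * (2 ^ (n + 2) / 2 ^ g r) := by
    rw [hmv, hyr, ← sub_mul, abs_mul]
    exact mul_le_mul hB hu hu0 (by positivity)
  have e3 : 2 ^ n * 2 ^ g r / 2 ^ g (r + 1) *
      (2 ^ (n + 2) / 2 ^ g r) = 2 ^ (n + (n + 2)) * (1 / 2 ^ g (r + 1) : ℝ) := by
    rw [pow_add _ _ (n + 2)]
    field_simp
  rw [e3] at hmv'
  have h1 := hz (r + 1) (by omega)
  have h2 := hz' (r + 1) (by omega)
  obtain ⟨U, hU⟩ : ∃ U : ℝ, U = 1 / 2 ^ g (r + 1) := ⟨_, rfl⟩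
  have hU0 : 0 < U := by rw [hU]; positivity
  have e4 : (2 : ℝ) ^ n / 2 ^ g (r + 1) = 2 ^ n * U := by rw [hU]; ring
  have e5 : (1 : ℝ) / 4 / 2 ^ (g (r + 1) + 0) = 1 / 4 * U := by rw [hU, add_zero]; ring
  have e6 : (2 : ℝ) ^ ((C₁ + 6) * (n + 1)) / 2 ^ g (r + 1) =
      2 ^ ((C₁ + 6) * (n + 1)) * U := by rw [hU]; ring
  rw [e4] at h1 h2
  rw [e5] at hA
  rw [← hU] at hmv'
  rw [e6]
  have hX : (2 : ℝ) ^ (n + (n + 2)) + 4 * 2 ^ n ≤ 2 ^ ((C₁ + 6) * (n + 1)) := by
    have k1 : (2 : ℝ) ^ n ≤ 2 ^ (n + (n + 2)) := pow_le_pow_right₀ (by norm_num) (by omega)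
    calc (2 : ℝ) ^ (n + (n + 2)) + 4 * 2 ^ n ≤ 2 ^ (n + (n + 2)) * 2 ^ 3 := by nlinarith
      _ = 2 ^ (n + (n + 2) + 3) := by rw [← pow_add]
      _ ≤ _ := pow_le_pow_right₀ (by norm_num) (by nlinarith)
  have hXU := mul_le_mul_of_nonneg_right hX hU0.le
  have hnU : U ≤ 2 ^ n * U := le_mul_of_one_le_left hU0.le hn1
  have e7 : (z' (some (c (r + 1))) - z (some (c (r + 1)))) -
      c₀ * (z' (some (c r)) - z (some (c r))) =
      (z' (some (c (r + 1))) - eval z' (P (r + 1))) - (z (some (c (r + 1))) - eval z (P (r + 1))) -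
      (eval y (P (r + 1)) - eval z' (P (r + 1))) +
      (eval y (P (r + 1)) - eval z (P (r + 1)) - c₀ * (z' (some (c r)) - z (some (c r)))) := by
    ring
  rw [e7]
  refine (abs_add_le _ _).trans ((add_le_add ((abs_sub _ _).trans (add_le_add
    ((abs_sub _ _).trans (add_le_add h2 h1)) hA)) hmv').trans ?_)
  nlinarith

/-- An affine function which is small on the window. -/
theorem aff_ext {α β η s₀ : ℝ} (hs : s₀ ∈ Set.Icc (0 : ℝ) 1)
    (h : ∀ τ ∈ Set.Icc (0 : ℝ) 1, |α + β * τ| ≤ η) (x : ℝ) :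
    |α + β * (s₀ + x)| ≤ η * (1 + 2 * |x|) := by
  have h0 := h 0 ⟨le_rfl, zero_le_one⟩
  have h1 := h 1 ⟨zero_le_one, le_rfl⟩
  have h2 := h s₀ hs
  have hb : |β| ≤ 2 * η := by
    have e : β = (α + β * 1) - (α + β * 0) := by ring
    rw [e]
    refine (abs_sub _ _).trans ?_
    linarith
  have e : α + β * (s₀ + x) = (α + β * s₀) + β * x := by ring
  rw [e]
  refine (abs_add_le _ _).trans ?_
  rw [abs_mul]
  have := mul_le_mul_of_nonneg_right hb (abs_nonneg x)
  nlinarith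

/-- The own line at the relative time `τ`. -/
theorem lc_at (F : Fam m J) {w : ℕ} (hw : w ≤ J) (ω : F.Ω) (k : Fin m) (τ : ℝ) :
    (lc w (slam F w ω) (some k)).eval τ = F.x ω k + (τ - rt F w ω) / 2 ^ w * F.d ω k := by
  have h1 : (lc w (slam F w ω) (some k)).eval (rt F w ω) = F.x ω k := eval_lc F hw ω (some k)
  rw [← h1]
  simp only [lc, Polynomial.eval_add, Polynomial.eval_mul, Polynomial.eval_C, Polynomial.eval_X]
  show (slam F w ω).1.1 k + (slam F w ω).1.2 k * _ = (slam F w ω).1.1 k + (slam F w ω).1.2 k * _ +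
    _ * (slam F w ω).1.2 k
  ring

/-- **Two samples with the same time and the same charts**: the own lines, at all times `T + σ`. The
charts are closed at the window `w`; the own lines are near the charts on the window; the derivative of
the chart of `c (r + 1)` in the direction `c r` is `c₀` up to a natural error on the slice through the
first line; the coordinates `c l`, `l < r`, are near. -/
theorem pair_own (r D : ℕ) : ∃ C : ℕ, 1 ≤ C ∧ ∀ {m J : ℕ} {F : Fam m J} {c : ℕ → Fin m}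
    {w n e hi : ℕ} {g : ℕ → ℕ} {B : F.Ω → Prop}
    {G : PtT F → ℕ → MvPolynomial (Option (Fin m)) ℝ}
    {H : LnT F → ℕ → MvPolynomial (Option (Fin m)) ℝ}, Set.InjOn c (Set.Iio (r + 2)) → w ≤ J →
    ChOK F c (r + 2) (fun _ => D) w w e g B G H →
    (∀ ω, B ω → ∀ l < r + 2, G (ptr F J ω) l = H (slam F w ω) l) →
    (∀ ω, B ω → ∀ l < r + 2, ∀ τ ∈ Set.Icc (0 : ℝ) 1,
      |(dv w (fun s _ => H s l) (c l) (slam F w ω)).eval τ| ≤ 2 ^ n / 2 ^ g l) →
    (∀ i < r + 2, e + g i + C * (n + 1) ≤ hi) → ∀ ω ω', B ω → B ω' → F.T ω = F.T ω' →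
    (∀ l < r + 2, G (ptr F J ω) l = G (ptr F J ω') l) →
    (∀ l < r, |F.x ω' (c l) - F.x ω (c l)| ≤ 1 / 2 ^ (hi + 1) ∧
      |F.d ω' (c l) - F.d ω (c l)| ≤ 1 / 2 ^ (hi + 1)) →
    ∀ c₀ : ℝ, (∀ τ ∈ Set.Icc (0 : ℝ) 1, ∀ y : ℝ, |y| ≤ 2 ^ (n + 2) / 2 ^ g r →
      |eval (Function.update (ptw F w ω τ) (some (c r)) (ptw F w ω τ (some (c r)) + y))
        (pderiv (some (c r)) (G (ptr F J ω) (r + 1))) - c₀| ≤
        2 ^ n * 2 ^ g r / 2 ^ g (r + 1)) →
    (∀ σ : ℝ, |((F.x ω' (c (r + 1)) + σ * F.d ω' (c (r + 1))) -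
        (F.x ω (c (r + 1)) + σ * F.d ω (c (r + 1)))) -
      c₀ * ((F.x ω' (c r) + σ * F.d ω' (c r)) - (F.x ω (c r) + σ * F.d ω (c r)))| ≤
        2 ^ (C * (n + 1)) / 2 ^ g (r + 1) * (1 + 2 ^ w * |σ|)) ∧
    (∀ σ : ℝ, |(F.x ω' (c r) + σ * F.d ω' (c r)) - (F.x ω (c r) + σ * F.d ω (c r))| ≤
        2 ^ (n + 3) / 2 ^ g r * (1 + 2 ^ w * |σ|)) ∧
    |F.d ω' (c r) - F.d ω (c r)| ≤ 2 ^ (n + 3) * 2 ^ w / 2 ^ g r ∧
    |F.x ω' (c r) - F.x ω (c r)| ≤ 3 / 2 ^ g r ∧
    |eval (bt F ω) (pderiv (some (c r)) (G (ptr F J ω) (r + 1))) - c₀| ≤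
      2 ^ n * 2 ^ g r / 2 ^ g (r + 1) ∧
    ∀ v : ℕ, (∀ i < r + 1, e + g i + v + C * (n + 1) ≤ hi) →
      e + nlp g r (r + 1) + g (r + 1) ≤ g r + v →
      |eval (bt F ω') (pderiv (some (c r)) (G (ptr F J ω') (r + 1))) - c₀| ≤
        2 ^ (C * (n + 1)) * 2 ^ g r / 2 ^ g (r + 1) := by
  obtain ⟨C₁, hC₁, hpt⟩ := pair_pt r D
  obtain ⟨C₂, hC₂, hcell⟩ := dil_cell (r + 2) D
  obtain ⟨C₃, hC₃, hcel1⟩ := dil_cell (r + 1) D
  obtain ⟨C₄, hdbl⟩ := nbx_dbl (r + 2) (fun _ => D)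
  obtain ⟨C₅', hC₅', hlip5⟩ := nbx_lip (D * dga (fun _ => D) (r + 1))
  obtain ⟨C₅, hC₅⟩ := pow_unbounded_of_one_lt C₅' (one_lt_two (α := ℝ))
  obtain ⟨C₆, hC₆⟩ : ∃ C₆, C₆ = C₂ + C₃ + C₄ + C₅ + 1 := ⟨_, rfl⟩
  refine ⟨C₁ + C₆, by omega, ?_⟩
  intro m J F c w n e hi g B G H hc hw hch hcl hown hhi ω ω' hω hω' hT hG hnear c₀ hosc
  have htt : F.t ω' = F.t ω := by
    unfold Fam.t
    rw [hT]
  have hrt : rt F w ω' = rt F w ω := by
    unfold rt
    rw [hT]
  have hT1 : (slam F w ω').2.2 = (slam F w ω).2.2 := by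
    show F.T ω' / 2 ^ (J - w) = F.T ω / 2 ^ (J - w)
    rw [hT]
  have hhi₁ : ∀ i < r + 2, e + g i + C₁ * (n + 1) ≤ hi := fun i h => by
    have h1 := hhi i h
    have h2 : C₁ * (n + 1) ≤ (C₁ + C₆) * (n + 1) := Nat.mul_le_mul_right _ (by omega)
    omega
  have hhi₂ : ∀ i < r + 2, e + g i + 0 + C₂ * (0 + 1) ≤ hi := fun i h => by
    have h1 := hhi i h
    have h2 : C₂ * 1 ≤ (C₁ + C₆) * (n + 1) := Nat.mul_le_mul (by omega) (by omega)
    omega
  have hnone : ∀ ν : F.Ω, ∀ τ : ℝ, ptw F w ν τ none = (((slam F w ν).2.2 : ℝ) + τ) / 2 ^ w := by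
    intro ν τ
    unfold ptw
    simp only [lc, Polynomial.eval_add, Polynomial.eval_mul, Polynomial.eval_C, Polynomial.eval_X]
    ring
  have hsome : ∀ ν : F.Ω, ∀ (τ : ℝ) (k : Fin m), ptw F w ν τ (some k) =
      F.x ν k + (τ - rt F w ν) / 2 ^ w * F.d ν k := fun ν τ k => lc_at F hw ν k τ
  have hown' : ∀ ν, B ν → ∀ l < r + 2, ∀ τ ∈ Set.Icc (0 : ℝ) 1,
      |ptw F w ν τ (some (c l)) - eval (ptw F w ν τ) (G (ptr F J ν) l)| ≤ 2 ^ n / 2 ^ g l := by
    intro ν hν l hl τ hτ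
    have h1 := hown ν hν l hl τ hτ
    unfold dv at h1
    rw [Polynomial.eval_sub, Pool.KBX.eval_aeval_poly] at h1
    rw [hcl ν hν l hl]
    exact h1
  have h2w : (0 : ℝ) < 2 ^ w := by positivity
  -- the pair at one relative time
  have key : ∀ τ ∈ Set.Icc (0 : ℝ) 1,
      |(ptw F w ω' τ (some (c (r + 1))) - ptw F w ω τ (some (c (r + 1)))) -
        c₀ * (ptw F w ω' τ (some (c r)) - ptw F w ω τ (some (c r)))| ≤
          2 ^ (C₁ * (n + 1)) / 2 ^ g (r + 1) ∧
      |ptw F w ω' τ (some (c r)) - ptw F w ω τ (some (c r))| ≤ 2 ^ (n + 2) / 2 ^ g r := by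
    intro τ hτ
    refine hpt (P := G (ptr F J ω)) (a := w) (e := e) (hi := hi) (t := F.t ω) hc
      (hch.degG _) (hch.depG _) ?_ (fun l hl => hown' ω hω l hl τ hτ) (fun l hl => ?_)
      (fun i hi' b hb l hl => hch.lip ω hω i hi' b hb l hl) hhi₁ (hosc τ hτ) ?_ (fun l hl => ?_)
    · rw [hnone, t_rt F hw ω, ← sub_div, abs_div, abs_of_pos h2w]
      refine div_le_div_of_nonneg_right ?_ h2w.le
      have e1 : (((slam F w ω).2.2 : ℝ) + τ) - (((slam F w ω).2.2 : ℝ) + rt F w ω) =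
          τ - rt F w ω := by ring
      rw [e1, abs_le]
      have := rt_mem F w ω
      constructor <;> linarith [this.1, this.2, hτ.1, hτ.2]
    · rw [hG l hl]
      exact hown' ω' hω' l hl τ hτ
    · rw [hnone, hnone, hT1]
    · rw [hsome, hsome, hrt]
      obtain ⟨h1, h2⟩ := hnear l hl
      have e1 : (F.x ω' (c l) + (τ - rt F w ω) / 2 ^ w * F.d ω' (c l)) -
          (F.x ω (c l) + (τ - rt F w ω) / 2 ^ w * F.d ω (c l)) =
          (F.x ω' (c l) - F.x ω (c l)) +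
            (τ - rt F w ω) / 2 ^ w * (F.d ω' (c l) - F.d ω (c l)) := by ring
      have e2 : (1 : ℝ) / 2 ^ hi = 1 / 2 ^ (hi + 1) + 1 / 2 ^ (hi + 1) := by
        rw [pow_succ]
        field_simp
        norm_num
      have h3 : |(τ - rt F w ω) / 2 ^ w| ≤ 1 := by
        rw [abs_div, abs_of_pos h2w, div_le_one h2w]
        have h4 : |τ - rt F w ω| ≤ 1 := by
          rw [abs_le]
          have := rt_mem F w ω
          constructor <;> linarith [this.1, this.2, hτ.1, hτ.2]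
        exact h4.trans (one_le_pow₀ (by norm_num))
      rw [e1, e2]
      refine (abs_add_le _ _).trans (add_le_add h1 ?_)
      rw [abs_mul]
      calc _ ≤ 1 * (1 / 2 ^ (hi + 1)) := mul_le_mul h3 h2 (abs_nonneg _) zero_le_one
        _ = _ := one_mul _
  have hσ : ∀ σ : ℝ, |2 ^ w * σ| = 2 ^ w * |σ| := fun σ => by rw [abs_mul, abs_of_pos h2w]
  have hwσ : ∀ σ : ℝ, 0 ≤ 2 ^ w * |σ| := fun σ => mul_nonneg h2w.le (abs_nonneg σ)
  -- the point at the time
  obtain ⟨V, hV⟩ : ∃ V : ℝ, V = 1 / 2 ^ g r := ⟨_, rfl⟩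
  have hV0 : 0 < V := by rw [hV]; positivity
  have hu : ∀ σ : ℝ, |(F.x ω' (c r) + σ * F.d ω' (c r)) - (F.x ω (c r) + σ * F.d ω (c r))| ≤
      2 ^ (n + 2) / 2 ^ g r * (1 + 2 * (2 ^ w * |σ|)) := by
    intro σ
    have h1 := aff_ext (α := (F.x ω' (c r) - F.x ω (c r)) -
      rt F w ω / 2 ^ w * (F.d ω' (c r) - F.d ω (c r)))
      (β := 1 / 2 ^ w * (F.d ω' (c r) - F.d ω (c r))) (η := 2 ^ (n + 2) / 2 ^ g r)
      (rt_mem F w ω) (fun τ hτ => by
        have h2 := (key τ hτ).2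
        rw [hsome, hsome, hrt] at h2
        refine le_trans (le_of_eq ?_) h2
        congr 1
        ring) (2 ^ w * σ)
    rw [hσ] at h1
    refine le_trans (le_of_eq ?_) h1
    congr 1
    field_simp
    ring
  have hpow3 : (2 : ℝ) ^ (n + 3) = 2 * 2 ^ (n + 2) := by rw [pow_succ]; ring
  have hgr : (0 : ℝ) < 2 ^ g r := by positivity
  have hxr : |F.x ω' (c r) - F.x ω (c r)| ≤ 3 / 2 ^ g r := by
    have hd0 : ∀ l < r, |F.x ω' (c l) - F.x ω (c l)| ≤ 1 / 2 ^ hi := fun l hl =>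
      (hnear l hl).1.trans (one_div_le_one_div_of_le (by positivity)
        (pow_le_pow_right₀ (by norm_num) (Nat.le_succ hi)))
    have h1 := (hcell (P := G (ptr F J ω)) (g := g) (a := w) (e := e) (n := 0) (hi := hi)
      (t := F.t ω) (x := bt F ω) hc (hch.degG _) (hch.depG _) (by
        show |F.t ω - F.t ω| ≤ _
        rw [sub_self, abs_zero]
        positivity) (fun l hl => by
        rw [pow_zero]
        exact hch.pos ω hω l hl)
      (fun i hi' b hb l hl => hch.lip ω hω i hi' b hb l hl) hhi₂ r (by omega) (bt F ω')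
      (by show F.t ω' = F.t ω; exact htt) (fun l hl => hd0 l hl)).2 (by omega)
    have h2 := hch.pos ω hω r (by omega)
    have h3 := hch.pos ω' hω' r (by omega)
    rw [← hG r (by omega)] at h3
    have e1 : (3 : ℝ) / 2 ^ g r = 3 * V := by rw [hV]; ring
    have e2 : (1 : ℝ) / 4 / 2 ^ (g r + 0) = V / 4 := by rw [hV, add_zero]; ring
    rw [e2] at h1
    rw [← hV] at h2 h3
    rw [e1]
    rw [abs_le] at h1 h2 h3 ⊢
    constructor <;> linarith [h1.1, h1.2, h2.1, h2.2, h3.1, h3.2]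
  refine ⟨fun σ => ?_, fun σ => ?_, ?_, hxr, ?_, ?_⟩
  · have h1 := aff_ext (α := ((F.x ω' (c (r + 1)) - F.x ω (c (r + 1))) -
      c₀ * (F.x ω' (c r) - F.x ω (c r))) - rt F w ω / 2 ^ w *
        ((F.d ω' (c (r + 1)) - F.d ω (c (r + 1))) - c₀ * (F.d ω' (c r) - F.d ω (c r))))
      (β := 1 / 2 ^ w * ((F.d ω' (c (r + 1)) - F.d ω (c (r + 1))) -
        c₀ * (F.d ω' (c r) - F.d ω (c r)))) (η := 2 ^ (C₁ * (n + 1)) / 2 ^ g (r + 1))
      (rt_mem F w ω) (fun τ hτ => by
        have h2 := (key τ hτ).1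
        rw [hsome, hsome, hsome, hsome, hrt] at h2
        refine le_trans (le_of_eq ?_) h2
        congr 1
        ring) (2 ^ w * σ)
    rw [hσ] at h1
    have h3 : (2 : ℝ) ^ (C₁ * (n + 1)) / 2 ^ g (r + 1) * (1 + 2 * (2 ^ w * |σ|)) ≤
        2 ^ ((C₁ + C₆) * (n + 1)) / 2 ^ g (r + 1) * (1 + 2 ^ w * |σ|) := by
      have h4 : (2 : ℝ) * 2 ^ (C₁ * (n + 1)) ≤ 2 ^ ((C₁ + C₆) * (n + 1)) := by
        calc (2 : ℝ) * 2 ^ (C₁ * (n + 1)) = 2 ^ (C₁ * (n + 1) + 1) := by rw [pow_succ]; ring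
          _ ≤ _ := pow_le_pow_right₀ (by norm_num) (by nlinarith)
      have h5 : (1 + 2 * (2 ^ w * |σ|)) ≤ 2 * (1 + 2 ^ w * |σ|) := by linarith
      have h6 : (0 : ℝ) < 1 / 2 ^ g (r + 1) := by positivity
      have hA : (0 : ℝ) ≤ 2 ^ (C₁ * (n + 1)) * (1 / 2 ^ g (r + 1)) := by positivity
      calc (2 : ℝ) ^ (C₁ * (n + 1)) / 2 ^ g (r + 1) * (1 + 2 * (2 ^ w * |σ|)) =
          2 ^ (C₁ * (n + 1)) * (1 / 2 ^ g (r + 1)) * (1 + 2 * (2 ^ w * |σ|)) := by ring
        _ ≤ 2 ^ (C₁ * (n + 1)) * (1 / 2 ^ g (r + 1)) * (2 * (1 + 2 ^ w * |σ|)) :=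
            mul_le_mul_of_nonneg_left h5 hA
        _ = (2 * 2 ^ (C₁ * (n + 1))) * (1 / 2 ^ g (r + 1) * (1 + 2 ^ w * |σ|)) := by ring
        _ ≤ 2 ^ ((C₁ + C₆) * (n + 1)) * (1 / 2 ^ g (r + 1) * (1 + 2 ^ w * |σ|)) :=
            mul_le_mul_of_nonneg_right h4 (by have := hwσ σ; positivity)
        _ = _ := by ring
    refine le_trans (le_of_eq ?_) (h1.trans h3)
    congr 1
    field_simp
    ring
  · refine (hu σ).trans ?_
    rw [hpow3]
    have h5 : (1 + 2 * (2 ^ w * |σ|)) ≤ 2 * (1 + 2 ^ w * |σ|) := by linarith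
    calc (2 : ℝ) ^ (n + 2) / 2 ^ g r * (1 + 2 * (2 ^ w * |σ|)) ≤
        2 ^ (n + 2) / 2 ^ g r * (2 * (1 + 2 ^ w * |σ|)) :=
          mul_le_mul_of_nonneg_left h5 (by positivity)
      _ = _ := by ring
  · have h0 := (key 0 ⟨le_rfl, zero_le_one⟩).2
    have h1 := (key 1 ⟨zero_le_one, le_rfl⟩).2
    rw [hsome, hsome, hrt] at h0 h1
    have e1 : F.d ω' (c r) - F.d ω (c r) = 2 ^ w *
        (((F.x ω' (c r) + (1 - rt F w ω) / 2 ^ w * F.d ω' (c r)) -
          (F.x ω (c r) + (1 - rt F w ω) / 2 ^ w * F.d ω (c r))) -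
        ((F.x ω' (c r) + (0 - rt F w ω) / 2 ^ w * F.d ω' (c r)) -
          (F.x ω (c r) + (0 - rt F w ω) / 2 ^ w * F.d ω (c r)))) := by
      field_simp
      ring
    rw [e1, abs_mul, abs_of_pos h2w, hpow3]
    calc (2 : ℝ) ^ w * _ ≤ 2 ^ w * (2 ^ (n + 2) / 2 ^ g r + 2 ^ (n + 2) / 2 ^ g r) :=
          mul_le_mul_of_nonneg_left ((abs_sub _ _).trans (add_le_add h1 h0)) h2w.le
      _ = _ := by ring
  · have h1 := hosc (rt F w ω) (rt_mem F w ω) 0 (by rw [abs_zero]; positivity)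
    rw [ptw_rt F hw, add_zero, Function.update_eq_self] at h1
    exact h1
  · intro v hv1 hv2
    rw [← hG (r + 1) (by omega)]
    obtain ⟨P, hP⟩ : ∃ P, P = G (ptr F J ω) := ⟨_, rfl⟩
    have hPd : ∀ l, (P l).totalDegree ≤ D := fun l => by rw [hP]; exact hch.degG _ l
    have hPp : ∀ l, DepC c l (P l) := fun l => by rw [hP]; exact hch.depG _ l
    have hc1 : Set.InjOn c (Set.Iio (r + 1)) := hc.mono fun x hx => by
      rw [Set.mem_Iio] at hx ⊢
      omega
    have hne' : ∀ l < r, c l ≠ c r := fun l hl h => by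
      have := hc1 (Set.mem_Iio.2 (show l < r + 1 by omega))
        (Set.mem_Iio.2 (show r < r + 1 by omega)) h
      omega
    -- the point of the slice
    obtain ⟨y, hy⟩ : ∃ y : Option (Fin m) → ℝ, y = Function.update (bt F ω) (some (c r))
      (bt F ω (some (c r)) + (F.x ω' (c r) - F.x ω (c r))) := ⟨_, rfl⟩
    have hyn : y none = bt F ω' none := by
      rw [hy, Function.update_of_ne (by simp)]
      show F.t ω = F.t ω'
      exact htt.symm
    have hyr : y (some (c r)) = F.x ω' (c r) := by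
      rw [hy, Function.update_self]
      show F.x ω (c r) + (F.x ω' (c r) - F.x ω (c r)) = _
      ring
    have hyl : ∀ l < r, y (some (c l)) = F.x ω (c l) := fun l hl => by
      rw [hy, Function.update_of_ne (fun h => hne' l hl (Option.some_injective _ h))]
      rfl
    have hnr : ∀ l < r + 1, |y (some (c l)) - bt F ω' (some (c l))| ≤ 1 / 2 ^ hi := by
      intro l hl
      rcases Nat.lt_or_ge l r with h | h
      · rw [hyl l h]
        show |F.x ω (c l) - F.x ω' (c l)| ≤ _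
        rw [abs_sub_comm]
        exact (hnear l h).1.trans (one_div_le_one_div_of_le (by positivity)
          (pow_le_pow_right₀ (by norm_num) (Nat.le_succ hi)))
      · have : l = r := by omega
        subst this
        rw [hyr]
        show |F.x ω' (c l) - F.x ω' (c l)| ≤ _
        rw [sub_self, abs_zero]
        positivity
    have hCv : ∀ i < r + 1, e + g i + v + C₃ * (0 + 1) ≤ hi := fun i h => by
      have h1 := hv1 i h
      have h2 : C₃ * 1 ≤ (C₁ + C₆) * (n + 1) := Nat.mul_le_mul (by omega) (by omega)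
      omega
    have hcel : ∀ l ≤ r, |eval y (P l) - eval (bt F ω') (P l)| ≤ 1 / 4 / 2 ^ (g l + v) := by
      intro l hl
      refine (hcel1 (P := P) (g := g) (a := w) (e := e) (n := 0) (hi := hi) (v := v)
        (t := F.t ω) (x := bt F ω') hc1 hPd hPp (by
          show |F.t ω' - F.t ω| ≤ _
          rw [htt, sub_self, abs_zero]
          positivity) (fun l hl => by
          rw [pow_zero, hP, hG l (by omega)]
          exact hch.pos ω' hω' l (by omega))
        (fun i hi' b hb l hl => by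
          rw [hP] at hb ⊢
          exact hch.lip ω hω i (by omega) b hb l hl) hCv l (by omega) y hyn
        (fun l' hl' => hnr l' (by omega))).2 (by omega)
    obtain ⟨Mx, hMx⟩ : ∃ Mx : ℝ, Mx = 2 ^ (e + nlp g r (r + 1)) := ⟨_, rfl⟩
    have hMx0 : 0 ≤ Mx := by rw [hMx]; positivity
    have h4 := hlip5 (c := c) (i := r + 1) (K := fun _ => D) (G := P)
      (Q := pderiv (some (c r)) (P (r + 1))) (g := g) (a := w) (D₀ := D) (t := F.t ω)
      (M := 2 ^ C₄ * Mx) (lam := 1 / 2 ^ v) (b := bt F ω') (b' := y) hc1 hPd hPp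
      (DepC.pderiv (hPp (r + 1)) r) (totalDegree_pdσ (hPd (r + 1)) _) le_rfl (by positivity) (by
        rw [div_le_one (by positivity)]
        exact one_le_pow₀ (by norm_num))
      (fun b hb0 hb => hdbl (by omega) hc1 hPd hPp (DepC.pderiv (hPp (r + 1)) r)
        (totalDegree_pdσ (hPd (r + 1)) _) hMx0 (fun b hb => by
          rw [hMx]
          rw [hP] at hb ⊢
          exact hch.lip ω hω (r + 1) (by omega) b hb r (by omega)) b hb0 hb)
      (by show F.t ω' = F.t ω; exact htt) (fun l hl => by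
        rw [hP, hG l (by omega)]
        exact hch.pos ω' hω' l (by omega)) (by
        rw [hyn]
        show |F.t ω' - F.t ω| ≤ _
        rw [htt, sub_self, abs_zero]
        positivity) (fun l hl => by
        have k1 := hcel l (by omega)
        have k2 := hnr l hl
        have k3 : (1 : ℝ) / 2 ^ hi ≤ 1 / 2 / 2 ^ (g l + v) := by
          rw [div_div]
          refine one_div_le_one_div_of_le (by positivity) ?_
          have e1 : (2 : ℝ) * 2 ^ (g l + v) = 2 ^ (g l + v + 1) := by rw [pow_succ]; ring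
          rw [e1]
          exact pow_le_pow_right₀ (by norm_num) (by have := hv1 l hl; nlinarith)
        have e1 : (y (some (c l)) - eval y (P l)) -
            (bt F ω' (some (c l)) - eval (bt F ω') (P l)) =
            (y (some (c l)) - bt F ω' (some (c l))) -
              (eval y (P l) - eval (bt F ω') (P l)) := by ring
        rw [e1]
        refine (abs_sub _ _).trans ((add_le_add (k2.trans k3) k1).trans ?_)
        have e2 : (1 : ℝ) / 2 ^ v / 2 ^ g l = 1 / 2 ^ (g l + v) := by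
          rw [div_div, ← pow_add, Nat.add_comm v]
        have e3 : (0 : ℝ) < 1 / 2 ^ (g l + v) := by positivity
        have e4 : (1 : ℝ) / 2 / 2 ^ (g l + v) = 1 / 2 * (1 / 2 ^ (g l + v)) := by ring
        have e5 : (1 : ℝ) / 4 / 2 ^ (g l + v) = 1 / 4 * (1 / 2 ^ (g l + v)) := by ring
        rw [e2, e4, e5]
        linarith)
    have h5 := hosc (rt F w ω) (rt_mem F w ω) (F.x ω' (c r) - F.x ω (c r)) (by
      refine hxr.trans ?_
      refine div_le_div_of_nonneg_right ?_ hgr.le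
      have : (1 : ℝ) ≤ 2 ^ n := one_le_pow₀ (by norm_num)
      rw [pow_add]
      linarith)
    rw [ptw_rt F hw, ← hy, ← hP] at h5
    rw [← hP]
    have h6 : Mx * (1 / 2 ^ v) ≤ 2 ^ g r / 2 ^ g (r + 1) := by
      rw [hMx, mul_one_div, div_le_div_iff₀ (by positivity) (by positivity), ← pow_add, ← pow_add]
      exact pow_le_pow_right₀ (by norm_num) hv2
    have hc5 : C₅' * (2 ^ C₄ * Mx) * (1 / 2 ^ v) ≤
        2 ^ (C₄ + C₅) * (2 ^ g r / 2 ^ g (r + 1)) := by
      calc C₅' * (2 ^ C₄ * Mx) * (1 / 2 ^ v) = C₅' * (2 ^ C₄ * (Mx * (1 / 2 ^ v))) := by ring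
        _ ≤ 2 ^ C₅ * (2 ^ C₄ * (2 ^ g r / 2 ^ g (r + 1))) := by
            refine mul_le_mul hC₅.le (mul_le_mul_of_nonneg_left h6 (by positivity)) ?_
              (by positivity)
            have : (0 : ℝ) ≤ Mx * (1 / 2 ^ v) := by positivity
            positivity
        _ = _ := by rw [pow_add]; ring
    have e7 : eval (bt F ω') (pderiv (some (c r)) (P (r + 1))) - c₀ =
        (eval y (pderiv (some (c r)) (P (r + 1))) - c₀) -
        (eval y (pderiv (some (c r)) (P (r + 1))) -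
          eval (bt F ω') (pderiv (some (c r)) (P (r + 1)))) := by ring
    rw [e7]
    refine (abs_sub _ _).trans ((add_le_add h5 (h4.trans hc5)).trans ?_)
    obtain ⟨U, hU⟩ : ∃ U : ℝ, U = 2 ^ g r / 2 ^ g (r + 1) := ⟨_, rfl⟩
    have hU0 : 0 ≤ U := by rw [hU]; positivity
    have e8 : (2 : ℝ) ^ n * 2 ^ g r / 2 ^ g (r + 1) = 2 ^ n * U := by rw [hU]; ring
    have e9 : (2 : ℝ) ^ ((C₁ + C₆) * (n + 1)) * 2 ^ g r / 2 ^ g (r + 1) =
        2 ^ ((C₁ + C₆) * (n + 1)) * U := by rw [hU]; ring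
    rw [e8, e9, ← hU, ← add_mul]
    refine mul_le_mul_of_nonneg_right ?_ hU0
    have k1 : (2 : ℝ) ^ n ≤ 2 ^ (C₄ + C₅ + n) := pow_le_pow_right₀ (by norm_num) (by omega)
    have k2 : (2 : ℝ) ^ (C₄ + C₅) ≤ 2 ^ (C₄ + C₅ + n) :=
      pow_le_pow_right₀ (by norm_num) (by omega)
    calc (2 : ℝ) ^ n + 2 ^ (C₄ + C₅) ≤ 2 ^ (C₄ + C₅ + n) * 2 := by linarith
      _ = 2 ^ (C₄ + C₅ + n + 1) := by rw [pow_succ]
      _ ≤ _ := pow_le_pow_right₀ (by norm_num) (by
          have : C₄ + C₅ + n + 1 ≤ (C₁ + C₆) * (n + 1) := by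
            have h8 : C₄ + C₅ + 1 ≤ C₁ + C₆ := by omega
            nlinarith
          exact this)

end Pool.PRQ76
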