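import Pool.Agent.H46.PR.Cnt

/-!
# Two hops, polynomial heights: counting in a cell

`cnt_cell`: the number of pairs of integers for which two forms with slightly varying coefficients
are near given numbers.
-/

set_option autoImplicit false

namespace Pool.PRQ76

open Finset Real Pool.PR46

/-- The count, the first coefficient of the first form is the largest one. -/
theorem cnt_pivot {M : ℕ} (hM : 1 ≤ M) {K X W x₁ : ℝ} (hK : 1 ≤ K) (hX : 0 < X) (hXM : X ≤ K * M)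
    (hW : 0 < W) (hx : |x₁| = X) (s : Finset (ℤ × ℤ))
    (hs : ∀ a ∈ s, ∀ b ∈ s, ∃ u₁ u₂ v₁ v₂ : ℝ, |u₁ - x₁| ≤ X / 8 ∧ |u₂| ≤ 9 * X / 8 ∧
      |v₁| ≤ 9 * X / 8 ∧ |v₂| ≤ 9 * X / 8 ∧ W ≤ |u₁ * v₂ - u₂ * v₁| ∧
      |u₁ * ((a.1 : ℝ) - b.1) + u₂ * ((a.2 : ℝ) - b.2)| ≤ 2 * K * M ∧
      |v₁ * ((a.1 : ℝ) - b.1) + v₂ * ((a.2 : ℝ) - b.2)| ≤ 2 * K * M) :
    (s.card : ℝ) ≤ 32 * K ^ 2 * M ^ 2 / W := by
  have hMr : (1 : ℝ) ≤ M := by exact_mod_cast hM
  have hKM : 0 < K * M := by positivity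
  rcases s.eq_empty_or_nonempty with rfl | ⟨a₀, ha₀⟩
  · simp only [Finset.card_empty, Nat.cast_zero]
    positivity
  have hub : ∀ u₁ : ℝ, |u₁ - x₁| ≤ X / 8 → |u₁| ≤ 9 * X / 8 ∧ 7 * X / 8 ≤ |u₁| := by
    intro u₁ h
    have h1 := abs_sub_abs_le_abs_sub u₁ x₁
    have h2 := abs_sub_abs_le_abs_sub x₁ u₁
    rw [abs_sub_comm x₁ u₁] at h2
    rw [hx] at h1 h2
    constructor <;> linarith
  -- the size of `W`
  have hWX : W ≤ 3 * X ^ 2 := by
    obtain ⟨u₁, u₂, v₁, v₂, h1, h2, h3, h4, h5, -, -⟩ := hs a₀ ha₀ a₀ ha₀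
    have h1' := (hub u₁ h1).1
    refine h5.trans ((abs_sub _ _).trans ?_)
    rw [abs_mul, abs_mul]
    have g1 := mul_le_mul h1' h4 (abs_nonneg _) (by positivity)
    have g2 := mul_le_mul h2 h3 (abs_nonneg _) (by positivity)
    nlinarith
  have key := card_rows s (B₁ := 3 * (K * M) / X) (B₂ := 5 * (K * M) * X / W) (by positivity)
    (by positivity) (by
      intro a ha b hb
      obtain ⟨u₁, u₂, v₁, v₂, h1, h2, h3, h4, h5, h6, h7⟩ := hs a ha b hb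
      have h1' := (hub u₁ h1).1
      have d3 : W * |(a.2 : ℝ) - b.2| ≤ 5 * (K * M) * X := by
        have e : (u₁ * v₂ - u₂ * v₁) * ((a.2 : ℝ) - b.2) =
            u₁ * (v₁ * ((a.1 : ℝ) - b.1) + v₂ * ((a.2 : ℝ) - b.2)) -
            v₁ * (u₁ * ((a.1 : ℝ) - b.1) + u₂ * ((a.2 : ℝ) - b.2)) := by ring
        have e2 : W * |(a.2 : ℝ) - b.2| ≤ |(u₁ * v₂ - u₂ * v₁) * ((a.2 : ℝ) - b.2)| := by
          rw [abs_mul]
          exact mul_le_mul_of_nonneg_right h5 (abs_nonneg _)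
        refine e2.trans ?_
        rw [e]
        refine (abs_sub _ _).trans ?_
        rw [abs_mul, abs_mul]
        have g1 := mul_le_mul h1' h7 (abs_nonneg _) (by positivity)
        have g2 := mul_le_mul h3 h6 (abs_nonneg _) (by positivity)
        have g3 : 0 < K * M * X := by positivity
        linarith
      rw [le_div_iff₀ hW]
      linarith) (by
      intro a ha b hb hab
      obtain ⟨u₁, u₂, v₁, v₂, h1, h2, h3, h4, h5, h6, h7⟩ := hs a ha b hb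
      have h1' := (hub u₁ h1).2
      rw [hab, sub_self, mul_zero, add_zero, abs_mul] at h6
      rw [le_div_iff₀ hX]
      have g1 := mul_le_mul_of_nonneg_right h1' (abs_nonneg ((a.1 : ℝ) - b.1))
      nlinarith [abs_nonneg ((a.1 : ℝ) - b.1)])
  refine key.trans ?_
  have g0 : (5 * (K * M) * X / W + 1) * (3 * (K * M) / X + 1) =
      15 * (K * M) ^ 2 / W + 5 * (K * M) * X / W + 3 * (K * M) / X + 1 := by
    field_simp
    ring
  rw [g0]
  have g1 : 5 * (K * M) * X / W ≤ 5 * (K * M) ^ 2 / W := by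
    refine div_le_div_of_nonneg_right ?_ hW.le
    nlinarith
  have g2 : 3 * (K * M) / X ≤ 9 * (K * M) ^ 2 / W := by
    rw [div_le_div_iff₀ hX hW]
    have : 3 * (K * M) * W ≤ 3 * (K * M) * (3 * X ^ 2) :=
      mul_le_mul_of_nonneg_left hWX (by positivity)
    have h2 : (K * M * X) * X ≤ (K * M * X) * (K * M) :=
      mul_le_mul_of_nonneg_left hXM (by positivity)
    nlinarith
  have g3 : (1 : ℝ) ≤ 3 * (K * M) ^ 2 / W := by
    rw [le_div_iff₀ hW, one_mul]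
    refine hWX.trans ?_
    have := pow_le_pow_left₀ hX.le hXM 2
    linarith
  have g4 : 32 * K ^ 2 * (M : ℝ) ^ 2 / W = 15 * (K * M) ^ 2 / W + 5 * (K * M) ^ 2 / W +
      9 * (K * M) ^ 2 / W + 3 * (K * M) ^ 2 / W := by ring
  rw [g4]
  linarith

/-- The count, the coefficients vary by an eighth of the largest one. -/
theorem cnt_cell {M : ℕ} (hM : 1 ≤ M) {K W x₁ x₂ y₁ y₂ : ℝ} (hK : 1 ≤ K)
    (hXM : max (max |x₁| |x₂|) (max |y₁| |y₂|) ≤ K * M) (hW : 0 < W) (s : Finset (ℤ × ℤ))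
    (hs : ∀ a ∈ s, ∀ b ∈ s, ∃ v₁ v₂ : ℝ,
      |v₁ - y₁| ≤ max (max |x₁| |x₂|) (max |y₁| |y₂|) / 8 ∧
      |v₂ - y₂| ≤ max (max |x₁| |x₂|) (max |y₁| |y₂|) / 8 ∧ W ≤ |x₁ * v₂ - x₂ * v₁| ∧
      |x₁ * ((a.1 : ℝ) - b.1) + x₂ * ((a.2 : ℝ) - b.2)| ≤ 2 * K * M ∧
      |v₁ * ((a.1 : ℝ) - b.1) + v₂ * ((a.2 : ℝ) - b.2)| ≤ 2 * K * M) :
    (s.card : ℝ) ≤ 32 * K ^ 2 * M ^ 2 / W := by
  classical
  obtain ⟨X, hXd⟩ : ∃ X, X = max (max |x₁| |x₂|) (max |y₁| |y₂|) := ⟨_, rfl⟩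
  rw [← hXd] at hXM hs
  have h1 : |x₁| ≤ X := by rw [hXd]; exact (le_max_left _ _).trans (le_max_left _ _)
  have h2 : |x₂| ≤ X := by rw [hXd]; exact (le_max_right _ _).trans (le_max_left _ _)
  have h3 : |y₁| ≤ X := by rw [hXd]; exact (le_max_left _ _).trans (le_max_right _ _)
  have h4 : |y₂| ≤ X := by rw [hXd]; exact (le_max_right _ _).trans (le_max_right _ _)
  have hX0 : 0 ≤ X := (abs_nonneg _).trans h1
  rcases s.eq_empty_or_nonempty with rfl | ⟨a₀, ha₀⟩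
  · simp only [Finset.card_empty, Nat.cast_zero]
    positivity
  have hX : 0 < X := by
    rcases hX0.eq_or_lt with h | h
    · obtain ⟨v₁, v₂, -, -, h5, -, -⟩ := hs a₀ ha₀ a₀ ha₀
      rw [← h] at h1 h2
      have e1 : x₁ = 0 := abs_eq_zero.mp (le_antisymm h1 (abs_nonneg _))
      have e2 : x₂ = 0 := abs_eq_zero.mp (le_antisymm h2 (abs_nonneg _))
      rw [e1, e2] at h5
      norm_num at h5
      linarith
    · exact h
  have hv : ∀ v y : ℝ, |y| ≤ X → |v - y| ≤ X / 8 → |v| ≤ 9 * X / 8 := by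
    intro v y h h'
    have := abs_sub_abs_le_abs_sub v y
    linarith
  have hx8 : ∀ x : ℝ, |x| ≤ X → |x| ≤ 9 * X / 8 := fun x h => by linarith
  have hx0 : ∀ x : ℝ, |x - x| ≤ X / 8 := fun x => by rw [sub_self, abs_zero]; positivity
  -- the swap
  have hsw : ∀ {P : Prop}, (∀ s' : Finset (ℤ × ℤ), s'.card = s.card → (∀ a ∈ s', ∀ b ∈ s',
      (a.2, a.1) ∈ s ∧ (b.2, b.1) ∈ s) → P) → P := by
    intro P h
    refine h (s.image Prod.swap) (Finset.card_image_of_injective s Prod.swap_injective) ?_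
    intro a ha b hb
    obtain ⟨a', ha', rfl⟩ := Finset.mem_image.mp ha
    obtain ⟨b', hb', rfl⟩ := Finset.mem_image.mp hb
    exact ⟨ha', hb'⟩
  have hcase : |x₁| = X ∨ |x₂| = X ∨ |y₁| = X ∨ |y₂| = X := by
    rw [hXd]
    rcases le_total (max |x₁| |x₂|) (max |y₁| |y₂|) with h | h
    · rw [max_eq_right h]
      rcases le_total |y₁| |y₂| with h' | h'
      · rw [max_eq_right h']
        exact Or.inr (Or.inr (Or.inr rfl))
      · rw [max_eq_left h']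
        exact Or.inr (Or.inr (Or.inl rfl))
    · rw [max_eq_left h]
      rcases le_total |x₁| |x₂| with h' | h'
      · rw [max_eq_right h']
        exact Or.inr (Or.inl rfl)
      · rw [max_eq_left h']
        exact Or.inl rfl
  rcases hcase with hc | hc | hc | hc
  · refine cnt_pivot hM hK hX hXM hW hc s fun a ha b hb => ?_
    obtain ⟨v₁, v₂, g1, g2, g3, g4, g5⟩ := hs a ha b hb
    exact ⟨x₁, x₂, v₁, v₂, hx0 _, hx8 _ h2, hv _ _ h3 g1, hv _ _ h4 g2, g3, g4, g5⟩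
  · refine hsw fun s' hs' hmem => ?_
    rw [← hs']
    refine cnt_pivot hM hK hX hXM hW hc s' fun a ha b hb => ?_
    obtain ⟨m1, m2⟩ := hmem a ha b hb
    obtain ⟨v₁, v₂, g1, g2, g3, g4, g5⟩ := hs _ m1 _ m2
    refine ⟨x₂, x₁, v₂, v₁, hx0 _, hx8 _ h1, hv _ _ h4 g2, hv _ _ h3 g1, ?_, ?_, ?_⟩
    · rw [abs_sub_comm]
      exact g3
    · rw [add_comm]
      exact g4
    · rw [add_comm]
      exact g5
  · refine cnt_pivot hM hK hX hXM hW hc s fun a ha b hb => ?_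
    obtain ⟨v₁, v₂, g1, g2, g3, g4, g5⟩ := hs a ha b hb
    refine ⟨v₁, v₂, x₁, x₂, g1, hv _ _ h4 g2, hx8 _ h1, hx8 _ h2, ?_, g5, g4⟩
    have e : |v₁ * x₂ - v₂ * x₁| = |x₁ * v₂ - x₂ * v₁| := by
      rw [abs_sub_comm]
      congr 1
      ring
    rw [e]
    exact g3
  · refine hsw fun s' hs' hmem => ?_
    rw [← hs']
    refine cnt_pivot hM hK hX hXM hW hc s' fun a ha b hb => ?_
    obtain ⟨m1, m2⟩ := hmem a ha b hb
    obtain ⟨v₁, v₂, g1, g2, g3, g4, g5⟩ := hs _ m1 _ m2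
    refine ⟨v₂, v₁, x₂, x₁, g2, hv _ _ h3 g1, hx8 _ h2, hx8 _ h1, ?_, ?_, ?_⟩
    · have e : |v₂ * x₁ - v₁ * x₂| = |x₁ * v₂ - x₂ * v₁| := by
        congr 1
        ring
      rw [e]
      exact g3
    · rw [add_comm]
      exact g5
    · rw [add_comm]
      exact g4

/-- The count with one form. -/
theorem cnt_form {M : ℕ} (hM : 1 ≤ M) {K W : ℝ} (hK : 1 ≤ K) (hW : 0 < W) (hWM : W ≤ K * M)
    (s : Finset (ℤ × ℤ)) (hb : ∀ a ∈ s, ∀ b ∈ s, |(a.2 : ℝ) - b.2| ≤ 4 * M)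
    (hs : ∀ a ∈ s, ∀ b ∈ s, a.2 = b.2 → ∃ v₁ : ℝ, W ≤ |v₁| ∧ |v₁ * ((a.1 : ℝ) - b.1)| ≤ 2 * K * M) :
    (s.card : ℝ) ≤ 15 * K * M ^ 2 / W := by
  have hMr : (1 : ℝ) ≤ M := by exact_mod_cast hM
  have key := card_rows s (B₁ := 2 * K * M / W) (B₂ := 4 * M) (by positivity) (by positivity) hb (by
      intro a ha b hb hab
      obtain ⟨v₁, h1, h2⟩ := hs a ha b hb hab
      rw [abs_mul] at h2
      rw [le_div_iff₀ hW]
      have := mul_le_mul_of_nonneg_right h1 (abs_nonneg ((a.1 : ℝ) - b.1))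
      linarith)
  refine key.trans ?_
  have g1 : (1 : ℝ) ≤ K * M / W := by
    rw [le_div_iff₀ hW, one_mul]
    exact hWM
  have g2 : (4 * (M : ℝ) + 1) * (2 * K * M / W + 1) ≤ (5 * M) * (3 * (K * M / W)) := by
    refine mul_le_mul (by linarith) ?_ (by positivity) (by positivity)
    have e : 2 * K * M / W = 2 * (K * M / W) := by ring
    rw [e]
    linarith
  refine g2.trans (le_of_eq ?_)
  ring

end Pool.PRQ76
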