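import Pool.Agent.H33.KAL.RMG
import Pool.Agent.H40.BFL.MKO
import Pool.Agent.H50.PW.Det
import Pool.Agent.H65.OVN.MV
import Pool.Agent.H76.PR.Cnq

/-!
# Two hops, polynomial heights: the polynomials

The supremum norm on the box, Lipschitz bounds, the mean value theorem on a segment, and the number
of integer points at which a polynomial is small.
-/

set_option autoImplicit false

namespace Pool.PRQ76

open Finset Real MvPolynomial

/-- The polynomial on the line `a + t b`. -/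
noncomputable def lp (a b : Fin 2 → ℝ) (Φ : MvPolynomial (Fin 2) ℝ) : Polynomial ℝ :=
  aeval (fun j => Polynomial.C (a j) + Polynomial.C (b j) * Polynomial.X) Φ

theorem lp_eval (a b : Fin 2 → ℝ) (Φ : MvPolynomial (Fin 2) ℝ) (t : ℝ) :
    (lp a b Φ).eval t = eval (fun j => a j + t * b j) Φ := by
  unfold lp
  induction Φ using MvPolynomial.induction_on with
  | C c => simp
  | add p q hp hq => rw [map_add, Polynomial.eval_add, hp, hq, map_add]
  | mul_X p i hp =>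
    rw [map_mul, Polynomial.eval_mul, hp, map_mul, aeval_X, eval_X, Polynomial.eval_add,
      Polynomial.eval_mul, Polynomial.eval_C, Polynomial.eval_C, Polynomial.eval_X]
    ring

theorem lp_deg (a b : Fin 2 → ℝ) {Φ : MvPolynomial (Fin 2) ℝ} {K : ℕ} (h : Φ.totalDegree ≤ K) :
    (lp a b Φ).natDegree ≤ K := by
  have h1 := aeval_natDegree_le (n := 1) Φ h
    (fun j => Polynomial.C (a j) + Polynomial.C (b j) * Polynomial.X) (fun j => by
      refine (Polynomial.natDegree_add_le _ _).trans (max_le ?_ ?_)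
      · rw [Polynomial.natDegree_C]; exact Nat.zero_le _
      · exact (Polynomial.natDegree_C_mul_le _ _).trans Polynomial.natDegree_X_le)
  rw [mul_one] at h1
  exact h1

theorem lp_der (a b : Fin 2 → ℝ) (Φ : MvPolynomial (Fin 2) ℝ) (t : ℝ) :
    (lp a b Φ).derivative.eval t = ∑ j, b j * (lp a b (pderiv j Φ)).eval t := by
  have h1 := (lp a b Φ).hasDerivAt t
  have h2 := Pool.OVN.hasDerivAt_line Φ a b t
  have e : (fun s : ℝ => eval (fun i => a i + s * b i) Φ) = fun s => (lp a b Φ).eval s := by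
    funext s
    rw [lp_eval]
  rw [e] at h2
  have h3 := h1.unique h2
  rw [h3]
  exact Finset.sum_congr rfl fun j _ => by rw [lp_eval]

theorem td_pderiv {Φ : MvPolynomial (Fin 2) ℝ} {K : ℕ} (h : Φ.totalDegree ≤ K) (j : Fin 2) :
    (pderiv j Φ).totalDegree ≤ K :=
  (Pool.Agent.H50.PW.totalDegree_pderiv_le Φ j).trans h

/-- The box. -/
def Bx : Set (Fin 2 → ℝ) := Set.Icc (fun _ => -2) (fun _ => 2)

theorem mem_Bx {v : Fin 2 → ℝ} : v ∈ Bx ↔ ∀ j, |v j| ≤ 2 := by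
  unfold Bx
  rw [Set.mem_Icc, Pi.le_def, Pi.le_def]
  constructor
  · rintro ⟨h1, h2⟩ j
    exact abs_le.mpr ⟨h1 j, h2 j⟩
  · intro h
    exact ⟨fun j => (abs_le.mp (h j)).1, fun j => (abs_le.mp (h j)).2⟩

/-- The supremum on the box. -/
noncomputable def nrm (Φ : MvPolynomial (Fin 2) ℝ) : ℝ := sSup ((fun v => |eval v Φ|) '' Bx)

theorem Bx_compact : IsCompact Bx := isCompact_Icc

theorem Bx_ne : Bx.Nonempty := ⟨fun _ => 0, mem_Bx.mpr fun _ => by norm_num⟩

theorem cont_abs (Φ : MvPolynomial (Fin 2) ℝ) : Continuous (fun v : Fin 2 → ℝ => |eval v Φ|) :=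
  (MvPolynomial.continuous_eval Φ).abs

theorem ex_nrm (Φ : MvPolynomial (Fin 2) ℝ) : ∃ v ∈ Bx, nrm Φ = |eval v Φ| :=
  Bx_compact.exists_sSup_image_eq Bx_ne (cont_abs Φ).continuousOn

theorem le_nrm (Φ : MvPolynomial (Fin 2) ℝ) {v : Fin 2 → ℝ} (hv : v ∈ Bx) : |eval v Φ| ≤ nrm Φ :=
  le_csSup (Bx_compact.bddAbove_image (cont_abs Φ).continuousOn) (Set.mem_image_of_mem _ hv)

theorem nrm_nonneg (Φ : MvPolynomial (Fin 2) ℝ) : 0 ≤ nrm Φ := by
  obtain ⟨v, -, h⟩ := ex_nrm Φ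
  rw [h]
  exact abs_nonneg _

theorem nrm_le {Φ : MvPolynomial (Fin 2) ℝ} {S : ℝ} (h : ∀ v ∈ Bx, |eval v Φ| ≤ S) :
    nrm Φ ≤ S := by
  obtain ⟨v, hv, h'⟩ := ex_nrm Φ
  rw [h']
  exact h v hv

/-- The Jacobian of the linear form and of the polynomial. -/
noncomputable def jac (k₁ k₂ : ℝ) (Φ : MvPolynomial (Fin 2) ℝ) : MvPolynomial (Fin 2) ℝ :=
  C k₁ * pderiv 1 Φ - C k₂ * pderiv 0 Φ

theorem jac_eval (k₁ k₂ : ℝ) (Φ : MvPolynomial (Fin 2) ℝ) (v : Fin 2 → ℝ) :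
    eval v (jac k₁ k₂ Φ) = k₁ * eval v (pderiv 1 Φ) - k₂ * eval v (pderiv 0 Φ) := by
  unfold jac
  simp only [map_sub, map_mul, eval_C]

theorem jac_deg (k₁ k₂ : ℝ) {Φ : MvPolynomial (Fin 2) ℝ} {d : ℕ} (h : Φ.totalDegree ≤ d) :
    (jac k₁ k₂ Φ).totalDegree ≤ d := by
  unfold jac
  refine (totalDegree_sub _ _).trans (max_le ?_ ?_)
  · refine (totalDegree_mul _ _).trans ?_
    rw [totalDegree_C, zero_add]
    exact td_pderiv h 1
  · refine (totalDegree_mul _ _).trans ?_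
    rw [totalDegree_C, zero_add]
    exact td_pderiv h 0

/-- The size of the gradient. -/
noncomputable def ngr (Φ : MvPolynomial (Fin 2) ℝ) : ℝ := max (nrm (pderiv 0 Φ)) (nrm (pderiv 1 Φ))

theorem ngr_nonneg (Φ : MvPolynomial (Fin 2) ℝ) : 0 ≤ ngr Φ :=
  (nrm_nonneg _).trans (le_max_left _ _)

theorem le_ngr (Φ : MvPolynomial (Fin 2) ℝ) {v : Fin 2 → ℝ} (hv : v ∈ Bx) (j : Fin 2) :
    |eval v (pderiv j Φ)| ≤ ngr Φ := by
  unfold ngr
  fin_cases j
  · exact (le_nrm _ hv).trans (le_max_left _ _)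
  · exact (le_nrm _ hv).trans (le_max_right _ _)

/-- The freedom of the polynomial given the linear form. -/
noncomputable def frp (k₁ k₂ : ℝ) (Φ : MvPolynomial (Fin 2) ℝ) : ℝ :=
  max (nrm (jac k₁ k₂ Φ)) (ngr Φ) / max 1 (max |k₁| |k₂|)

theorem mx_pos (k₁ k₂ : ℝ) : 0 < max 1 (max |k₁| |k₂|) := zero_lt_one.trans_le (le_max_left _ _)

/-- What a bound for the freedom says. -/
theorem frp_lt {k₁ k₂ V : ℝ} {Φ : MvPolynomial (Fin 2) ℝ} (h : frp k₁ k₂ Φ < V) :
    nrm (jac k₁ k₂ Φ) < V * max 1 (max |k₁| |k₂|) ∧ ngr Φ < V * max 1 (max |k₁| |k₂|) := by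
  unfold frp at h
  rw [div_lt_iff₀ (mx_pos k₁ k₂)] at h
  exact ⟨(le_max_left _ _).trans_lt h, (le_max_right _ _).trans_lt h⟩

/-- The freedom is bounded by the size of the gradient. -/
theorem frp_le (k₁ k₂ : ℝ) (Φ : MvPolynomial (Fin 2) ℝ) : frp k₁ k₂ Φ ≤ 2 * ngr Φ := by
  unfold frp
  rw [div_le_iff₀ (mx_pos k₁ k₂)]
  have hg := ngr_nonneg Φ
  have h1 : 1 ≤ max 1 (max |k₁| |k₂|) := le_max_left _ _
  have h2 : |k₁| ≤ max 1 (max |k₁| |k₂|) := (le_max_left _ _).trans (le_max_right _ _)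
  have h3 : |k₂| ≤ max 1 (max |k₁| |k₂|) := (le_max_right _ _).trans (le_max_right _ _)
  obtain ⟨m, hm⟩ : ∃ m, m = max 1 (max |k₁| |k₂|) := ⟨_, rfl⟩
  rw [← hm] at h1 h2 h3 ⊢
  refine max_le (nrm_le fun v hv => ?_) (by nlinarith)
  rw [jac_eval]
  refine (abs_sub _ _).trans ?_
  rw [abs_mul, abs_mul]
  have g1 := mul_le_mul h2 (le_ngr Φ hv 1) (abs_nonneg _) (by linarith)
  have g2 := mul_le_mul h3 (le_ngr Φ hv 0) (abs_nonneg _) (by linarith)
  linarith

/-- Segments in the box. -/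
theorem seg_Bx {v w : Fin 2 → ℝ} (hv : v ∈ Bx) (hw : w ∈ Bx) {θ : ℝ} (h0 : 0 ≤ θ) (h1 : θ ≤ 1) :
    (fun j => v j + θ * (w j - v j)) ∈ Bx := by
  rw [mem_Bx] at hv hw ⊢
  intro j
  have e : v j + θ * (w j - v j) = (1 - θ) * v j + θ * w j := by ring
  rw [e]
  refine (abs_add_le _ _).trans ?_
  rw [abs_mul, abs_mul, abs_of_nonneg h0, abs_of_nonneg (by linarith : (0 : ℝ) ≤ 1 - θ)]
  nlinarith [hv j, hw j]

/-- **The mean value theorem on a segment.** -/
theorem mvt_seg (Φ : MvPolynomial (Fin 2) ℝ) (v w : Fin 2 → ℝ) : ∃ θ : ℝ, 0 ≤ θ ∧ θ ≤ 1 ∧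
    eval w Φ - eval v Φ =
      eval (fun j => v j + θ * (w j - v j)) (pderiv 0 Φ) * (w 0 - v 0) +
      eval (fun j => v j + θ * (w j - v j)) (pderiv 1 Φ) * (w 1 - v 1) := by
  obtain ⟨q, hq⟩ : ∃ q, q = lp v (fun j => w j - v j) Φ := ⟨_, rfl⟩
  obtain ⟨θ, ⟨h0, h1⟩, h2⟩ := exists_hasDerivAt_eq_slope (fun t => q.eval t)
    (fun t => q.derivative.eval t) zero_lt_one q.continuous.continuousOn
    (fun t _ => q.hasDerivAt t)
  refine ⟨θ, h0.le, h1.le, ?_⟩
  rw [sub_zero, div_one] at h2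
  have e1 : q.eval 1 = eval w Φ := by
    rw [hq, lp_eval]
    congr 2
    funext j
    ring
  have e0 : q.eval 0 = eval v Φ := by
    rw [hq, lp_eval]
    congr 2
    funext j
    ring
  rw [← e1, ← e0, ← h2, hq, lp_der, Fin.sum_univ_two, lp_eval, lp_eval]
  ring

/-- **Lipschitz bound.** -/
theorem nrm_lip (d : ℕ) : ∃ L : ℝ, 1 ≤ L ∧ ∀ (Φ : MvPolynomial (Fin 2) ℝ), Φ.totalDegree ≤ d →
    ∀ v ∈ Bx, ∀ w ∈ Bx, ∀ r : ℝ, (∀ j, |v j - w j| ≤ r) →
    |eval v Φ - eval w Φ| ≤ L * r * nrm Φ := by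
  classical
  obtain ⟨C, hC, hmk⟩ := Pool.Agent.H40.BFL.mko_thm d
  refine ⟨2 * C, by linarith, fun Φ hΦ v hv w hw r hr => ?_⟩
  have hr0 : 0 ≤ r := (abs_nonneg _).trans (hr 0)
  have hd : ∀ x ∈ Bx, ∀ j : Fin 2, |eval x (pderiv j Φ)| ≤ C * nrm Φ := by
    intro x hx j
    obtain ⟨e, he⟩ : ∃ e : Fin 2 → ℝ, e = Pi.single j 1 := ⟨_, rfl⟩
    have hej : e j = 1 := by rw [he, Pi.single_eq_same]
    have hei : ∀ i, i ≠ j → e i = 0 := fun i hi => by rw [he, Pi.single_eq_of_ne hi]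
    have hx' := mem_Bx.mp hx
    have h1 := hmk (lp x e Φ) (-2 - x j) 4 (nrm Φ) (lp_deg _ _ hΦ) (by norm_num) (fun t ht => by
      rw [lp_eval]
      refine le_nrm _ (mem_Bx.mpr fun i => ?_)
      by_cases hi : i = j
      · rw [hi, hej, mul_one, abs_le]
        constructor <;> linarith [ht.1, ht.2]
      · rw [hei i hi, mul_zero, add_zero]
        exact hx' i) 0 ⟨by linarith [(abs_le.mp (hx' j)).1], by linarith [(abs_le.mp (hx' j)).2]⟩
    rw [lp_der, Finset.sum_eq_single j (fun i _ hi => by rw [hei i hi, zero_mul])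
      (fun hj => absurd (Finset.mem_univ _) hj), hej, one_mul, lp_eval] at h1
    have e1 : (fun i => x i + 0 * e i) = x := by
      funext i
      rw [zero_mul, add_zero]
    rw [e1] at h1
    refine h1.trans ?_
    have : 0 ≤ C * nrm Φ := mul_nonneg (by linarith) (nrm_nonneg Φ)
    linarith
  obtain ⟨θ, h0, h1, h2⟩ := mvt_seg Φ w v
  rw [h2]
  have hx := seg_Bx hw hv h0 h1
  refine (abs_add_le _ _).trans ?_
  rw [abs_mul, abs_mul]
  have hCn : 0 ≤ C * nrm Φ := mul_nonneg (by linarith) (nrm_nonneg Φ)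
  have g1 := mul_le_mul (hd _ hx 0) (hr 0) (abs_nonneg _) hCn
  have g2 := mul_le_mul (hd _ hx 1) (hr 1) (abs_nonneg _) hCn
  linarith

/-- The point of a pair of integers. -/
noncomputable def pnt (M : ℕ) (a : ℤ × ℤ) : Fin 2 → ℝ := ![(a.1 : ℝ) / M, (a.2 : ℝ) / M]

theorem pnt_Bx {M : ℕ} (hM : 1 ≤ M) {a : ℤ × ℤ} (h1 : |a.1| ≤ 2 * (M : ℤ))
    (h2 : |a.2| ≤ 2 * (M : ℤ)) : pnt M a ∈ Bx := by
  have hM0 : (0 : ℝ) < M := by exact_mod_cast hM
  have h1' : |(a.1 : ℝ)| ≤ 2 * M := by exact_mod_cast h1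
  have h2' : |(a.2 : ℝ)| ≤ 2 * M := by exact_mod_cast h2
  rw [mem_Bx]
  intro j
  unfold pnt
  fin_cases j
  · show |(a.1 : ℝ) / M| ≤ 2
    rw [abs_div, abs_of_pos hM0, div_le_iff₀ hM0]
    exact h1'
  · show |(a.2 : ℝ) / M| ≤ 2
    rw [abs_div, abs_of_pos hM0, div_le_iff₀ hM0]
    exact h2'

/-- The square of pairs of integers. -/
noncomputable def sqr (M : ℕ) : Finset (ℤ × ℤ) :=
  Finset.Icc (-(2 * M : ℤ)) (2 * M) ×ˢ Finset.Icc (-(2 * M : ℤ)) (2 * M)

theorem mem_sqr {M : ℕ} {a : ℤ × ℤ} : a ∈ sqr M ↔ |a.1| ≤ 2 * (M : ℤ) ∧ |a.2| ≤ 2 * (M : ℤ) := by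
  unfold sqr
  rw [Finset.mem_product, Finset.mem_Icc, Finset.mem_Icc, abs_le, abs_le]

theorem card_side (M : ℕ) : (Finset.Icc (-(2 * M : ℤ)) (2 * M)).card = 4 * M + 1 := by
  rw [Int.card_Icc]
  omega

open Classical in
/-- **The number of integer points at which a polynomial is small.** -/
theorem bad_card (d : ℕ) : ∃ C : ℝ, 1 ≤ C ∧ ∀ (Φ : MvPolynomial (Fin 2) ℝ), Φ.totalDegree ≤ d →
    ∀ (M : ℕ) (η : ℝ), 0 < η → 1 ≤ η * M →
    (((sqr M).filter fun a => |eval (pnt M a) Φ| < C⁻¹ * η ^ (2 * d) * nrm Φ).card : ℝ) ≤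
      C * η * M ^ 2 := by
  obtain ⟨C, hC⟩ : ∃ C : ℝ, C = 2 * ((d : ℝ) + 1) ^ 2 * 16 ^ d + 20 * d := ⟨_, rfl⟩
  have hd0 : (0 : ℝ) ≤ d := Nat.cast_nonneg d
  have h16 : (1 : ℝ) ≤ 16 ^ d := one_le_pow₀ (by norm_num)
  have hC1 : 1 ≤ C := by
    rw [hC]
    nlinarith [sq_nonneg (d : ℝ)]
  refine ⟨C, hC1, fun Φ hΦ M η hη hM => ?_⟩
  have hC0 : 0 < C := by linarith
  have hM0 : (0 : ℝ) < M := by
    by_contra h
    push Not at h
    nlinarith
  have hM1 : 1 ≤ M := by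
    rw [Nat.one_le_iff_ne_zero]
    rintro rfl
    norm_num at hM0
  have hMr : (1 : ℝ) ≤ M := by exact_mod_cast hM1
  obtain ⟨s, hs⟩ : ∃ s : ℕ, s = ⌈η * M⌉₊ := ⟨_, rfl⟩
  have hs1 : η * M ≤ s := by rw [hs]; exact Nat.le_ceil _
  have hs2 : (s : ℝ) ≤ 2 * (η * M) := by
    rw [hs]
    have := Nat.ceil_lt_add_one (by linarith : (0 : ℝ) ≤ η * M)
    linarith
  have hs3 : 1 ≤ s := by
    have : (1 : ℝ) ≤ s := by linarith
    exact_mod_cast this
  have hs0 : (0 : ℝ) < s := by linarith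
  obtain ⟨δ, hδ⟩ : ∃ δ, δ = C⁻¹ * η ^ (2 * d) * nrm Φ := ⟨_, rfl⟩
  rw [← hδ]
  obtain ⟨B, hB⟩ : ∃ B, B = (sqr M).filter fun a => |eval (pnt M a) Φ| < δ := ⟨_, rfl⟩
  rw [← hB]
  obtain ⟨I, hI⟩ : ∃ I, I = Finset.Icc (-(2 * M : ℤ)) (2 * M) := ⟨_, rfl⟩
  have hIc : I.card = 4 * M + 1 := by rw [hI]; exact card_side M
  have hImem : ∀ x ∈ I, |(x : ℝ)| ≤ 2 * M := by
    intro x hx
    rw [hI, Finset.mem_Icc, ← abs_le] at hx
    exact_mod_cast hx
  obtain ⟨E, hE⟩ : ∃ E, E = I.filter fun x => s * d + 1 ≤ (I.filter fun y => (x, y) ∈ B).card :=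
    ⟨_, rfl⟩
  -- the distance
  have hdist : ∀ y : ℝ, |y| ≤ 2 → ∀ e ∈ I, |y * M - (e : ℝ)| ≤ 4 * M := by
    intro y hy e he
    refine (abs_sub _ _).trans ?_
    rw [abs_mul, abs_of_pos hM0]
    have h1 := mul_le_mul_of_nonneg_right hy hM0.le
    have h2 := hImem e he
    linarith
  -- the set of bad rows is small
  have hEc : E.card ≤ s * d ∨ B = ∅ := by
    by_contra hcon
    push Not at hcon
    obtain ⟨hcon, hBne⟩ := hcon
    obtain ⟨b, hb⟩ := hBne
    have hδ0 : 0 < δ := by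
      rw [hB, Finset.mem_filter] at hb
      exact (abs_nonneg _).trans_lt hb.2
    -- rows
    have hrow : ∀ x ∈ E, ∀ y : ℝ, |y| ≤ 2 →
        |eval ![(x : ℝ) / M, y] Φ| ≤ ((d : ℝ) + 1) * (4 * M / s) ^ d * δ := by
      intro x hx y hy
      rw [hE, Finset.mem_filter] at hx
      have h1 := Pool.KAL.rmg_thm d s (lp ![(x : ℝ) / M, 0] ![0, 1 / (M : ℝ)] Φ)
        (I.filter fun y => (x, y) ∈ B) (y * M) (4 * M) δ (lp_deg _ _ hΦ) hs3 hx.2
        (fun e he => hdist y hy e (Finset.mem_filter.mp he).1) (fun e he => by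
          have h2 := (Finset.mem_filter.mp he).2
          rw [hB, Finset.mem_filter] at h2
          rw [lp_eval]
          have e1 : (fun j => (![(x : ℝ) / M, 0] : Fin 2 → ℝ) j + (e : ℝ) * (![0, 1 / (M : ℝ)] :
              Fin 2 → ℝ) j) = pnt M (x, e) := by
            funext j
            unfold pnt
            fin_cases j
            · simp
            · simp
              ring
          rw [e1]
          exact h2.2.le)
      rw [lp_eval] at h1
      have e1 : (fun j => (![(x : ℝ) / M, 0] : Fin 2 → ℝ) j + (y * M) * (![0, 1 / (M : ℝ)] :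
          Fin 2 → ℝ) j) = ![(x : ℝ) / M, y] := by
        funext j
        fin_cases j
        · simp
        · simp
          field_simp
      rw [e1] at h1
      exact h1
    -- the whole square
    have hall : nrm Φ ≤ ((d : ℝ) + 1) * (4 * M / s) ^ d * (((d : ℝ) + 1) * (4 * M / s) ^ d * δ) := by
      refine nrm_le fun v hv => ?_
      rw [mem_Bx] at hv
      have h1 := Pool.KAL.rmg_thm d s (lp ![0, v 1] ![1 / (M : ℝ), 0] Φ) E (v 0 * M) (4 * M)
        (((d : ℝ) + 1) * (4 * M / s) ^ d * δ) (lp_deg _ _ hΦ) hs3 (by omega)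
        (fun e he => hdist _ (hv 0) e (by
          rw [hE, Finset.mem_filter] at he
          exact he.1)) (fun e he => by
          rw [lp_eval]
          have e1 : (fun j => (![0, v 1] : Fin 2 → ℝ) j + (e : ℝ) * (![1 / (M : ℝ), 0] :
              Fin 2 → ℝ) j) = ![(e : ℝ) / M, v 1] := by
            funext j
            fin_cases j
            · simp
              ring
            · simp
          rw [e1]
          exact hrow e he _ (hv 1))
      rw [lp_eval] at h1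
      have e1 : (fun j => (![0, v 1] : Fin 2 → ℝ) j + (v 0 * M) * (![1 / (M : ℝ), 0] :
          Fin 2 → ℝ) j) = v := by
        funext j
        fin_cases j
        · simp
          field_simp
        · simp
      rw [e1] at h1
      exact h1
    have hq : (4 * M / s : ℝ) ≤ 4 / η := by
      rw [div_le_div_iff₀ hs0 hη]
      nlinarith
    have hq0 : (0 : ℝ) ≤ 4 * M / s := by positivity
    have hqd : ((4 * M / s : ℝ)) ^ d ≤ (4 / η) ^ d := pow_le_pow_left₀ hq0 hq d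
    have h3 : ((d : ℝ) + 1) * (4 * M / s) ^ d * (((d : ℝ) + 1) * (4 * M / s) ^ d * δ) ≤
        ((d : ℝ) + 1) ^ 2 * ((4 / η) ^ d) ^ 2 * δ := by
      have e1 : ((d : ℝ) + 1) * (4 * M / s) ^ d * (((d : ℝ) + 1) * (4 * M / s) ^ d * δ) =
        ((d : ℝ) + 1) ^ 2 * ((4 * M / s) ^ d) ^ 2 * δ := by ring
      rw [e1]
      refine mul_le_mul_of_nonneg_right ?_ hδ0.le
      refine mul_le_mul_of_nonneg_left ?_ (by positivity)
      exact pow_le_pow_left₀ (by positivity) hqd 2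
    have h4 : ((d : ℝ) + 1) ^ 2 * ((4 / η) ^ d) ^ 2 * δ =
        ((d : ℝ) + 1) ^ 2 * 16 ^ d / C * nrm Φ := by
      rw [hδ]
      have e2 : ((4 / η) ^ d) ^ 2 = 16 ^ d / η ^ (2 * d) := by
        rw [← pow_mul, mul_comm d 2, div_pow, pow_mul 4 2 d]
        norm_num
      rw [e2]
      field_simp
    have hn : 0 < nrm Φ := by
      rcases (nrm_nonneg Φ).eq_or_lt with h | h
      · rw [hδ, ← h, mul_zero] at hδ0
        exact absurd hδ0 (lt_irrefl _)
      · exact h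
    have h5 : nrm Φ ≤ ((d : ℝ) + 1) ^ 2 * 16 ^ d / C * nrm Φ := hall.trans (h3.trans h4.le)
    have h6 : ((d : ℝ) + 1) ^ 2 * 16 ^ d / C ≤ 1 / 2 := by
      rw [div_le_div_iff₀ hC0 (by norm_num)]
      rw [hC]
      nlinarith
    nlinarith
  rcases hEc with hEc | hBe
  · -- the sum over the rows
    have h1 : B.card ≤ ∑ x ∈ I, (I.filter fun y => (x, y) ∈ B).card := by
      have h2 : B ⊆ I.biUnion fun x => (I.filter fun y => (x, y) ∈ B).image fun y => (x, y) := by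
        intro a ha
        have ha' := ha
        rw [hB, Finset.mem_filter] at ha
        have ha2 := Finset.mem_product.mp ha.1
        rw [← hI] at ha2
        rw [Finset.mem_biUnion]
        refine ⟨a.1, ha2.1, Finset.mem_image.mpr ⟨a.2, Finset.mem_filter.mpr ⟨ha2.2, ha'⟩, rfl⟩⟩
      refine (Finset.card_le_card h2).trans (Finset.card_biUnion_le.trans ?_)
      exact Finset.sum_le_sum fun x _ => Finset.card_image_le
    have h2 : ∑ x ∈ I, (I.filter fun y => (x, y) ∈ B).card ≤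
        ∑ x ∈ I, (s * d + if x ∈ E then (4 * M + 1) else 0) := by
      refine Finset.sum_le_sum fun x hx => ?_
      by_cases hxE : x ∈ E
      · rw [if_pos hxE]
        have := Finset.card_filter_le I fun y => (x, y) ∈ B
        rw [hIc] at this
        omega
      · rw [if_neg hxE, add_zero]
        by_contra hlt
        push Not at hlt
        refine hxE ?_
        rw [hE, Finset.mem_filter]
        exact ⟨hx, hlt⟩
    have h3 : ∑ x ∈ I, (s * d + if x ∈ E then (4 * M + 1) else 0) ≤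
        2 * ((4 * M + 1) * (s * d)) := by
      rw [Finset.sum_add_distrib, Finset.sum_const, smul_eq_mul, hIc, ← Finset.sum_filter,
        Finset.sum_const, smul_eq_mul]
      have h4 : (I.filter fun x => x ∈ E).card ≤ s * d := by
        refine (Finset.card_le_card fun x hx => (Finset.mem_filter.mp hx).2).trans hEc
      have h5 := Nat.mul_le_mul_right (4 * M + 1) h4
      nlinarith
    have h4 : (B.card : ℝ) ≤ 2 * ((4 * M + 1) * (s * d)) := by
      exact_mod_cast h1.trans (h2.trans h3)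
    refine h4.trans ?_
    have h5 : (4 * (M : ℝ) + 1) * (s * d) ≤ (5 * M) * (2 * (η * M) * d) := by
      refine mul_le_mul (by linarith) (mul_le_mul_of_nonneg_right hs2 hd0) (by positivity)
        (by positivity)
    have h6 : 20 * (d : ℝ) * (η * M ^ 2) ≤ C * (η * M ^ 2) := by
      refine mul_le_mul_of_nonneg_right ?_ (by positivity)
      rw [hC]
      have : (0 : ℝ) ≤ 2 * ((d : ℝ) + 1) ^ 2 * 16 ^ d := by positivity
      linarith
    nlinarith
  · rw [hBe]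
    simp only [Finset.card_empty, Nat.cast_zero]
    positivity

end Pool.PRQ76
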