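import Pool.Agent.H46.PR.Wdg
import Pool.Agent.H76.PR.Rem

/-!
# Two hops, polynomial heights: the entropy core

`wdg_poly`: `wdg_core` of H46 for a linear form and a polynomial. The times are full given `Z` and
the Jacobian and the gradient are not small at the samples; then the second height is full given the
first one and `Z`, down from the freedom `frp`.
-/

set_option autoImplicit false

namespace Pool.PRQ76

open Finset Real MvPolynomial
open Pool.Agent.H49.Ent Pool.Agent.H32.Dense Pool.STK Pool.OWN68 Pool.PR46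

/-- Same quotient. -/
theorem same_div {h : ℕ} (hh : 1 ≤ h) {x y : ℤ} (e : x / (h : ℤ) = y / (h : ℤ)) :
    |((x : ℝ) - y)| ≤ (h : ℝ) - 1 := by
  have hz : (0 : ℤ) < h := by exact_mod_cast hh
  have h1 := Int.emod_add_mul_ediv x h
  have h2 := Int.emod_add_mul_ediv y h
  have h3 := Int.emod_nonneg x hz.ne'
  have h4 := Int.emod_lt_of_pos x hz
  have h5 := Int.emod_nonneg y hz.ne'
  have h6 := Int.emod_lt_of_pos y hz
  rw [e] at h1
  have h7 : |x - y| ≤ (h : ℤ) - 1 := by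
    rw [abs_le]
    constructor <;> linarith
  have h8 : |((x - y : ℤ) : ℝ)| ≤ (((h : ℤ) - 1 : ℤ) : ℝ) := by exact_mod_cast h7
  push_cast at h8
  exact h8

/-- The constant. -/
noncomputable def cstP (L K δ : ℝ) : ℝ :=
  (131 * L / δ) ^ 2 * (64 * K ^ 2 / δ) * (21 * K) * (27 * K)

/-- The count in a cell of the square. -/
theorem cell_count {d : ℕ} {L : ℝ} (hL : 1 ≤ L)
    (hlip : ∀ (Φ : MvPolynomial (Fin 2) ℝ), Φ.totalDegree ≤ d →
      ∀ v ∈ Bx, ∀ w ∈ Bx, ∀ r : ℝ, (∀ j, |v j - w j| ≤ r) →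
      |eval v Φ - eval w Φ| ≤ L * r * nrm Φ)
    {M : ℕ} (hM : 1 ≤ M) {K k₁ k₂ δ r : ℝ} (hK : 1 ≤ K) (hδ : 0 < δ) (hδ1 : δ ≤ 1)
    (hr0 : 0 ≤ r) (hr : L * r ≤ δ / 16) (hk₁ : |k₁| ≤ K * M) (hk₂ : |k₂| ≤ K * M)
    {Φ : MvPolynomial (Fin 2) ℝ} (hΦ : Φ.totalDegree ≤ d) (hg : ngr Φ ≤ K * M)
    (s₀ : ℤ × ℤ) (hs₀ : s₀ ∈ sqr M)
    (hJ : δ * nrm (jac k₁ k₂ Φ) ≤ |eval (pnt M s₀) (jac k₁ k₂ Φ)|)
    (hG : ∃ j, δ * ngr Φ ≤ |eval (pnt M s₀) (pderiv j Φ)|)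
    (hF : 0 < max (nrm (jac k₁ k₂ Φ)) (ngr Φ))
    (s : Finset (ℤ × ℤ)) (hs : ∀ a ∈ s, a ∈ sqr M ∧ ∀ j, |pnt M a j - pnt M s₀ j| ≤ r)
    (hu : ∀ a ∈ s, ∀ b ∈ s, |k₁ * ((a.1 : ℝ) - b.1) + k₂ * ((a.2 : ℝ) - b.2)| ≤ 2 * K * M)
    (hn : ∀ a ∈ s, ∀ b ∈ s, |eval (pnt M a) Φ - eval (pnt M b) Φ| ≤ 2 * K) :
    (s.card : ℝ) ≤ 64 * K ^ 2 * M ^ 2 / (δ * max (nrm (jac k₁ k₂ Φ)) (ngr Φ)) := by
  classical
  have hM0 : (0 : ℝ) < M := by exact_mod_cast hM
  have hp0 : pnt M s₀ ∈ Bx := by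
    obtain ⟨h1, h2⟩ := mem_sqr.mp hs₀
    exact pnt_Bx hM h1 h2
  have hpB : ∀ a ∈ s, pnt M a ∈ Bx := by
    intro a ha
    obtain ⟨h1, h2⟩ := mem_sqr.mp (hs a ha).1
    exact pnt_Bx hM h1 h2
  -- the mean value point
  have hmv : ∀ a ∈ s, ∀ b ∈ s, ∃ x ∈ Bx, (∀ j, |x j - pnt M s₀ j| ≤ r) ∧
      |eval x (pderiv 0 Φ) * ((a.1 : ℝ) - b.1) + eval x (pderiv 1 Φ) * ((a.2 : ℝ) - b.2)| ≤
        2 * K * M := by
    intro a ha b hb
    obtain ⟨θ, h0, h1, h2⟩ := mvt_seg Φ (pnt M b) (pnt M a)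
    refine ⟨_, seg_Bx (hpB b hb) (hpB a ha) h0 h1, ?_, ?_⟩
    · intro j
      have g1 := (hs a ha).2 j
      have g2 := (hs b hb).2 j
      have e : pnt M b j + θ * (pnt M a j - pnt M b j) - pnt M s₀ j =
          (1 - θ) * (pnt M b j - pnt M s₀ j) + θ * (pnt M a j - pnt M s₀ j) := by ring
      rw [e]
      refine (abs_add_le _ _).trans ?_
      rw [abs_mul, abs_mul, abs_of_nonneg h0, abs_of_nonneg (by linarith : (0 : ℝ) ≤ 1 - θ)]
      nlinarith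
    · have g1 := hn a ha b hb
      rw [h2] at g1
      have e0 : pnt M a 0 - pnt M b 0 = ((a.1 : ℝ) - b.1) / M := by
        unfold pnt
        simp only [Matrix.cons_val_zero]
        ring
      have e1 : pnt M a 1 - pnt M b 1 = ((a.2 : ℝ) - b.2) / M := by
        unfold pnt
        simp only [Matrix.cons_val_one, Matrix.cons_val_zero]
        ring
      rw [e0, e1] at g1
      obtain ⟨x, hx⟩ : ∃ x : Fin 2 → ℝ, x = fun j => pnt M b j + θ * (pnt M a j - pnt M b j) :=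
        ⟨_, rfl⟩
      rw [← hx] at g1 ⊢
      have e2 : eval x (pderiv 0 Φ) * ((a.1 : ℝ) - b.1) + eval x (pderiv 1 Φ) *
          ((a.2 : ℝ) - b.2) = (eval x (pderiv 0 Φ) * (((a.1 : ℝ) - b.1) / M) +
          eval x (pderiv 1 Φ) * (((a.2 : ℝ) - b.2) / M)) * M := by
        field_simp
      rw [e2, abs_mul, abs_of_pos hM0]
      exact mul_le_mul_of_nonneg_right g1 hM0.le
  have hng := ngr_nonneg Φ
  have hnJ := nrm_nonneg (jac k₁ k₂ Φ)
  -- variation of the gradient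
  have hvar : ∀ x ∈ Bx, (∀ j, |x j - pnt M s₀ j| ≤ r) → ∀ i : Fin 2,
      |eval x (pderiv i Φ) - eval (pnt M s₀) (pderiv i Φ)| ≤ δ / 16 * ngr Φ := by
    intro x hx hxr i
    refine (hlip _ (td_pderiv hΦ i) x hx _ hp0 r hxr).trans ?_
    have h1 : nrm (pderiv i Φ) ≤ ngr Φ := by
      unfold ngr
      fin_cases i
      · exact le_max_left _ _
      · exact le_max_right _ _
    exact mul_le_mul hr h1 (nrm_nonneg _) (by positivity)
  have hvarJ : ∀ x ∈ Bx, (∀ j, |x j - pnt M s₀ j| ≤ r) →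
      δ * nrm (jac k₁ k₂ Φ) / 2 ≤ |eval x (jac k₁ k₂ Φ)| := by
    intro x hx hxr
    have h1 := hlip _ (jac_deg k₁ k₂ hΦ) x hx _ hp0 r hxr
    have h2 := mul_le_mul_of_nonneg_right hr hnJ
    have h3 := abs_sub_abs_le_abs_sub (eval (pnt M s₀) (jac k₁ k₂ Φ)) (eval x (jac k₁ k₂ Φ))
    rw [abs_sub_comm] at h3
    have h4 : 0 ≤ δ * nrm (jac k₁ k₂ Φ) := by positivity
    linarith
  rcases le_total (ngr Φ) (nrm (jac k₁ k₂ Φ)) with hc | hc
  · rw [max_eq_left hc] at hF ⊢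
    have hX : δ * ngr Φ ≤ max (max |k₁| |k₂|) (max |eval (pnt M s₀) (pderiv 0 Φ)|
        |eval (pnt M s₀) (pderiv 1 Φ)|) := by
      obtain ⟨j, hj⟩ := hG
      refine hj.trans (le_trans ?_ (le_max_right _ _))
      fin_cases j
      · exact le_max_left _ _
      · exact le_max_right _ _
    have key := cnt_cell hM (K := K) (W := δ * nrm (jac k₁ k₂ Φ) / 2) (x₁ := k₁) (x₂ := k₂)
      (y₁ := eval (pnt M s₀) (pderiv 0 Φ)) (y₂ := eval (pnt M s₀) (pderiv 1 Φ)) hK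
      (max_le (max_le hk₁ hk₂) (max_le ((le_ngr Φ hp0 0).trans hg) ((le_ngr Φ hp0 1).trans hg)))
      (by positivity) s (fun a ha b hb => by
        obtain ⟨x, hx, hxr, h1⟩ := hmv a ha b hb
        have g0 := hvar x hx hxr 0
        have g1 := hvar x hx hxr 1
        have hδg : δ / 16 * ngr Φ ≤ max (max |k₁| |k₂|) (max |eval (pnt M s₀) (pderiv 0 Φ)|
            |eval (pnt M s₀) (pderiv 1 Φ)|) / 8 := by
          have : 0 ≤ δ * ngr Φ := by positivity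
          linarith
        refine ⟨eval x (pderiv 0 Φ), eval x (pderiv 1 Φ), g0.trans hδg, g1.trans hδg, ?_,
          hu a ha b hb, h1⟩
        rw [← jac_eval]
        exact hvarJ x hx hxr)
    refine key.trans (le_of_eq ?_)
    field_simp
    ring
  · rw [max_eq_right hc] at hF ⊢
    have hW : 0 < δ * ngr Φ / 2 := by positivity
    have hWM : δ * ngr Φ / 2 ≤ K * M := by
      have h1 : δ * ngr Φ ≤ 1 * ngr Φ := mul_le_mul_of_nonneg_right hδ1 hng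
      linarith
    have hfin : 15 * K * (M : ℝ) ^ 2 / (δ * ngr Φ / 2) ≤ 64 * K ^ 2 * M ^ 2 / (δ * ngr Φ) := by
      have e : 15 * K * (M : ℝ) ^ 2 / (δ * ngr Φ / 2) = 30 * K * M ^ 2 / (δ * ngr Φ) := by
        field_simp
        ring
      rw [e]
      refine div_le_div_of_nonneg_right ?_ (by positivity)
      refine mul_le_mul_of_nonneg_right ?_ (by positivity)
      nlinarith
    have hside : ∀ a ∈ s, ∀ b ∈ s, |((a.1 : ℝ)) - b.1| ≤ 4 * M ∧ |((a.2 : ℝ)) - b.2| ≤ 4 * M := by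
      intro a ha b hb
      obtain ⟨a1, a2⟩ := mem_sqr.mp (hs a ha).1
      obtain ⟨b1, b2⟩ := mem_sqr.mp (hs b hb).1
      have a1' : |(a.1 : ℝ)| ≤ 2 * M := by exact_mod_cast a1
      have a2' : |(a.2 : ℝ)| ≤ 2 * M := by exact_mod_cast a2
      have b1' : |(b.1 : ℝ)| ≤ 2 * M := by exact_mod_cast b1
      have b2' : |(b.2 : ℝ)| ≤ 2 * M := by exact_mod_cast b2
      exact ⟨(abs_sub _ _).trans (by linarith), (abs_sub _ _).trans (by linarith)⟩
    have hlow : ∀ i : Fin 2, δ * ngr Φ ≤ |eval (pnt M s₀) (pderiv i Φ)| → ∀ x ∈ Bx,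
        (∀ j, |x j - pnt M s₀ j| ≤ r) → δ * ngr Φ / 2 ≤ |eval x (pderiv i Φ)| := by
      intro i hi x hx hxr
      have h1 := hvar x hx hxr i
      have h3 := abs_sub_abs_le_abs_sub (eval (pnt M s₀) (pderiv i Φ)) (eval x (pderiv i Φ))
      rw [abs_sub_comm] at h3
      have h4 : 0 ≤ δ * ngr Φ := by positivity
      linarith
    refine le_trans ?_ hfin
    obtain ⟨j, hj⟩ := hG
    fin_cases j
    · refine cnt_form hM hK hW hWM s (fun a ha b hb => (hside a ha b hb).2)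
        fun a ha b hb hab => ?_
      obtain ⟨x, hx, hxr, h1⟩ := hmv a ha b hb
      refine ⟨eval x (pderiv 0 Φ), hlow 0 hj x hx hxr, ?_⟩
      rw [hab, sub_self, mul_zero, add_zero] at h1
      exact h1
    · rw [← Finset.card_image_of_injective s Prod.swap_injective]
      refine cnt_form hM hK hW hWM _ (fun a ha b hb => ?_) fun a ha b hb hab => ?_
      · obtain ⟨a', ha', rfl⟩ := Finset.mem_image.mp ha
        obtain ⟨b', hb', rfl⟩ := Finset.mem_image.mp hb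
        exact (hside a' ha' b' hb').1
      · obtain ⟨a', ha', rfl⟩ := Finset.mem_image.mp ha
        obtain ⟨b', hb', rfl⟩ := Finset.mem_image.mp hb
        obtain ⟨x, hx, hxr, h1⟩ := hmv a' ha' b' hb'
        refine ⟨eval x (pderiv 1 Φ), hlow 1 hj x hx hxr, ?_⟩
        have hab' : a'.1 = b'.1 := hab
        rw [hab', sub_self, mul_zero, zero_add] at h1
        exact h1

open Classical in
/-- **The entropy core.** -/
theorem wdg_poly (d : ℕ) : ∃ L : ℝ, 1 ≤ L ∧ ∀ {Ω ζ : Type} [Fintype Ω] {q : Ω → ℝ}, IsLaw q →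
    ∀ {M K m : ℕ}, 1 ≤ M → 1 ≤ K → ∀ (S1 S2 un nn : Ω → ℤ) (Z : Ω → ζ) (k₁ k₂ a : ζ → ℝ)
    (Φ : ζ → MvPolynomial (Fin 2) ℝ) {V δ : ℝ}, 1 ≤ V → 0 < δ → δ ≤ 1 →
    (∀ z, (Φ z).totalDegree ≤ d) →
    (∀ ω, 0 < q ω → (S1 ω, S2 ω) ∈ sqr M) →
    (∀ ω, 0 < q ω → |k₁ (Z ω)| ≤ K * M) → (∀ ω, 0 < q ω → |k₂ (Z ω)| ≤ K * M) →
    (∀ ω, 0 < q ω → ngr (Φ (Z ω)) ≤ K * M) →
    (∀ ω, 0 < q ω →
      |(un ω : ℝ) - (a (Z ω) + (k₁ (Z ω) * S1 ω + k₂ (Z ω) * S2 ω) / M)| ≤ K) →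
    (∀ ω, 0 < q ω → |(nn ω : ℝ) - eval (pnt M (S1 ω, S2 ω)) (Φ (Z ω))| ≤ K) →
    (∀ ω, 0 < q ω → δ * nrm (jac (k₁ (Z ω)) (k₂ (Z ω)) (Φ (Z ω))) ≤
      |eval (pnt M (S1 ω, S2 ω)) (jac (k₁ (Z ω)) (k₂ (Z ω)) (Φ (Z ω)))|) →
    (∀ ω, 0 < q ω → ∃ j, δ * ngr (Φ (Z ω)) ≤ |eval (pnt M (S1 ω, S2 ω)) (pderiv j (Φ (Z ω)))|) →
    (∀ ω, 0 < q ω → V ≤ frp (k₁ (Z ω)) (k₂ (Z ω)) (Φ (Z ω))) →
    (∀ ω, 0 < q ω → frp (k₁ (Z ω)) (k₂ (Z ω)) (Φ (Z ω)) ≤ m) →
    CH q (fun ω => (S1 ω, S2 ω)) Z - 2 * Real.log M + Real.log V - Real.log (cstP L K δ) ≤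
      CH q nn (fun ω => (nn ω / m, (un ω, Z ω))) := by
  obtain ⟨L, hL, hlip⟩ := nrm_lip d
  refine ⟨L, hL, ?_⟩
  intro Ω ζ _ q hq M K m hM hK S1 S2 un nn Z k₁ k₂ a Φ V δ hV hδ hδ1 hΦ hS hk₁ hk₂ hg hu hn hJ hG
    hV1 hV2
  have h0 := hq.nonneg
  have hMr : (1 : ℝ) ≤ M := by exact_mod_cast hM
  have hM0 : (0 : ℝ) < M := by linarith
  have hKr : (1 : ℝ) ≤ K := by exact_mod_cast hK
  have hL0 : 0 < L := by linarith
  obtain ⟨Mu, hMu⟩ : ∃ Mu : Ω → ℝ, ∀ ω, Mu ω = max 1 (max |k₁ (Z ω)| |k₂ (Z ω)|) :=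
    ⟨_, fun _ => rfl⟩
  obtain ⟨Fr, hFr⟩ : ∃ Fr : Ω → ℝ, ∀ ω, Fr ω =
      max (nrm (jac (k₁ (Z ω)) (k₂ (Z ω)) (Φ (Z ω)))) (ngr (Φ (Z ω))) := ⟨_, fun _ => rfl⟩
  have hMu1 : ∀ ω, 1 ≤ Mu ω := fun ω => by rw [hMu]; exact le_max_left _ _
  have hMu0 : ∀ ω, 0 < Mu ω := fun ω => by have := hMu1 ω; linarith
  have hFM : ∀ ω, frp (k₁ (Z ω)) (k₂ (Z ω)) (Φ (Z ω)) = Fr ω / Mu ω := fun ω => by
    rw [hMu, hFr]; rfl
  have hFr0 : ∀ ω, 0 < q ω → 0 < Fr ω := fun ω hω => by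
    have g := hV1 ω hω
    rw [hFM, le_div_iff₀ (hMu0 ω)] at g
    nlinarith [hMu0 ω]
  -- the cells
  obtain ⟨h, hh⟩ : ∃ h : ℕ, h = ⌊δ * M / (16 * L)⌋₊ + 1 := ⟨_, rfl⟩
  have hh1 : 1 ≤ h := by rw [hh]; omega
  have hx0 : 0 ≤ δ * M / (16 * L) := by positivity
  have hh2 : (h : ℝ) - 1 ≤ δ * M / (16 * L) := by
    rw [hh]
    push_cast
    have := Nat.floor_le hx0
    linarith
  have hh3 : δ * M / (16 * L) ≤ h := by
    rw [hh]
    push_cast
    exact (Nat.lt_floor_add_one _).le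
  have hhr : (1 : ℝ) ≤ h := by exact_mod_cast hh1
  have hh0 : (0 : ℝ) < h := by linarith
  obtain ⟨r, hr⟩ : ∃ r : ℝ, r = ((h : ℝ) - 1) / M := ⟨_, rfl⟩
  have hr0 : 0 ≤ r := by
    rw [hr]
    exact div_nonneg (by linarith) hM0.le
  have hrL : L * r ≤ δ / 16 := by
    rw [hr, mul_div_assoc', div_le_div_iff₀ hM0 (by norm_num)]
    rw [le_div_iff₀ (by positivity)] at hh2
    linarith
  have hbox : ∀ ω, 0 < q ω → |(S1 ω : ℝ)| ≤ 2 * M ∧ |(S2 ω : ℝ)| ≤ 2 * M := by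
    intro ω hω
    obtain ⟨a1, a2⟩ := mem_sqr.mp (hS ω hω)
    constructor
    · exact_mod_cast a1
    · exact_mod_cast a2
  have hdiff : ∀ ω ω', 0 < q ω → 0 < q ω' →
      |((S1 ω : ℝ) - S1 ω')| ≤ 4 * M ∧ |((S2 ω : ℝ) - S2 ω')| ≤ 4 * M := by
    intro ω ω' hω hω'
    obtain ⟨a1, a2⟩ := hbox ω hω
    obtain ⟨b1, b2⟩ := hbox ω' hω'
    exact ⟨(abs_sub _ _).trans (by linarith), (abs_sub _ _).trans (by linarith)⟩
  have hLd : 1 ≤ L / δ := by
    rw [le_div_iff₀ hδ]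
    linarith
  -- the entropy of the cell
  have hcell : ∀ (S : Ω → ℤ) {T : Type} (W : Ω → T), (∀ ω ω', 0 < q ω → 0 < q ω' →
      |((S ω : ℝ) - S ω')| ≤ 4 * M) → CH q (fun ω => S ω / (h : ℤ)) W ≤ Real.log (131 * L / δ) := by
    intro S T W hSd
    refine (CH_le_int h0 hq.sum_one _ _ (fun _ => 64 * (L / δ) + 1) ?_).trans ?_
    · intro ω ω' hω hω' _
      refine (ediv_diff hh1 _ _).trans ?_
      have g1 : |((S ω : ℝ) - S ω')| / h ≤ 4 * M / h :=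
        div_le_div_of_nonneg_right (hSd ω ω' hω hω') hh0.le
      have g2 : 4 * M / (h : ℝ) ≤ 64 * (L / δ) := by
        rw [div_le_iff₀ hh0]
        have g3 : 64 * (L / δ) * (δ * M / (16 * L)) ≤ 64 * (L / δ) * h :=
          mul_le_mul_of_nonneg_left hh3 (by positivity)
        have e : 64 * (L / δ) * (δ * M / (16 * L)) = 4 * M := by
          field_simp
          ring
        linarith
      linarith
    · rw [Ex_const hq.sum_one]
      refine Real.log_le_log (by positivity) ?_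
      have e : 131 * L / δ = 131 * (L / δ) := by ring
      rw [e]
      linarith
  -- the two times are read off in a cell
  have hB : CH q (fun ω => (S1 ω, S2 ω)) (fun ω => ((S1 ω / (h : ℤ), S2 ω / (h : ℤ)),
      ((un ω, nn ω), Z ω))) ≤ Ex q (fun ω => Real.log (64 * (K : ℝ) ^ 2 * M ^ 2 / (δ * Fr ω))) := by
    refine (CH_le_card h0 hq.sum_one _ _ (fun z => (Finset.univ.filter fun ω =>
      0 < q ω ∧ ((S1 ω / (h : ℤ), S2 ω / (h : ℤ)), ((un ω, nn ω), Z ω)) = z).image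
      fun ω => (S1 ω, S2 ω)) (fun ω hω =>
        Finset.mem_image_of_mem _ (Finset.mem_filter.mpr ⟨Finset.mem_univ _, hω, rfl⟩))).trans ?_
    refine Ex_mono h0 fun ω hω => Real.log_le_log ?_ ?_
    · have : 0 < ((Finset.univ.filter fun ω' => 0 < q ω' ∧ ((S1 ω' / (h : ℤ), S2 ω' / (h : ℤ)),
          ((un ω', nn ω'), Z ω')) = ((S1 ω / (h : ℤ), S2 ω / (h : ℤ)),
          ((un ω, nn ω), Z ω))).image fun ω => (S1 ω, S2 ω)).card :=
        Finset.card_pos.mpr ⟨_, Finset.mem_image_of_mem _ (Finset.mem_filter.mpr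
          ⟨Finset.mem_univ ω, hω, rfl⟩)⟩
      exact_mod_cast this
    · rw [hFr]
      have hmem : ∀ t ∈ (Finset.univ.filter fun ω' => 0 < q ω' ∧ ((S1 ω' / (h : ℤ),
          S2 ω' / (h : ℤ)), ((un ω', nn ω'), Z ω')) = ((S1 ω / (h : ℤ), S2 ω / (h : ℤ)),
          ((un ω, nn ω), Z ω))).image (fun ω => (S1 ω, S2 ω)), ∃ ω', 0 < q ω' ∧
          t = (S1 ω', S2 ω') ∧ S1 ω' / (h : ℤ) = S1 ω / (h : ℤ) ∧
          S2 ω' / (h : ℤ) = S2 ω / (h : ℤ) ∧ un ω' = un ω ∧ nn ω' = nn ω ∧ Z ω' = Z ω := by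
        intro t ht
        obtain ⟨ω', hω', rfl⟩ := Finset.mem_image.mp ht
        obtain ⟨-, g1, g2⟩ := Finset.mem_filter.mp hω'
        have e1 := (Prod.ext_iff.mp g2).1
        have e2 := (Prod.ext_iff.mp g2).2
        exact ⟨ω', g1, rfl, (Prod.ext_iff.mp e1).1, (Prod.ext_iff.mp e1).2,
          (Prod.ext_iff.mp (Prod.ext_iff.mp e2).1).1, (Prod.ext_iff.mp (Prod.ext_iff.mp e2).1).2,
          (Prod.ext_iff.mp e2).2⟩
      refine cell_count hL hlip hM hKr hδ hδ1 hr0 hrL (hk₁ ω hω) (hk₂ ω hω) (hΦ _) (hg ω hω)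
        (S1 ω, S2 ω) (hS ω hω) (hJ ω hω) (hG ω hω) (by rw [← hFr]; exact hFr0 ω hω) _ ?_ ?_ ?_
      · intro t ht
        obtain ⟨ω', hω', rfl, c1, c2, c3, c4, c5⟩ := hmem t ht
        refine ⟨hS ω' hω', fun j => ?_⟩
        have g1 := same_div hh1 c1
        have g2 := same_div hh1 c2
        unfold pnt
        fin_cases j
        · show |(S1 ω' : ℝ) / M - (S1 ω : ℝ) / M| ≤ r
          rw [← sub_div, abs_div, abs_of_pos hM0, hr]
          exact div_le_div_of_nonneg_right g1 hM0.le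
        · show |(S2 ω' : ℝ) / M - (S2 ω : ℝ) / M| ≤ r
          rw [← sub_div, abs_div, abs_of_pos hM0, hr]
          exact div_le_div_of_nonneg_right g2 hM0.le
      · intro t ht t' ht'
        obtain ⟨ω₁, hω₁, rfl, c1, c2, c3, c4, c5⟩ := hmem t ht
        obtain ⟨ω₂, hω₂, rfl, d1, d2, d3, d4, d5⟩ := hmem t' ht'
        have g1 := hu ω₁ hω₁
        have g2 := hu ω₂ hω₂
        rw [c5, c3] at g1
        rw [d5, d3] at g2
        have e : k₁ (Z ω) * ((S1 ω₁ : ℝ) - S1 ω₂) + k₂ (Z ω) * ((S2 ω₁ : ℝ) - S2 ω₂) =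
            (((un ω : ℝ) - (a (Z ω) + (k₁ (Z ω) * S1 ω₂ + k₂ (Z ω) * S2 ω₂) / M)) -
            ((un ω : ℝ) - (a (Z ω) + (k₁ (Z ω) * S1 ω₁ + k₂ (Z ω) * S2 ω₁) / M))) * M := by
          field_simp
          ring
        rw [e, abs_mul, abs_of_pos hM0]
        refine mul_le_mul_of_nonneg_right ?_ hM0.le
        refine (abs_sub _ _).trans ?_
        linarith
      · intro t ht t' ht'
        obtain ⟨ω₁, hω₁, rfl, c1, c2, c3, c4, c5⟩ := hmem t ht
        obtain ⟨ω₂, hω₂, rfl, d1, d2, d3, d4, d5⟩ := hmem t' ht'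
        have g1 := hn ω₁ hω₁
        have g2 := hn ω₂ hω₂
        rw [c5, c4] at g1
        rw [d5, d4] at g2
        have e : eval (pnt M (S1 ω₁, S2 ω₁)) (Φ (Z ω)) - eval (pnt M (S1 ω₂, S2 ω₂)) (Φ (Z ω)) =
            ((nn ω : ℝ) - eval (pnt M (S1 ω₂, S2 ω₂)) (Φ (Z ω))) -
            ((nn ω : ℝ) - eval (pnt M (S1 ω₁, S2 ω₁)) (Φ (Z ω))) := by ring
        rw [e]
        refine (abs_sub _ _).trans ?_
        linarith
  have hD : CH q un Z ≤ Ex q (fun ω => Real.log (21 * K * Mu ω)) := by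
    refine (CH_le_int h0 hq.sum_one un Z (fun ω => 8 * Mu ω + 2 * K) ?_).trans ?_
    · intro ω ω' hω hω' hz
      obtain ⟨d1, d2⟩ := hdiff ω ω' hω hω'
      have g1 := hu ω hω
      have g2 := hu ω' hω'
      rw [← hz] at g2
      have b1 : |k₁ (Z ω)| ≤ Mu ω := by rw [hMu]; exact (le_max_left _ _).trans (le_max_right _ _)
      have b2 : |k₂ (Z ω)| ≤ Mu ω := by rw [hMu]; exact (le_max_right _ _).trans (le_max_right _ _)
      have e : (((un ω - un ω' : ℤ)) : ℝ) =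
          ((un ω : ℝ) - (a (Z ω) + (k₁ (Z ω) * S1 ω + k₂ (Z ω) * S2 ω) / M)) -
          ((un ω' : ℝ) - (a (Z ω) + (k₁ (Z ω) * S1 ω' + k₂ (Z ω) * S2 ω') / M)) +
          (k₁ (Z ω) * ((S1 ω : ℝ) - S1 ω') + k₂ (Z ω) * ((S2 ω : ℝ) - S2 ω')) / M := by
        push_cast
        field_simp
        ring
      rw [e]
      refine (abs_add_le _ _).trans ?_
      have c1 : |(k₁ (Z ω) * ((S1 ω : ℝ) - S1 ω') + k₂ (Z ω) * ((S2 ω : ℝ) - S2 ω')) / M| ≤
          8 * Mu ω := by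
        rw [abs_div, abs_of_pos hM0, div_le_iff₀ hM0]
        refine (abs_add_le _ _).trans ?_
        rw [abs_mul, abs_mul]
        have c2 := mul_le_mul b1 d1 (abs_nonneg _) (hMu0 ω).le
        have c3 := mul_le_mul b2 d2 (abs_nonneg _) (hMu0 ω).le
        linarith
      have c4 := abs_sub ((un ω : ℝ) - (a (Z ω) + (k₁ (Z ω) * S1 ω + k₂ (Z ω) * S2 ω) / M))
        ((un ω' : ℝ) - (a (Z ω) + (k₁ (Z ω) * S1 ω' + k₂ (Z ω) * S2 ω') / M))
      linarith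
    · refine Ex_mono h0 fun ω hω => Real.log_le_log ?_ ?_
      · have := hMu0 ω
        positivity
      · have g := hMu1 ω
        have g2 : (K : ℝ) * 1 ≤ K * Mu ω := mul_le_mul_of_nonneg_left g (by linarith)
        have g3 : 1 * Mu ω ≤ K * Mu ω := mul_le_mul_of_nonneg_right hKr (hMu0 ω).le
        nlinarith
  -- the coarse part
  have hF : CH q (fun ω => nn ω / (m : ℤ)) (fun ω => (un ω, Z ω)) ≤ Real.log (27 * K) := by
    refine (CH_le_int h0 hq.sum_one _ _ (fun _ => 4 * K + 9) ?_).trans ?_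
    · intro ω ω' hω hω' hzz
      have hz : Z ω = Z ω' := (Prod.ext_iff.mp hzz).2
      have huu : un ω = un ω' := (Prod.ext_iff.mp hzz).1
      obtain ⟨d1, d2⟩ := hdiff ω ω' hω hω'
      have g1 := hu ω hω
      have g2 := hu ω' hω'
      have g3 := hn ω hω
      have g4 := hn ω' hω'
      rw [← hz] at g2 g4
      rw [← huu] at g2
      have hΦ1 := hV1 ω hω
      have hΦ2 := hV2 ω hω
      have hmr : (1 : ℝ) ≤ m := by linarith
      have hm1 : 1 ≤ m := by exact_mod_cast hmr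
      obtain ⟨θ, t0, t1, ht⟩ := mvt_seg (Φ (Z ω)) (pnt M (S1 ω', S2 ω')) (pnt M (S1 ω, S2 ω))
      have hpω : pnt M (S1 ω, S2 ω) ∈ Bx := by
        obtain ⟨a1, a2⟩ := mem_sqr.mp (hS ω hω)
        exact pnt_Bx hM a1 a2
      have hpω' : pnt M (S1 ω', S2 ω') ∈ Bx := by
        obtain ⟨a1, a2⟩ := mem_sqr.mp (hS ω' hω')
        exact pnt_Bx hM a1 a2
      have hx := seg_Bx hpω' hpω t0 t1
      obtain ⟨x, hxd⟩ : ∃ x : Fin 2 → ℝ, x = fun j => pnt M (S1 ω', S2 ω') j +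
        θ * (pnt M (S1 ω, S2 ω) j - pnt M (S1 ω', S2 ω') j) := ⟨_, rfl⟩
      rw [← hxd] at hx ht
      have e0 : pnt M (S1 ω, S2 ω) 0 - pnt M (S1 ω', S2 ω') 0 = ((S1 ω : ℝ) - S1 ω') / M := by
        unfold pnt
        simp only [Matrix.cons_val_zero]
        ring
      have e1 : pnt M (S1 ω, S2 ω) 1 - pnt M (S1 ω', S2 ω') 1 = ((S2 ω : ℝ) - S2 ω') / M := by
        unfold pnt
        simp only [Matrix.cons_val_one, Matrix.cons_val_zero]
        ring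
      rw [e0, e1] at ht
      have r1 := rng (y₁ := eval x (pderiv 0 (Φ (Z ω)))) (y₂ := eval x (pderiv 1 (Φ (Z ω))))
        (M := 2 * M) (by positivity) (by positivity : (0 : ℝ) ≤ K)
        (s₁ := (S1 ω : ℝ) - S1 ω') (s₂ := (S2 ω : ℝ) - S2 ω') (by linarith) (by linarith)
        (x₁ := k₁ (Z ω)) (x₂ := k₂ (Z ω)) (by
          have e : k₁ (Z ω) * ((S1 ω : ℝ) - S1 ω') + k₂ (Z ω) * ((S2 ω : ℝ) - S2 ω') =
            (((un ω : ℝ) - (a (Z ω) + (k₁ (Z ω) * S1 ω' + k₂ (Z ω) * S2 ω') / M)) -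
            ((un ω : ℝ) - (a (Z ω) + (k₁ (Z ω) * S1 ω + k₂ (Z ω) * S2 ω) / M))) * M := by
            field_simp
            ring
          rw [e, abs_mul, abs_of_pos hM0]
          have e2 : (K : ℝ) * (2 * M) = 2 * K * M := by ring
          rw [e2]
          refine mul_le_mul_of_nonneg_right ?_ hM0.le
          refine (abs_sub _ _).trans ?_
          linarith)
      have hfq : frq (k₁ (Z ω)) (k₂ (Z ω)) (eval x (pderiv 0 (Φ (Z ω))))
          (eval x (pderiv 1 (Φ (Z ω)))) ≤ m := by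
        refine le_trans ?_ hΦ2
        unfold frq frp
        refine div_le_div_of_nonneg_right ?_ (mx_pos _ _).le
        unfold frd
        refine max_le ?_ (max_le ?_ ?_)
        · rw [← jac_eval]
          exact (le_nrm _ hx).trans (le_max_left _ _)
        · exact (le_ngr _ hx 0).trans (le_max_right _ _)
        · exact (le_ngr _ hx 1).trans (le_max_right _ _)
      have r2 : |((nn ω : ℝ) - nn ω')| ≤ (4 * K + 8) * m := by
        have e : ((nn ω : ℝ) - nn ω') =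
          ((nn ω : ℝ) - eval (pnt M (S1 ω, S2 ω)) (Φ (Z ω))) -
          ((nn ω' : ℝ) - eval (pnt M (S1 ω', S2 ω')) (Φ (Z ω))) +
          (eval (pnt M (S1 ω, S2 ω)) (Φ (Z ω)) - eval (pnt M (S1 ω', S2 ω')) (Φ (Z ω))) := by ring
        rw [e, ht]
        refine (abs_add_le _ _).trans ?_
        have c1 : |eval x (pderiv 0 (Φ (Z ω))) * (((S1 ω : ℝ) - S1 ω') / M) +
            eval x (pderiv 1 (Φ (Z ω))) * (((S2 ω : ℝ) - S2 ω') / M)| ≤ (2 * K + 8) * m := by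
          have e3 : eval x (pderiv 0 (Φ (Z ω))) * (((S1 ω : ℝ) - S1 ω') / M) +
            eval x (pderiv 1 (Φ (Z ω))) * (((S2 ω : ℝ) - S2 ω') / M) =
            (eval x (pderiv 0 (Φ (Z ω))) * ((S1 ω : ℝ) - S1 ω') +
            eval x (pderiv 1 (Φ (Z ω))) * ((S2 ω : ℝ) - S2 ω')) / M := by
            field_simp
          rw [e3, abs_div, abs_of_pos hM0, div_le_iff₀ hM0]
          refine r1.trans ?_
          have g5 := mul_le_mul_of_nonneg_left hfq (by positivity : (0 : ℝ) ≤ (K : ℝ) + 4)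
          have g6 := mul_le_mul_of_nonneg_right g5 (by positivity : (0 : ℝ) ≤ 2 * (M : ℝ))
          linarith
        have c4 := abs_sub ((nn ω : ℝ) - eval (pnt M (S1 ω, S2 ω)) (Φ (Z ω)))
          ((nn ω' : ℝ) - eval (pnt M (S1 ω', S2 ω')) (Φ (Z ω)))
        nlinarith
      refine (ediv_diff hm1 (nn ω) (nn ω')).trans ?_
      have r3 : |((nn ω : ℝ) - nn ω')| / m ≤ 4 * K + 8 := by
        rw [div_le_iff₀ (by linarith)]
        exact r2
      linarith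
    · rw [Ex_const hq.sum_one]
      refine Real.log_le_log (by positivity) ?_
      linarith
  have hA := CH_le_add h0 (fun ω => (S1 ω, S2 ω)) (fun ω => (un ω, nn ω)) Z
  have hA2 := CH_le_add h0 (fun ω => (S1 ω, S2 ω)) (fun ω => (S1 ω / (h : ℤ), S2 ω / (h : ℤ)))
    (fun ω => ((un ω, nn ω), Z ω))
  have hA3 := CH_chain2 h0 (fun ω => S1 ω / (h : ℤ)) (fun ω => S2 ω / (h : ℤ))
    (fun ω => ((un ω, nn ω), Z ω))
  have hA4 := hcell S1 (fun ω => ((un ω, nn ω), Z ω)) fun ω ω' hω hω' => (hdiff ω ω' hω hω').1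
  have hA5 := hcell S2 (fun ω => (S1 ω / (h : ℤ), ((un ω, nn ω), Z ω)))
    fun ω ω' hω hω' => (hdiff ω ω' hω hω').2
  have hC := CH_chain2 h0 un nn Z
  have hE := CH_le_add h0 nn (fun ω => nn ω / (m : ℤ)) (fun ω => (un ω, Z ω))
  have hsum : Ex q (fun ω => Real.log (21 * K * Mu ω)) +
      Ex q (fun ω => Real.log (64 * (K : ℝ) ^ 2 * M ^ 2 / (δ * Fr ω))) +
      Real.log (27 * K) + 2 * Real.log (131 * L / δ) ≤
        2 * Real.log M - Real.log V + Real.log (cstP L K δ) := by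
    rw [← Ex_add]
    have e1 : Real.log (27 * (K : ℝ)) = Ex q (fun _ => Real.log (27 * K)) :=
      (Ex_const hq.sum_one _).symm
    have e3 : 2 * Real.log (131 * L / δ) = Ex q (fun _ => 2 * Real.log (131 * L / δ)) :=
      (Ex_const hq.sum_one _).symm
    have e2 : 2 * Real.log M - Real.log V + Real.log (cstP L K δ) =
        Ex q (fun _ => 2 * Real.log M - Real.log V + Real.log (cstP L K δ)) :=
      (Ex_const hq.sum_one _).symm
    rw [e1, e2, e3, ← Ex_add, ← Ex_add]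
    refine Ex_mono h0 fun ω hω => ?_
    have p1 := hMu0 ω
    have p2 := hFr0 ω hω
    have p3 : (0 : ℝ) < K := by linarith
    have g := hV1 ω hω
    rw [hFM] at g
    have g2 := Real.log_le_log (by linarith) g
    rw [Real.log_div p2.ne' p1.ne'] at g2
    have q1 : Real.log (21 * K * Mu ω) = Real.log (21 * K) + Real.log (Mu ω) :=
      Real.log_mul (by positivity) p1.ne'
    have q2 : Real.log (64 * (K : ℝ) ^ 2 * M ^ 2 / (δ * Fr ω)) =
        Real.log (64 * K ^ 2 / δ) + 2 * Real.log M - Real.log (Fr ω) := by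
      have e : 64 * (K : ℝ) ^ 2 * M ^ 2 / (δ * Fr ω) = (64 * K ^ 2 / δ) * M ^ 2 / Fr ω := by
        field_simp
      rw [e, Real.log_div (by positivity) p2.ne', Real.log_mul (by positivity) (by positivity),
        Real.log_pow]
      push_cast
      ring
    have q3 : Real.log (cstP L K δ) = 2 * Real.log (131 * L / δ) + Real.log (64 * K ^ 2 / δ) +
        Real.log (21 * K) + Real.log (27 * K) := by
      unfold cstP
      rw [Real.log_mul (by positivity) (by positivity), Real.log_mul (by positivity)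
        (by positivity), Real.log_mul (by positivity) (by positivity), Real.log_pow]
      push_cast
      ring
    rw [q1, q2, q3]
    linarith
  linarith

end Pool.PRQ76
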