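import Pool.Agent.H76.PR.Slo

/-!
# Two hops: a moving slope kills the velocity

`slope_const`: if `u` is alive over the records at the scales `B₁`, `B₂`, then the slope path `c` of
`n` over `u` (a polynomial, function of the context) is constant up to `2^(ε Q) / min B₁ B₂`, up to
probability `ε`.
-/

set_option autoImplicit false

namespace Pool.PRQ76

open Finset Real MvPolynomial
open Pool.Agent.H49.Ent Pool.Agent.H32.Dense Pool.STK Pool.OWN68 Pool.PR46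
open Pool.BFL (Pb)

/-- Displacement with a moving slope, for the pairs over one record. -/
structure DisS {Ω Λ Γ 𝒞 𝒟 : Type} (p : Ω → ℝ) (M K : ℕ) (L : Ω → Λ) (t : Ω → ℤ)
    (G : Ω → Γ) (C : Λ → 𝒞) (D : Λ → 𝒟) (u n : Λ → ℤ → ℤ) (du : 𝒟 → ℝ)
    (c : 𝒞 → Polynomial ℝ) : Prop where
  dis : ∀ ω ω', 0 < p ω → 0 < p ω' → G ω = G ω' →
      |du (D (L ω')) - du (D (L ω))| ≤ K * M ∧
      ∀ τ : ℤ, |τ| ≤ (M : ℤ) → |((u (L ω') τ : ℝ) - u (L ω) τ) -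
        (du (D (L ω')) - du (D (L ω))) * (((τ : ℝ) - t ω) / M)| ≤ K ∧
        |((n (L ω') τ : ℝ) - n (L ω) τ) -
        ((c (C (L ω))).eval ((t ω : ℝ) / M) - (c (C (L ω))).eval ((τ : ℝ) / M)) *
          ((du (D (L ω')) - du (D (L ω))) * (((τ : ℝ) - t ω) / M))| ≤ K

/-- The hypotheses for one law. -/
structure SloH {Ω Λ Γ₁ Γ₂ 𝒞 𝒟 𝒩₁ 𝒩₂ : Type} [Fintype Ω] (p : Ω → ℝ) (d M K Q : ℕ)
    (δ c₀ h α B₁ B₂ : ℝ) (L : Ω → Λ) (t : Ω → ℤ) (G₁ : Ω → Γ₁) (G₂ : Ω → Γ₂) (C : Λ → 𝒞) (D : Λ → 𝒟)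
    (N₁ : Λ → 𝒩₁) (N₂ : Λ → 𝒩₂) (u n : Λ → ℤ → ℤ) (du : 𝒟 → ℝ) (c : 𝒞 → Polynomial ℝ) :
    Prop where
  rcs : Recs p M (δ * Q) L t G₁ G₂ C D N₁ N₂
  cdeg : ∀ x, (c x).natDegree ≤ d
  cb : ∀ ω, 0 < p ω → ∀ x : ℝ, |x| ≤ 1 → |(c (C (L ω))).eval x| ≤ K
  d1 : DisS p M K L t G₁ C D u n du c
  d2 : DisS p M K L t G₂ C D u n du c
  al1 : ∀ E : Ω → Prop, c₀ ≤ Pb p E →
      α * Q ≤ CH (cond p E True) (fun ω => ⌊du (D (L ω)) / B₁⌋) G₁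
  al2 : ∀ E : Ω → Prop, c₀ ≤ Pb p E →
      α * Q ≤ CH (cond p E True) (fun ω => ⌊du (D (L ω)) / B₂⌋) G₂
  nf : ∀ k ≤ Q + 1, ∀ E : Ω → Prop, c₀ ≤ Pb p E →
      CH (cond p E True) (fun ω => n (L ω) (t ω)) (fun ω => ((n (L ω) (t ω) / 2 ^ k,
        u (L ω) (t ω)), (t ω, (C (L ω), D (L ω))))) ≤ (1 - h) * k * Real.log 2 + δ * Q

/-- The freedom sees the oscillation of the slope. -/
theorem frp_osc {k₁ k₂ b B x : ℝ} {c : Polynomial ℝ} (hB : 1 ≤ B) (h1 : B ≤ |k₁|) (h2 : B ≤ |k₂|)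
    (hx : |x| ≤ 1) {y : ℝ} (hy : |y| ≤ 1) :
    B * |c.eval y - c.eval x| ≤ frp k₁ k₂ (phi b k₁ k₂ (msl c x)) := by
  obtain ⟨ξ, hξ, hle⟩ := msl_mvt c x (x - y) (by
    refine (abs_sub _ _).trans ?_
    linarith)
  have e0 : x - (x - y) = y := by ring
  rw [e0] at hle
  have hJ : |k₁| * |k₂| * |c.eval y - c.eval x| ≤ nrm (jac k₁ k₂ (phi b k₁ k₂ (msl c x))) := by
    have hv : (![0, ξ] : Fin 2 → ℝ) ∈ Bx := by
      rw [mem_Bx]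
      intro j
      fin_cases j
      · show |(0 : ℝ)| ≤ 2
        norm_num
      · exact hξ
    have h3 := le_nrm (jac k₁ k₂ (phi b k₁ k₂ (msl c x))) hv
    rw [phi_jac] at h3
    have e1 : (![0, ξ] : Fin 2 → ℝ) 1 = ξ := rfl
    have e2 : (![0, ξ] : Fin 2 → ℝ) 0 = 0 := rfl
    have e3 : (msl c x).derivative.eval 0 = 0 := by
      rw [msl_der, sub_zero]
      ring
    rw [e1, e2, e3, sub_zero, abs_mul, abs_mul] at h3
    refine le_trans ?_ h3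
    exact mul_le_mul_of_nonneg_left hle (by positivity)
  unfold frp
  rw [le_div_iff₀ (mx_pos k₁ k₂)]
  refine le_trans ?_ (le_max_left _ _)
  refine le_trans ?_ hJ
  have hmx : max 1 (max |k₁| |k₂|) = max |k₁| |k₂| :=
    max_eq_right (hB.trans (h1.trans (le_max_left _ _)))
  rw [hmx]
  have ho : 0 ≤ |c.eval y - c.eval x| := abs_nonneg _
  have hkk : B * max |k₁| |k₂| ≤ |k₁| * |k₂| := by
    have hk1 : 0 ≤ |k₁| := abs_nonneg _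
    have hk2 : 0 ≤ |k₂| := abs_nonneg _
    rcases le_total |k₁| |k₂| with h | h
    · rw [max_eq_right h]
      exact mul_le_mul_of_nonneg_right h1 hk2
    · rw [max_eq_left h, mul_comm |k₁|]
      exact mul_le_mul_of_nonneg_right h2 hk1
  have h4 := mul_le_mul_of_nonneg_right hkk ho
  linarith

/-- **A moving slope kills the velocity.** -/
theorem slope_const (d K : ℕ) (hK : 1 ≤ K) {h α ε : ℝ} (hh : 0 < h) (hh1 : h ≤ 1) (hα : 0 < α)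
    (hε : 0 < ε) :
    ∃ δ > 0, ∃ c₀ > 0, ∃ Q₀ : ℕ, ∀ Q ≥ Q₀, ∀ M : ℕ, 1 ≤ M → M ≤ 2 ^ Q → ∀ B₁ B₂ : ℝ, 1 ≤ B₁ →
      1 ≤ B₂ → ∀ {Ω Λ Γ₁ Γ₂ 𝒞 𝒟 𝒩₁ 𝒩₂ : Type} [Fintype Ω] {p : Ω → ℝ},
      IsLaw p → ∀ {L : Ω → Λ} {t : Ω → ℤ} {G₁ : Ω → Γ₁} {G₂ : Ω → Γ₂} {C : Λ → 𝒞} {D : Λ → 𝒟}
      {N₁ : Λ → 𝒩₁} {N₂ : Λ → 𝒩₂} {u n : Λ → ℤ → ℤ} {du : 𝒟 → ℝ} {c : 𝒞 → Polynomial ℝ},
      SloH p d M K Q δ c₀ h α B₁ B₂ L t G₁ G₂ C D N₁ N₂ u n du c →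
      Pb p (fun ω => ∃ x : ℝ, |x| ≤ 1 ∧ (2 : ℝ) ^ (ε * Q) ≤ min B₁ B₂ *
        |(c (C (L ω))).eval x - (c (C (L ω))).eval ((t ω : ℝ) / M)|) ≤ ε := by
  classical
  have hKr : (1 : ℝ) ≤ K := by exact_mod_cast hK
  obtain ⟨A, hA1, hext⟩ := poly_ext d
  obtain ⟨K', hK'⟩ : ∃ K' : ℕ, K' = ⌈4 * A * K ^ 2⌉₊ + 2 * K := ⟨_, rfl⟩
  have hK'1 : 4 * A * K ^ 2 ≤ K' := by
    rw [hK']
    push_cast
    have := Nat.le_ceil (4 * A * (K : ℝ) ^ 2)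
    linarith
  have hK'2 : 2 * (K : ℝ) ≤ K' := by
    rw [hK']
    push_cast
    have : (0 : ℝ) ≤ (⌈4 * A * (K : ℝ) ^ 2⌉₊ : ℝ) := Nat.cast_nonneg _
    linarith
  have hK'3 : 1 ≤ K' := by
    have : (1 : ℝ) ≤ K' := by linarith
    exact_mod_cast this
  obtain ⟨ε₁, hε₁⟩ : ∃ ε₁ : ℝ, ε₁ = ε / 3 := ⟨_, rfl⟩
  have hε₁0 : 0 < ε₁ := by rw [hε₁]; positivity
  obtain ⟨δ, hδ, c₁, hc₁, Q₁, hpoly⟩ := poly_eps (d + 1) K' hK'3 hh hh1 hε₁0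
  obtain ⟨c₀, hc₀⟩ : ∃ c₀ : ℝ, c₀ = min c₁ (ε₁ / 2) := ⟨_, rfl⟩
  have hc₀0 : 0 < c₀ := by rw [hc₀]; exact lt_min hc₁ (by positivity)
  have hc₀1 : c₀ ≤ c₁ := by rw [hc₀]; exact min_le_left _ _
  have hc₀2 : c₀ ≤ ε₁ / 2 := by rw [hc₀]; exact min_le_right _ _
  refine ⟨δ, hδ, c₀, hc₀0, max Q₁ ⌈(|Real.log (6 / ε₁)| + 1) / α⌉₊, ?_⟩
  intro Q hQ M hM hMQ B₁ B₂ hB₁ hB₂ Ω Λ Γ₁ Γ₂ 𝒞 𝒟 𝒩₁ 𝒩₂ _ p hp L t G₁ G₂ C D N₁ N₂ u n du c H
  have hQ1 : Q₁ ≤ Q := (le_max_left _ _).trans hQ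
  have hQ2 : (|Real.log (6 / ε₁)| + 1) / α ≤ Q :=
    (Nat.le_ceil _).trans (by exact_mod_cast (le_max_right _ _).trans hQ)
  rw [div_le_iff₀ hα] at hQ2
  have hMr : (1 : ℝ) ≤ M := by exact_mod_cast hM
  have hM0 : (0 : ℝ) < M := by linarith
  have hL4 := P4_law hp L G₁ G₂
  have hlive : ∀ {Γ : Type} (G : Ω → Γ) (B : ℝ), 0 < B → (∀ E : Ω → Prop, c₀ ≤ Pb p E →
      α * Q ≤ CH (cond p E True) (fun ω => ⌊du (D (L ω)) / B⌋) G) →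
      Pb (glue p p G G) (fun w => |du (D (L w.2)) - du (D (L w.1))| < B) ≤ ε₁ := by
    intro Γ G B hB hal
    refine alive_Pb hp G (fun ω => du (D (L ω))) hB hε₁0 fun E hE => ?_
    refine lt_of_lt_of_le ?_ (hal E (hc₀2.trans hE))
    have := le_abs_self (Real.log (6 / ε₁))
    linarith
  have hal₁ := hlive G₁ B₁ (by linarith) H.al1
  have hal₂ := hlive G₂ B₂ (by linarith) H.al2
  -- the data
  obtain ⟨k₁, hk₁⟩ : ∃ k₁ : Zt Λ 𝒟 → ℝ, k₁ = fun z => du z.2.2.1 - du (D z.2.2.2) := ⟨_, rfl⟩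
  obtain ⟨k₂, hk₂⟩ : ∃ k₂ : Zt Λ 𝒟 → ℝ, k₂ = fun z => du z.2.1 - du z.2.2.1 := ⟨_, rfl⟩
  obtain ⟨Φ, hΦ⟩ : ∃ Φ : Zt Λ 𝒟 → MvPolynomial (Fin 2) ℝ, Φ = fun z =>
      phi (n z.2.2.2 z.1) (k₁ z) (k₂ z) (msl (c (C z.2.2.2)) ((z.1 : ℝ) / M)) := ⟨_, rfl⟩
  have hPH : PolyH p (d + 1) M K' Q δ c₁ h L t G₁ G₂ C D N₁ N₂ u n k₁ k₂
      (fun z => (u z.2.2.2 z.1 : ℝ)) Φ := by
    refine ⟨H.rcs, fun z => ?_, ?_, fun k hk E hE => H.nf k hk E (hc₀1.trans hE)⟩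
    · rw [hΦ]
      exact phi_deg _ _ _ (msl_deg (H.cdeg _) _)
    · intro ω₀ ω₁ ω₁' ω₂ p0 p1 p1' p2 e1 e2 e3 τ hτ z hz
      have hk1z : k₁ z = du (D (L ω₁)) - du (D (L ω₀)) := by rw [hk₁, hz]
      have hk2z : k₂ z = du (D (L ω₂)) - du (D (L ω₁)) := by rw [hk₂, hz]
      have hΦz : Φ z = phi (n (L ω₀) τ) (k₁ z) (k₂ z) (msl (c (C (L ω₀))) ((τ : ℝ) / M)) := by
        rw [hΦ, hz]
      obtain ⟨b1, b3⟩ := H.d1.dis ω₀ ω₁ p0 p1 e1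
      obtain ⟨c1, c3⟩ := H.d2.dis ω₁' ω₂ p1' p2 e3
      obtain ⟨b4, b5⟩ := b3 τ hτ
      obtain ⟨c4, c5⟩ := c3 τ hτ
      rw [← e2] at c1 c4 c5
      have hC01 : C (L ω₀) = C (L ω₁) := (H.rcs.g1 _ _ p0 p1 e1).1
      rw [← hC01] at c5
      rw [← hk1z] at b1 b4 b5
      rw [← hk2z] at c1 c4 c5
      have hKM : (K : ℝ) * M ≤ K' * M := mul_le_mul_of_nonneg_right (by linarith) hM0.le
      refine ⟨b1.trans hKM, c1.trans hKM, ?_, ?_, ?_⟩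
      · -- the gradient
        have hτ' : |(τ : ℝ) / M| ≤ 1 := by
          rw [abs_div, abs_of_pos hM0, div_le_one hM0]
          exact_mod_cast hτ
        have hg : ∀ s : ℝ, |s| ≤ 2 →
            |(msl (c (C (L ω₀))) ((τ : ℝ) / M)).derivative.eval s| ≤ 4 * A * K := by
          intro s hs
          rw [msl_der]
          obtain ⟨f1, f2⟩ := hext (c (C (L ω₀))) K (H.cdeg _) (H.cb ω₀ p0) ((τ : ℝ) / M - s) (by
            refine (abs_sub _ _).trans ?_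
            linarith)
          obtain ⟨f3, -⟩ := hext (c (C (L ω₀))) K (H.cdeg _) (H.cb ω₀ p0) ((τ : ℝ) / M)
            (by linarith)
          have f4 := abs_sub ((c (C (L ω₀))).eval ((τ : ℝ) / M - s) -
            (c (C (L ω₀))).eval ((τ : ℝ) / M)) (s * (c (C (L ω₀))).derivative.eval ((τ : ℝ) / M - s))
          have f5 := abs_sub ((c (C (L ω₀))).eval ((τ : ℝ) / M - s))
            ((c (C (L ω₀))).eval ((τ : ℝ) / M))
          have f6 : |s * (c (C (L ω₀))).derivative.eval ((τ : ℝ) / M - s)| ≤ 2 * (A * K) := by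
            rw [abs_mul]
            exact mul_le_mul hs f2 (abs_nonneg _) (by norm_num)
          linarith
        rw [hΦz]
        have h4 : (K : ℝ) * M * (4 * A * K) ≤ K' * M := by
          have e : (K : ℝ) * M * (4 * A * K) = 4 * A * K ^ 2 * M := by ring
          rw [e]
          exact mul_le_mul_of_nonneg_right hK'1 hM0.le
        unfold ngr
        refine max_le (nrm_le fun v hv => ?_) (nrm_le fun v hv => ?_)
        · rw [phi_p0, abs_mul]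
          exact (mul_le_mul b1 (hg _ (mem_Bx.mp hv 0)) (abs_nonneg _) (by positivity)).trans h4
        · rw [phi_p1, abs_mul]
          exact (mul_le_mul c1 (hg _ (mem_Bx.mp hv 1)) (abs_nonneg _) (by positivity)).trans h4
      · -- the height `u`
        have ea : (z.2.2.2, z.1) = (L ω₀, τ) := by rw [hz]
        have ea1 : z.2.2.2 = L ω₀ := (Prod.ext_iff.mp ea).1
        have ea2 : z.1 = τ := (Prod.ext_iff.mp ea).2
        show |(u (L ω₂) τ : ℝ) - ((u z.2.2.2 z.1 : ℝ) + (k₁ z * ((τ - t ω₀ : ℤ) : ℝ) +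
          k₂ z * ((τ - t ω₁' : ℤ) : ℝ)) / M)| ≤ K'
        rw [ea1, ea2]
        push_cast
        have e : (u (L ω₂) τ : ℝ) - ((u (L ω₀) τ : ℝ) + (k₁ z * ((τ : ℝ) - t ω₀) +
            k₂ z * ((τ : ℝ) - t ω₁')) / M) =
            (((u (L ω₁) τ : ℝ) - u (L ω₀) τ) - k₁ z * (((τ : ℝ) - t ω₀) / M)) +
            (((u (L ω₂) τ : ℝ) - u (L ω₁) τ) - k₂ z * (((τ : ℝ) - t ω₁') / M)) := by
          field_simp
          ring
        rw [e]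
        refine (abs_add_le _ _).trans ?_
        linarith
      · -- the height `n`
        rw [hΦz, phi_eval, msl_eval, msl_eval]
        have p0' : pnt M (τ - t ω₀, τ - t ω₁') 0 = ((τ : ℝ) - t ω₀) / M := by
          unfold pnt
          simp
        have p1' : pnt M (τ - t ω₀, τ - t ω₁') 1 = ((τ : ℝ) - t ω₁') / M := by
          unfold pnt
          simp
        rw [p0', p1']
        have q0 : (τ : ℝ) / M - ((τ : ℝ) - t ω₀) / M = (t ω₀ : ℝ) / M := by ring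
        have q1 : (τ : ℝ) / M - ((τ : ℝ) - t ω₁') / M = (t ω₁' : ℝ) / M := by ring
        rw [q0, q1]
        have e : (n (L ω₂) τ : ℝ) - ((n (L ω₀) τ : ℝ) + k₁ z * (((τ : ℝ) - t ω₀) / M *
            ((c (C (L ω₀))).eval ((t ω₀ : ℝ) / M) - (c (C (L ω₀))).eval ((τ : ℝ) / M))) +
            k₂ z * (((τ : ℝ) - t ω₁') / M *
            ((c (C (L ω₀))).eval ((t ω₁' : ℝ) / M) - (c (C (L ω₀))).eval ((τ : ℝ) / M)))) =
            (((n (L ω₁) τ : ℝ) - n (L ω₀) τ) - ((c (C (L ω₀))).eval ((t ω₀ : ℝ) / M) -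
              (c (C (L ω₀))).eval ((τ : ℝ) / M)) * (k₁ z * (((τ : ℝ) - t ω₀) / M))) +
            (((n (L ω₂) τ : ℝ) - n (L ω₁) τ) - ((c (C (L ω₀))).eval ((t ω₁' : ℝ) / M) -
              (c (C (L ω₀))).eval ((τ : ℝ) / M)) * (k₂ z * (((τ : ℝ) - t ω₁') / M))) := by
          ring
        rw [e]
        refine (abs_add_le _ _).trans ?_
        linarith
  have key := hpoly Q hQ1 M hM hMQ hp hPH
  -- the three events
  have hpair := Pb_marg (P4_pair hp L G₁ G₂) (fun w => |du (D (L w.2)) - du (D (L w.1))| < B₂)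
  have hpair1 := Pb_marg (P4_pair1 hp L G₁ G₂) (fun w => |du (D (L w.2)) - du (D (L w.1))| < B₁)
  have hfr := Pb_marg (P4_s hp L G₁ G₂) (fun ω => ∃ x : ℝ, |x| ≤ 1 ∧ (2 : ℝ) ^ (ε * Q) ≤
    min B₁ B₂ * |(c (C (L ω))).eval x - (c (C (L ω))).eval ((t ω : ℝ) / M)|)
  rw [← hfr]
  have h1 : Pb (P4 p L G₁ G₂) (fun w => ∃ x : ℝ, |x| ≤ 1 ∧ (2 : ℝ) ^ (ε * Q) ≤
      min B₁ B₂ * |(c (C (L w.2))).eval x - (c (C (L w.2))).eval ((t w.2 : ℝ) / M)|) ≤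
      Pb (P4 p L G₁ G₂) (fun w => (2 : ℝ) ^ (ε₁ * Q) ≤
        frp (k₁ (zt L t D w)) (k₂ (zt L t D w)) (Φ (zt L t D w)) ∨
        |du (D (L w.1.2)) - du (D (L w.1.1.2))| < B₂) +
      Pb (P4 p L G₁ G₂) (fun w => |du (D (L w.1.1.1.2)) - du (D (L w.1.1.1.1))| < B₁) := by
    refine Pb_imp2 hL4.nonneg fun w hz hbad => ?_
    obtain ⟨q1, q2, q3⟩ := P4_pos hp L G₁ G₂ hz
    obtain ⟨a1, a2, a3, a4, a5, a6, a7⟩ := P3_sup hp L G₁ G₂ q1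
    by_cases hB1 : |du (D (L w.1.1.1.2)) - du (D (L w.1.1.1.1))| < B₁
    · exact Or.inr hB1
    · left
      by_cases hB2 : |du (D (L w.1.2)) - du (D (L w.1.1.2))| < B₂
      · exact Or.inr hB2
      · left
        push Not at hB1 hB2
        obtain ⟨x, hx, hbx⟩ := hbad
        have hCC : C (L w.2) = C (L w.1.1.1.1) := by
          rw [(H.rcs.g1 _ _ a1 a2 a5).1, a6, (H.rcs.g2 _ _ a3 a4 a7).1, q3]
        rw [hCC] at hbx
        have hτ' : |(t w.2 : ℝ) / M| ≤ 1 := by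
          rw [abs_div, abs_of_pos hM0, div_le_one hM0]
          exact_mod_cast H.rcs.tb _ q2
        have hk1z : k₁ (zt L t D w) = du (D (L w.1.1.1.2)) - du (D (L w.1.1.1.1)) := by
          rw [hk₁]
          rfl
        have hk2z : k₂ (zt L t D w) = du (D (L w.1.2)) - du (D (L w.1.1.1.2)) := by
          rw [hk₂]
          rfl
        have hΦz : Φ (zt L t D w) = phi (n (L w.1.1.1.1) (t w.2)) (k₁ (zt L t D w))
            (k₂ (zt L t D w)) (msl (c (C (L w.1.1.1.1))) ((t w.2 : ℝ) / M)) := by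
          rw [hΦ]
          rfl
        rw [← a6] at hB2
        rw [← hk1z] at hB1
        rw [← hk2z] at hB2
        have h3 := frp_osc (b := (n (L w.1.1.1.1) (t w.2) : ℝ)) (c := c (C (L w.1.1.1.1)))
          (le_min hB₁ hB₂) ((min_le_left _ _).trans hB1) ((min_le_right _ _).trans hB2) hτ' hx
        rw [hΦz]
        refine le_trans ?_ (hbx.trans h3)
        refine Real.rpow_le_rpow_of_exponent_le (by norm_num) ?_
        refine mul_le_mul_of_nonneg_right ?_ (Nat.cast_nonneg _)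
        rw [hε₁]
        linarith
  have h2 : Pb (P4 p L G₁ G₂) (fun w => (2 : ℝ) ^ (ε₁ * Q) ≤
        frp (k₁ (zt L t D w)) (k₂ (zt L t D w)) (Φ (zt L t D w)) ∨
        |du (D (L w.1.2)) - du (D (L w.1.1.2))| < B₂) ≤
      Pb (P4 p L G₁ G₂) (fun w => (2 : ℝ) ^ (ε₁ * Q) ≤
        frp (k₁ (zt L t D w)) (k₂ (zt L t D w)) (Φ (zt L t D w))) +
      Pb (P4 p L G₁ G₂) (fun w => |du (D (L w.1.2)) - du (D (L w.1.1.2))| < B₂) :=
    Pb_imp2 hL4.nonneg fun w _ hbad => hbad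
  have h3 : Pb (P4 p L G₁ G₂) (fun w => |du (D (L w.1.2)) - du (D (L w.1.1.2))| < B₂) ≤ ε₁ :=
    hpair.le.trans hal₂
  have h4 : Pb (P4 p L G₁ G₂) (fun w => |du (D (L w.1.1.1.2)) - du (D (L w.1.1.1.1))| < B₁) ≤
      ε₁ := hpair1.le.trans hal₁
  have h5 : ε₁ + ε₁ + ε₁ = ε := by rw [hε₁]; ring
  linarith

end Pool.PRQ76
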