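import Pool.Agent.H46.PR.Two
import Pool.Agent.H76.PR.Cor

/-!
# Two hops, polynomial heights

`two_cellP`: `two_cell` of H46 (`L0 – T1 → L1 – T2 → L2` and a fresh time of `L2`) for a height `u`
which is moved by a linear form of the two times and a height `n` which is moved by any polynomial
of bounded degree, with coefficients which are functions of
`z = (τ, (D (L2), (D (L1), L0)))`. Output: the freedom `frp` of the polynomial given the linear form is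
small. `frp_lt`: then the Jacobian and the gradient of the polynomial are small on the whole box.
-/

set_option autoImplicit false

namespace Pool.PRQ76

open Finset Real MvPolynomial
open Pool.Agent.H49.Ent Pool.Agent.H32.Dense Pool.STK Pool.OWN68 Pool.PR46

open Classical in
/-- **Sets with few times have small mass.** -/
theorem excl {Ω T : Type} [Fintype Ω] {q : Ω → ℝ} (hq : IsLaw q) {M : ℕ} (T1 T2 : Ω → ℤ)
    (Z : Ω → T) {e β : ℝ} (hβ0 : 0 < β) (he : 0 ≤ e)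
    (ht1 : ∀ ω, 0 < q ω → |T1 ω| ≤ (M : ℤ)) (ht2 : ∀ ω, 0 < q ω → |T2 ω| ≤ (M : ℤ))
    (hF : 2 * Real.log (2 * M + 1) - e ≤ CH q (fun ω => (T1 ω, T2 ω)) Z)
    (Bad : Ω → Prop) (F : T → Finset (ℤ × ℤ))
    (hBad : ∀ ω, 0 < q ω → Bad ω → (T1 ω, T2 ω) ∈ F (Z ω))
    (hcard : ∀ ω, 0 < q ω → ((F (Z ω)).card : ℝ) ≤ β * (2 * M + 1) ^ 2)
    (hβ : 2 * (e + Real.log 2) ≤ -Real.log β) :
    law q Bad True ≤ 1 / 2 := by
  have h0 := hq.nonneg
  have hl2 : 0 < Real.log 2 := Real.log_pos (by norm_num)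
  have hM1 : (1 : ℝ) ≤ 2 * M + 1 := by
    have : (0 : ℝ) ≤ M := Nat.cast_nonneg M
    linarith
  have h1 := CH_le_add h0 (fun ω => (T1 ω, T2 ω)) Bad Z
  have h2 : CH q Bad Z ≤ Real.log 2 := by
    have h3 := CH_le_card h0 hq.sum_one Bad Z (fun _ => {True, False}) (fun ω _ => by
      by_cases hh : Bad ω
      · simp [hh]
      · simp [hh])
    refine h3.trans (le_of_eq ?_)
    rw [← Ex_const hq.sum_one (Real.log 2)]
    have e1 : (({True, False} : Finset Prop).card : ℝ) = 2 := by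
      rw [Finset.card_pair (by simp)]
      norm_num
    unfold Ex
    refine Finset.sum_congr rfl fun ω _ => ?_
    show q ω * Real.log _ = q ω * Real.log _
    rw [e1]
  have h3 : CH q (fun ω => (T1 ω, T2 ω)) (fun ω => (Bad ω, Z ω)) ≤
      Ex q (fun ω => 2 * Real.log (2 * M + 1) + if Bad ω then Real.log β else 0) := by
    obtain ⟨I, hI⟩ : ∃ I, I = Finset.Icc (-(M : ℤ)) M := ⟨_, rfl⟩
    have hIc : (I.card : ℝ) = 2 * M + 1 := by
      have : I.card = 2 * M + 1 := by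
        rw [hI, Int.card_Icc]
        omega
      rw [this]
      push_cast
      ring
    refine (CH_le_card h0 hq.sum_one (fun ω => (T1 ω, T2 ω)) (fun ω => (Bad ω, Z ω))
      (fun z => if z.1 then F z.2 else I ×ˢ I) (fun ω hω => ?_)).trans
      (Ex_mono h0 fun ω hω => ?_)
    · by_cases hb : Bad ω
      · dsimp only
        rw [if_pos hb]
        exact hBad ω hω hb
      · dsimp only
        rw [if_neg hb, Finset.mem_product, hI, Finset.mem_Icc, Finset.mem_Icc, ← abs_le, ← abs_le]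
        exact ⟨ht1 ω hω, ht2 ω hω⟩
    · by_cases hb : Bad ω
      · dsimp only
        rw [if_pos hb, if_pos hb]
        have h4 : 0 < (F (Z ω)).card := Finset.card_pos.mpr ⟨_, hBad ω hω hb⟩
        have h5 : (0 : ℝ) < (F (Z ω)).card := by exact_mod_cast h4
        refine (Real.log_le_log h5 (hcard ω hω)).trans (le_of_eq ?_)
        rw [Real.log_mul hβ0.ne' (by positivity), Real.log_pow]
        push_cast
        ring
      · dsimp only
        rw [if_neg hb, if_neg hb, add_zero, Finset.card_product]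
        push_cast
        rw [hIc, Real.log_mul (by positivity) (by positivity)]
        linarith
  have h4 : Ex q (fun ω => 2 * Real.log (2 * M + 1) + if Bad ω then Real.log β else 0) =
      2 * Real.log (2 * M + 1) + law q Bad True * Real.log β := by
    rw [Ex_add, Ex_const hq.sum_one]
    congr 1
    unfold Ex law
    rw [Finset.sum_mul]
    refine Finset.sum_congr rfl fun ω _ => ?_
    by_cases hb : Bad ω
    · simp [hb]
    · simp [hb]
  rw [h4] at h3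
  by_contra hcon
  push Not at hcon
  nlinarith

/-- **The fresh time: a nonfull coordinate.** -/
theorem fresh_NF {Ω Λ Γ₁ Γ₂ 𝒞 𝒟 : Type} [Fintype Ω] {p : Ω → ℝ} (hp : IsLaw p)
    (L : Ω → Λ) (t : Ω → ℤ) (G₁ : Ω → Γ₁) (G₂ : Ω → Γ₂) (C : Λ → 𝒞) (D : Λ → 𝒟)
    (u n : Λ → ℤ → ℤ) (m : ℕ) {R U : ℝ}
    (hG₁ : ∀ ω ω', 0 < p ω → 0 < p ω' → G₁ ω = G₁ ω' → C (L ω) = C (L ω'))
    (hG₂ : ∀ ω ω', 0 < p ω → 0 < p ω' → G₂ ω = G₂ ω' → C (L ω) = C (L ω'))
    {q : (((Ω × Ω) × Ω) × Ω) × Ω → ℝ} (hq : IsLaw q) (hqR : ∀ w, q w ≤ R * P4 p L G₁ G₂ w)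
    (hNF : ∀ q : Ω → ℝ, IsLaw q → (∀ ω, q ω ≤ R * p ω) →
      CH q (fun ω => n (L ω) (t ω)) (fun ω => ((n (L ω) (t ω) / m, u (L ω) (t ω)),
        (t ω, (C (L ω), D (L ω))))) ≤ U) :
    CH q (fun w => n (L w.1.2) (t w.2)) (fun w => (n (L w.1.2) (t w.2) / (m : ℤ),
      (u (L w.1.2) (t w.2), zt L t D w))) ≤ U := by
  classical
  have hL4 := P4_law hp L G₁ G₂
  have hpos : ∀ w, 0 < q w → 0 < P4 p L G₁ G₂ w := by
    intro w hw
    rcases (hL4.nonneg w).eq_or_lt with h | h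
    · have := hqR w
      rw [← h, mul_zero] at this
      linarith
    · exact h
  have e1 : ∀ w, 0 < q w → L w.1.2 = L w.2 := fun w hw =>
    (P4_pos hp L G₁ G₂ (hpos w hw)).2.2
  have e2 : ∀ w, 0 < q w → C (L w.1.1.1.1) = C (L w.2) := fun w hw => by
    obtain ⟨a1, a2, a3, a4, a5, a6, a7⟩ := P3_sup hp L G₁ G₂ (P4_pos hp L G₁ G₂ (hpos w hw)).1
    rw [hG₁ _ _ a1 a2 a5, a6, hG₂ _ _ a3 a4 a7, e1 w hw]
  have h1 : CH q (fun w => n (L w.1.2) (t w.2)) (fun w => (n (L w.1.2) (t w.2) / (m : ℤ),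
      (u (L w.1.2) (t w.2), zt L t D w))) ≤ CH q (fun w => n (L w.2) (t w.2))
      (fun w => ((n (L w.2) (t w.2) / (m : ℤ), u (L w.2) (t w.2)),
        (t w.2, (C (L w.2), D (L w.2))))) := by
    have h2 : CH q (fun w => n (L w.1.2) (t w.2)) (fun w => (n (L w.1.2) (t w.2) / (m : ℤ),
        (u (L w.1.2) (t w.2), zt L t D w))) = CH q (fun w => n (L w.2) (t w.2))
        (fun w => (n (L w.1.2) (t w.2) / (m : ℤ), (u (L w.1.2) (t w.2), zt L t D w))) := by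
      refine CH_congr hq.nonneg ?_ ?_ (fun _ _ _ _ h => h) (fun _ _ _ _ h => h)
      · intro w w' hw hw' hz
        have h3 := (Prod.ext_iff.mp hz).1
        try dsimp only at h3 ⊢
        rw [← e1 w hw, ← e1 w' hw', h3]
      · intro w w' hw hw' hz
        have h3 := (Prod.ext_iff.mp hz).1
        try dsimp only at h3 ⊢
        rw [e1 w hw, e1 w' hw', h3]
    rw [h2]
    refine CH_mono_cond hq.nonneg fun w w' hw hw' hz => ?_
    try dsimp only at hz ⊢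
    have z1 : n (L w.1.2) (t w.2) / (m : ℤ) = n (L w'.1.2) (t w'.2) / (m : ℤ) :=
      (Prod.ext_iff.mp hz).1
    have z2 : u (L w.1.2) (t w.2) = u (L w'.1.2) (t w'.2) :=
      (Prod.ext_iff.mp (Prod.ext_iff.mp hz).2).1
    have z3 : zt L t D w = zt L t D w' := (Prod.ext_iff.mp (Prod.ext_iff.mp hz).2).2
    unfold zt at z3
    have z4 : t w.2 = t w'.2 := (Prod.ext_iff.mp z3).1
    have z5 : D (L w.1.2) = D (L w'.1.2) := (Prod.ext_iff.mp (Prod.ext_iff.mp z3).2).1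
    have z6 : L w.1.1.1.1 = L w'.1.1.1.1 :=
      (Prod.ext_iff.mp (Prod.ext_iff.mp (Prod.ext_iff.mp z3).2).2).2
    rw [← e2 w hw, ← e2 w' hw', ← e1 w hw, ← e1 w' hw', z1, z2, z4, z5, z6]
  refine h1.trans ?_
  have h3 : CH q (fun w => n (L w.2) (t w.2)) (fun w => ((n (L w.2) (t w.2) / (m : ℤ),
      u (L w.2) (t w.2)), (t w.2, (C (L w.2), D (L w.2))))) =
      CH (fun ω => law q (fun w => w.2) ω) (fun ω => n (L ω) (t ω))
        (fun ω => ((n (L ω) (t ω) / (m : ℤ), u (L ω) (t ω)), (t ω, (C (L ω), D (L ω))))) := by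
    unfold CH
    rw [← H_eq_of_marginal (q := q) (p := fun ω => law q (fun w => w.2) ω) (fun w => w.2)
      (fun ω => rfl) (fun ω => (n (L ω) (t ω), ((n (L ω) (t ω) / (m : ℤ), u (L ω) (t ω)),
        (t ω, (C (L ω), D (L ω)))))),
      ← H_eq_of_marginal (q := q) (p := fun ω => law q (fun w => w.2) ω) (fun w => w.2)
      (fun ω => rfl) (fun ω => ((n (L ω) (t ω) / (m : ℤ), u (L ω) (t ω)),
        (t ω, (C (L ω), D (L ω)))))]
  rw [h3]
  refine hNF _ ⟨fun ω => law_nonneg hq.nonneg _ _, ?_⟩ fun ω => ?_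
  · have h4 : ∑ ω, law q (fun w => w.2) ω = ∑ w, q w := by
      unfold law
      rw [Finset.sum_comm]
      refine Finset.sum_congr rfl fun w _ => ?_
      rw [Finset.sum_ite_eq]
      simp
    rw [h4, hq.sum_one]
  · have h4 : law q (fun w => w.2) ω ≤ R * law (P4 p L G₁ G₂) (fun w => w.2) ω := by
      unfold law
      rw [Finset.mul_sum]
      refine Finset.sum_le_sum fun w _ => ?_
      by_cases hu : w.2 = ω
      · rw [if_pos hu, if_pos hu]
        exact hqR w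
      · rw [if_neg hu, if_neg hu, mul_zero]
    have h5 : law (P4 p L G₁ G₂) (fun w => w.2) ω = p ω := (P4_s hp L G₁ G₂) ω
    rwa [h5] at h4

open Classical in
/-- **Two hops, one cell, polynomial heights.** -/
theorem two_cellP (d K : ℕ) (hK : 1 ≤ K) : ∃ C₀ : ℝ, 1 ≤ C₀ ∧
    ∀ {Ω Λ Γ₁ Γ₂ 𝒞 𝒟 𝒩₁ 𝒩₂ : Type} [Fintype Ω] {p : Ω → ℝ}, IsLaw p →
    ∀ {M m : ℕ}, 1 ≤ M → ∀ (L : Ω → Λ) (t : Ω → ℤ) (G₁ : Ω → Γ₁) (G₂ : Ω → Γ₂) (C : Λ → 𝒞)
    (D : Λ → 𝒟) (N₁ : Λ → 𝒩₁) (N₂ : Λ → 𝒩₂) (u n : Λ → ℤ → ℤ) (k₁ k₂ a : Zt Λ 𝒟 → ℝ)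
    (Φ : Zt Λ 𝒟 → MvPolynomial (Fin 2) ℝ) {V R e U : ℝ}, 1 ≤ V → 0 < R → 0 ≤ e →
    (∀ z, (Φ z).totalDegree ≤ d) →
    (∀ ω, 0 < p ω → |t ω| ≤ (M : ℤ)) →
    (∀ ω ω', 0 < p ω → 0 < p ω' → G₁ ω = G₁ ω' → C (L ω) = C (L ω') ∧ N₁ (L ω) = N₁ (L ω')) →
    (∀ ω ω', 0 < p ω → 0 < p ω' → G₂ ω = G₂ ω' → C (L ω) = C (L ω') ∧ N₂ (L ω) = N₂ (L ω')) →
    (∀ ω ω', 0 < p ω → 0 < p ω' → D (L ω) = D (L ω') → N₂ (L ω) = N₂ (L ω')) →
    (Real.log (2 * M + 1) - e ≤ CH p t L) →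
    (CH p (fun ω => D (L ω)) (fun ω => (N₁ (L ω), C (L ω))) - e ≤
      CH p (fun ω => D (L ω)) G₁) →
    (CH p (fun ω => D (L ω)) (fun ω => (N₂ (L ω), C (L ω))) - e ≤
      CH p (fun ω => D (L ω)) G₂) →
    (∀ ω₀ ω₁ ω₁' ω₂, 0 < p ω₀ → 0 < p ω₁ → 0 < p ω₁' → 0 < p ω₂ → G₁ ω₀ = G₁ ω₁ →
      L ω₁ = L ω₁' → G₂ ω₁' = G₂ ω₂ → ∀ τ : ℤ, |τ| ≤ (M : ℤ) → ∀ z : Zt Λ 𝒟,
      z = (τ, (D (L ω₂), (D (L ω₁), L ω₀))) →
      |k₁ z| ≤ K * M ∧ |k₂ z| ≤ K * M ∧ ngr (Φ z) ≤ K * M ∧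
      |(u (L ω₂) τ : ℝ) - (a z + (k₁ z * ((τ - t ω₀ : ℤ) : ℝ) +
        k₂ z * ((τ - t ω₁' : ℤ) : ℝ)) / M)| ≤ K ∧
      |(n (L ω₂) τ : ℝ) - eval (pnt M (τ - t ω₀, τ - t ω₁')) (Φ z)| ≤ K) →
    (∀ q : Ω → ℝ, IsLaw q → (∀ ω, q ω ≤ 2 * R * p ω) →
      CH q (fun ω => n (L ω) (t ω)) (fun ω => ((n (L ω) (t ω) / m, u (L ω) (t ω)),
        (t ω, (C (L ω), D (L ω))))) ≤ U) →
    (U + C₀ * (R * e + 1) < Real.log V) →
    ∑ w, (if V ≤ frp (k₁ (zt L t D w)) (k₂ (zt L t D w)) (Φ (zt L t D w)) ∧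
      frp (k₁ (zt L t D w)) (k₂ (zt L t D w)) (Φ (zt L t D w)) ≤ m
      then P4 p L G₁ G₂ w else 0) < 1 / R := by
  obtain ⟨Lc, hLc, hwdg⟩ := wdg_poly d
  obtain ⟨Cb, hCb, hbad⟩ := bad_card d
  have hKr : (1 : ℝ) ≤ K := by exact_mod_cast hK
  have hd0 : (0 : ℝ) ≤ d := Nat.cast_nonneg d
  have hCb0 : 0 < Cb := by linarith
  have hLc0 : 0 < Lc := by linarith
  have hl2 : 0 < Real.log 2 := Real.log_pos (by norm_num)
  have hl131 : 0 ≤ Real.log (131 * Lc) := Real.log_nonneg (by linarith)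
  have hl64 : 0 ≤ Real.log (64 * (K : ℝ) ^ 2) := Real.log_nonneg (by nlinarith)
  have hl21 : 0 ≤ Real.log (21 * (K : ℝ)) := Real.log_nonneg (by linarith)
  have hl27 : 0 ≤ Real.log (27 * (K : ℝ)) := Real.log_nonneg (by linarith)
  have hlCb : 0 ≤ Real.log Cb := Real.log_nonneg hCb
  have hl2Cb : 0 ≤ Real.log (2 * Cb) := Real.log_nonneg (by linarith)
  have hl2K : 0 ≤ Real.log (2 * (K : ℝ)) := Real.log_nonneg (by linarith)
  obtain ⟨A₀, hA₀⟩ : ∃ A₀ : ℝ, A₀ = 2 * Real.log (131 * Lc) + Real.log (64 * (K : ℝ) ^ 2) +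
    Real.log (21 * K) + Real.log (27 * K) + 3 * Real.log Cb +
    6 * d * (2 * Real.log 2 + Real.log (2 * Cb)) + Real.log (2 * K) + 4 * Real.log 2 +
    Real.log (2 * Cb) := ⟨_, rfl⟩
  have hA0 : 0 ≤ A₀ := by
    rw [hA₀]
    positivity
  refine ⟨24 + 72 * d + A₀, by linarith, ?_⟩
  intro Ω Λ Γ₁ Γ₂ 𝒞 𝒟 𝒩₁ 𝒩₂ _ p hp M m hM L t G₁ G₂ C D N₁ N₂ u n k₁ k₂ a Φ V R e U hV hR he
    hΦ ht hG₁ hG₂ hN₂ hfull hI₁ hI₂ hdis hNF hbig
  have h0 := hp.nonneg
  have hMr : (1 : ℝ) ≤ M := by exact_mod_cast hM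
  have hL4 := P4_law hp L G₁ G₂
  obtain ⟨P, hP⟩ : ∃ P, P = P4 p L G₁ G₂ := ⟨_, rfl⟩
  obtain ⟨φ, hφ⟩ : ∃ φ : Zt Λ 𝒟 → ℝ, φ = fun z => frp (k₁ z) (k₂ z) (Φ z) := ⟨_, rfl⟩
  obtain ⟨Z, hZ⟩ : ∃ Z, Z = zt L t D := ⟨_, rfl⟩
  obtain ⟨E, hE⟩ : ∃ E : (((Ω × Ω) × Ω) × Ω) × Ω → Prop, E = fun w => V ≤ φ (Z w) ∧ φ (Z w) ≤ m :=
    ⟨_, rfl⟩
  have el1 : ∑ w, (if V ≤ frp (k₁ (zt L t D w)) (k₂ (zt L t D w)) (Φ (zt L t D w)) ∧
      frp (k₁ (zt L t D w)) (k₂ (zt L t D w)) (Φ (zt L t D w)) ≤ m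
      then P4 p L G₁ G₂ w else 0) = law P E True := by
    unfold law
    refine Finset.sum_congr rfl fun w _ => ?_
    simp only [hE, hφ, hZ, hP, eq_iff_iff, iff_true]
  rw [el1]
  by_contra hcon
  push Not at hcon
  rw [← hP] at hL4
  have hR' : 0 < 1 / R := by positivity
  have hE0 : 0 < law P E True := hR'.trans_le hcon
  have hRe : 0 ≤ R * e := by positivity
  obtain ⟨Q, hQ⟩ : ∃ Q, Q = cond P E True := ⟨_, rfl⟩
  have hQlaw : IsLaw Q := by
    rw [hQ]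
    exact ⟨cond_nonneg hL4.nonneg E True, sum_cond P E hE0.ne'⟩
  have hsup : ∀ w, 0 < Q w → 0 < P4 p L G₁ G₂ w ∧ V ≤ φ (Z w) ∧ φ (Z w) ≤ m := by
    intro w hw
    rw [hQ] at hw
    obtain ⟨h1, h2⟩ := (cond_pos_iff hL4.nonneg E True w).mp hw
    rw [hP] at h1
    have h3 : E w := of_eq_true h2
    rw [hE] at h3
    exact ⟨h1, h3⟩
  -- `U` is nonnegative
  have hU0 : 0 ≤ U := by
    have h1 : law P E True ≤ 1 := by
      rw [← hL4.sum_one]
      unfold law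
      refine Finset.sum_le_sum fun w _ => ?_
      split_ifs
      · exact le_rfl
      · exact hL4.nonneg w
    have h2 : 1 ≤ R := by
      have h3 : 1 / R ≤ 1 := hcon.trans h1
      rwa [div_le_one hR] at h3
    refine (CH_nonneg h0 _ _).trans (hNF p hp fun ω => ?_)
    nlinarith [h0 ω]
  -- fullness
  have hT1 : ∀ w, 0 < P4 p L G₁ G₂ w → |t w.1.1.1.1| ≤ (M : ℤ) := fun w hw =>
    ht _ (P3_sup hp L G₁ G₂ (P4_pos hp L G₁ G₂ hw).1).1
  have hT2 : ∀ w, 0 < P4 p L G₁ G₂ w → |t w.1.1.2| ≤ (M : ℤ) := fun w hw =>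
    ht _ (P3_sup hp L G₁ G₂ (P4_pos hp L G₁ G₂ hw).1).2.2.1
  have hτ : ∀ w, 0 < P4 p L G₁ G₂ w → |t w.2| ≤ (M : ℤ) := fun w hw =>
    ht _ (P4_pos hp L G₁ G₂ hw).2.1
  have hF : 2 * Real.log (2 * M + 1) - 6 * e ≤
      CH P (fun w => (t w.1.1.1.1, t w.1.1.2)) Z := by
    rw [hP, hZ]
    exact full_two hp L t G₁ G₂ C D N₁ N₂ hG₁ hG₂ hN₂
      (fun {A T} _ {q} hq pr Z' hpr => CH_le_box hq (fun a => t (pr a)) Z' fun a ha =>
        ht _ (hpr a ha)) hfull hI₁ hI₂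
  have hub : ∀ q : (((Ω × Ω) × Ω) × Ω) × Ω → ℝ, IsLaw q → (∀ w, 0 < q w → 0 < P4 p L G₁ G₂ w) →
      CH q (fun w => (t w.1.1.1.1, t w.1.1.2)) Z ≤ 2 * Real.log (2 * M + 1) := by
    intro q hq hqp
    rw [CH_chain2 hq.nonneg (fun w : (((Ω × Ω) × Ω) × Ω) × Ω => t w.1.1.1.1)
      (fun w => t w.1.1.2) Z]
    have g1 := CH_le_box hq (fun w => t w.1.1.1.1) Z fun w hw => hT1 w (hqp w hw)
    have g2 := CH_le_box hq (fun w => t w.1.1.2) (fun w => (t w.1.1.1.1, Z w)) fun w hw =>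
      hT2 w (hqp w hw)
    linarith
  have hFQ : 2 * Real.log (2 * M + 1) - 6 * e / (1 / R) ≤
      CH Q (fun w => (t w.1.1.1.1, t w.1.1.2)) Z := by
    rw [hQ]
    refine deficit_ev hL4 (fun w => (t w.1.1.1.1, t w.1.1.2)) Z (L := 2 * Real.log (2 * M + 1))
      (e := 6 * e) hR' (by linarith) (fun q hq hqp => hub q hq fun w hw => ?_) hF E
      (fun w w' hz => ?_) hcon
    · rw [← hP]
      exact hqp w hw
    · rw [hE]
      try dsimp only
      rw [hz]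
  obtain ⟨e', he'⟩ : ∃ e', e' = 6 * (R * e) := ⟨_, rfl⟩
  have hRe' : 6 * e / (1 / R) = e' := by
    rw [he']
    field_simp
  rw [hRe'] at hFQ
  have he'0 : 0 ≤ e' := by rw [he']; positivity
  -- the data of a sample
  have hdat : ∀ w, 0 < Q w → |k₁ (Z w)| ≤ K * M ∧ |k₂ (Z w)| ≤ K * M ∧ ngr (Φ (Z w)) ≤ K * M ∧
      |(u (L w.1.2) (t w.2) : ℝ) - (a (Z w) + (k₁ (Z w) * ((t w.2 - t w.1.1.1.1 : ℤ) : ℝ) +
        k₂ (Z w) * ((t w.2 - t w.1.1.2 : ℤ) : ℝ)) / M)| ≤ K ∧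
      |(n (L w.1.2) (t w.2) : ℝ) -
        eval (pnt M (t w.2 - t w.1.1.1.1, t w.2 - t w.1.1.2)) (Φ (Z w))| ≤ K := by
    intro w hw
    obtain ⟨a1, a2, a3, a4, a5, a6, a7⟩ := P3_sup hp L G₁ G₂ (P4_pos hp L G₁ G₂ (hsup w hw).1).1
    exact hdis _ _ _ _ a1 a2 a3 a4 a5 a6 a7 (t w.2) (hτ w (hsup w hw).1) (Z w)
      (by rw [hZ]; rfl)
  -- the size of `M`
  have hVM : V ≤ 2 * K * M := by
    obtain ⟨w, hw⟩ : ∃ w, 0 < Q w := by
      by_contra hno
      push Not at hno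
      have h1 : ∑ w, Q w ≤ 0 := Finset.sum_nonpos fun w _ => hno w
      rw [hQlaw.sum_one] at h1
      linarith
    have h1 := (hsup w hw).2.1
    rw [hφ] at h1
    have h2 := frp_le (k₁ (Z w)) (k₂ (Z w)) (Φ (Z w))
    have h3 := (hdat w hw).2.2.1
    have h4 := h1.trans h2
    linarith
  -- the parameters
  obtain ⟨β, hβ⟩ : ∃ β, β = Real.exp (-(2 * (e' + Real.log 2))) := ⟨_, rfl⟩
  have hβ0 : 0 < β := by rw [hβ]; exact Real.exp_pos _
  have hβl : Real.log β = -(2 * (e' + Real.log 2)) := by rw [hβ, Real.log_exp]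
  obtain ⟨η, hη⟩ : ∃ η, η = β / (2 * Cb) := ⟨_, rfl⟩
  have hη0 : 0 < η := by rw [hη]; positivity
  have hηl : Real.log η = -(2 * (e' + Real.log 2)) - Real.log (2 * Cb) := by
    rw [hη, Real.log_div hβ0.ne' (by positivity), hβl]
  have hη1 : η ≤ 1 := by
    have h1 : Real.log η ≤ 0 := by
      rw [hηl]
      nlinarith
    rw [← Real.exp_log hη0]
    exact Real.exp_le_one_iff.mpr h1
  have hηM : 1 ≤ η * M := by
    have h1 : 0 ≤ Real.log (η * M) := by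
      rw [Real.log_mul hη0.ne' (by positivity), hηl]
      have h2 : Real.log V ≤ Real.log (2 * K) + Real.log M := by
        rw [← Real.log_mul (by positivity) (by positivity)]
        exact Real.log_le_log (by linarith) hVM
      have h3 : (24 + 72 * d + A₀) * (R * e + 1) = 24 * (R * e) + 24 + 72 * d * (R * e) + 72 * d +
        A₀ * (R * e) + A₀ := by ring
      rw [h3] at hbig
      have h4 : 0 ≤ 72 * (d : ℝ) * (R * e) := by positivity
      have h5 : 0 ≤ A₀ * (R * e) := by positivity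
      have h6 : Real.log (2 * K) + 2 * Real.log 2 + Real.log (2 * Cb) ≤ A₀ := by
        rw [hA₀]
        have : 0 ≤ 6 * (d : ℝ) * (2 * Real.log 2 + Real.log (2 * Cb)) := by positivity
        linarith
      rw [he']
      linarith
    by_contra hlt
    push Not at hlt
    have := Real.log_neg (by positivity) hlt
    linarith
  obtain ⟨δ, hδ⟩ : ∃ δ, δ = Cb⁻¹ * η ^ (2 * d) := ⟨_, rfl⟩
  have hδ0 : 0 < δ := by rw [hδ]; positivity
  have hδ1 : δ ≤ 1 := by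
    rw [hδ]
    have h1 : Cb⁻¹ ≤ 1 := inv_le_one_of_one_le₀ hCb
    have h2 : η ^ (2 * d) ≤ 1 := pow_le_one₀ hη0.le hη1
    have h3 := mul_le_mul h1 h2 (by positivity) zero_le_one
    rwa [one_mul] at h3
  have hδl : Real.log δ = -Real.log Cb - 2 * d * (2 * (e' + Real.log 2) + Real.log (2 * Cb)) := by
    rw [hδ, Real.log_mul (by positivity) (by positivity), Real.log_inv, Real.log_pow, hηl]
    push_cast
    ring
  -- the index of the gradient
  obtain ⟨J, hJ⟩ : ∃ J : Zt Λ 𝒟 → Fin 2, ∀ z, nrm (pderiv (J z) (Φ z)) = ngr (Φ z) := by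
    refine ⟨fun z => if nrm (pderiv 1 (Φ z)) ≤ nrm (pderiv 0 (Φ z)) then 0 else 1, fun z => ?_⟩
    unfold ngr
    dsimp only
    split_ifs with h
    · rw [max_eq_left h]
    · push Not at h
      rw [max_eq_right h.le]
  -- the bad set
  obtain ⟨S1, hS1⟩ : ∃ S1 : (((Ω × Ω) × Ω) × Ω) × Ω → ℤ, S1 = fun w => t w.2 - t w.1.1.1.1 :=
    ⟨_, rfl⟩
  obtain ⟨S2, hS2⟩ : ∃ S2 : (((Ω × Ω) × Ω) × Ω) × Ω → ℤ, S2 = fun w => t w.2 - t w.1.1.2 :=
    ⟨_, rfl⟩
  obtain ⟨Bs, hBs⟩ : ∃ Bs : Zt Λ 𝒟 → Finset (ℤ × ℤ), ∀ z, Bs z =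
      ((sqr M).filter fun s => |eval (pnt M s) (jac (k₁ z) (k₂ z) (Φ z))| <
        δ * nrm (jac (k₁ z) (k₂ z) (Φ z))) ∪
      ((sqr M).filter fun s => |eval (pnt M s) (pderiv (J z) (Φ z))| <
        δ * nrm (pderiv (J z) (Φ z))) := ⟨_, fun _ => rfl⟩
  have hBc : ∀ z, ((Bs z).card : ℝ) ≤ β * M ^ 2 := by
    intro z
    rw [hBs]
    have h1 := hbad (jac (k₁ z) (k₂ z) (Φ z)) (jac_deg _ _ (hΦ z)) M η hη0 hηM
    have h2 := hbad (pderiv (J z) (Φ z)) (td_pderiv (hΦ z) _) M η hη0 hηM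
    rw [← hδ] at h1 h2
    have h3 : ((((sqr M).filter fun s => |eval (pnt M s) (jac (k₁ z) (k₂ z) (Φ z))| <
        δ * nrm (jac (k₁ z) (k₂ z) (Φ z))) ∪
      ((sqr M).filter fun s => |eval (pnt M s) (pderiv (J z) (Φ z))| <
        δ * nrm (pderiv (J z) (Φ z)))).card : ℝ) ≤
        (((sqr M).filter fun s => |eval (pnt M s) (jac (k₁ z) (k₂ z) (Φ z))| <
        δ * nrm (jac (k₁ z) (k₂ z) (Φ z))).card : ℝ) +
      (((sqr M).filter fun s => |eval (pnt M s) (pderiv (J z) (Φ z))| <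
        δ * nrm (pderiv (J z) (Φ z))).card : ℝ) := by
      exact_mod_cast Finset.card_union_le _ _
    refine h3.trans ((add_le_add h1 h2).trans (le_of_eq ?_))
    rw [hη]
    field_simp
    ring
  obtain ⟨Bad, hBad⟩ : ∃ Bad : (((Ω × Ω) × Ω) × Ω) × Ω → Prop, Bad = fun w =>
      (S1 w, S2 w) ∈ Bs (Z w) := ⟨_, rfl⟩
  have hmass : law Q Bad True ≤ 1 / 2 := by
    refine excl hQlaw (M := M) (fun w => t w.1.1.1.1) (fun w => t w.1.1.2) Z (e := e') (β := β) hβ0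
      he'0 (fun w hw => hT1 w (hsup w hw).1) (fun w hw => hT2 w (hsup w hw).1) hFQ Bad
      (fun z => (Bs z).image fun s => (z.1 - s.1, z.1 - s.2)) (fun w hw hb => ?_)
      (fun w hw => ?_) ?_
    · rw [hBad] at hb
      refine Finset.mem_image.mpr ⟨_, hb, ?_⟩
      have e1 : (Z w).1 = t w.2 := by rw [hZ]; rfl
      rw [e1, hS1, hS2]
      refine Prod.ext ?_ ?_
      · show t w.2 - (t w.2 - t w.1.1.1.1) = t w.1.1.1.1
        ring
      · show t w.2 - (t w.2 - t w.1.1.2) = t w.1.1.2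
        ring
    · have h1 : (((Bs (Z w)).image fun s => ((Z w).1 - s.1, (Z w).1 - s.2)).card : ℝ) ≤
          ((Bs (Z w)).card : ℝ) := by exact_mod_cast Finset.card_image_le
      refine h1.trans ((hBc _).trans ?_)
      refine mul_le_mul_of_nonneg_left ?_ hβ0.le
      exact pow_le_pow_left₀ (by positivity) (by linarith) 2
    · rw [hβl]
      linarith
  -- the good event
  obtain ⟨Gd, hGd⟩ : ∃ Gd : (((Ω × Ω) × Ω) × Ω) × Ω → Prop, Gd = fun w => ¬ Bad w := ⟨_, rfl⟩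
  have hgood : 1 / 2 ≤ law Q Gd True := by
    have h1 : law Q Bad True + law Q Gd True = 1 := by
      rw [← hQlaw.sum_one]
      unfold law
      rw [← Finset.sum_add_distrib]
      refine Finset.sum_congr rfl fun w _ => ?_
      rw [hGd]
      by_cases hb : Bad w
      · simp [hb]
      · simp [hb]
    linarith
  have hG0 : 0 < law Q Gd True := lt_of_lt_of_le (by norm_num) hgood
  obtain ⟨Q', hQ'⟩ : ∃ Q', Q' = cond Q Gd True := ⟨_, rfl⟩
  have hQ'law : IsLaw Q' := by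
    rw [hQ']
    exact ⟨cond_nonneg hQlaw.nonneg Gd True, sum_cond Q Gd hG0.ne'⟩
  have hsup' : ∀ w, 0 < Q' w → 0 < Q w ∧ (S1 w, S2 w) ∉ Bs (Z w) := by
    intro w hw
    rw [hQ'] at hw
    obtain ⟨h1, h2⟩ := (cond_pos_iff hQlaw.nonneg Gd True w).mp hw
    have h3 : Gd w := of_eq_true h2
    rw [hGd, hBad] at h3
    exact ⟨h1, h3⟩
  have hFQ' : 2 * Real.log (2 * M + 1) - (e' + Real.log 2) / (1 / 2) ≤
      CH Q' (fun w => (t w.1.1.1.1, t w.1.1.2)) Z := by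
    rw [hQ']
    exact deficit_ev2 hQlaw (fun w => (t w.1.1.1.1, t w.1.1.2)) Z (L := 2 * Real.log (2 * M + 1))
      (e := e') (by norm_num) he'0 (fun q hq hqp => hub q hq fun w hw => (hsup w (hqp w hw)).1)
      hFQ Gd hgood
  have hSsq : ∀ w, 0 < Q w → (S1 w, S2 w) ∈ sqr M := by
    intro w hw
    have g1 := hT1 w (hsup w hw).1
    have g2 := hT2 w (hsup w hw).1
    have g3 := hτ w (hsup w hw).1
    rw [mem_sqr, hS1, hS2]
    constructor
    · show |t w.2 - t w.1.1.1.1| ≤ 2 * (M : ℤ)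
      exact (abs_sub _ _).trans (by linarith)
    · show |t w.2 - t w.1.1.2| ≤ 2 * (M : ℤ)
      exact (abs_sub _ _).trans (by linarith)
  -- the core
  have hcore := hwdg hQ'law (M := M) (K := K) (m := m) hM hK S1 S2
    (fun w => u (L w.1.2) (t w.2)) (fun w => n (L w.1.2) (t w.2)) Z k₁ k₂ a Φ (V := V) (δ := δ)
    hV hδ0 hδ1 hΦ (fun w hw => hSsq w (hsup' w hw).1)
    (fun w hw => (hdat w (hsup' w hw).1).1) (fun w hw => (hdat w (hsup' w hw).1).2.1)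
    (fun w hw => (hdat w (hsup' w hw).1).2.2.1)
    (fun w hw => by
      have h1 := (hdat w (hsup' w hw).1).2.2.2.1
      rw [hS1, hS2]
      exact h1)
    (fun w hw => by
      have h1 := (hdat w (hsup' w hw).1).2.2.2.2
      rw [hS1, hS2]
      exact h1)
    (fun w hw => by
      have h1 := (hsup' w hw).2
      rw [hBs, Finset.mem_union, not_or, Finset.mem_filter, Finset.mem_filter] at h1
      have h2 := h1.1
      push Not at h2
      exact h2 (hSsq w (hsup' w hw).1))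
    (fun w hw => by
      have h1 := (hsup' w hw).2
      rw [hBs, Finset.mem_union, not_or, Finset.mem_filter, Finset.mem_filter] at h1
      have h2 := h1.2
      push Not at h2
      have h3 := h2 (hSsq w (hsup' w hw).1)
      rw [hJ] at h3
      exact ⟨J (Z w), h3⟩)
    (fun w hw => by
      have := (hsup w (hsup' w hw).1).2.1
      rw [hφ] at this
      exact this)
    (fun w hw => by
      have := (hsup w (hsup' w hw).1).2.2
      rw [hφ] at this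
      exact this)
  have hTS : CH Q' (fun w => (t w.1.1.1.1, t w.1.1.2)) Z ≤ CH Q' (fun w => (S1 w, S2 w)) Z := by
    refine CH_mono_left hQ'law.nonneg fun w w' hw hw' hsz => ?_
    have hs := (Prod.ext_iff.mp hsz).1
    have hz : Z w = Z w' := (Prod.ext_iff.mp hsz).2
    have e1 : (Z w).1 = t w.2 := by rw [hZ]; rfl
    have e2 : (Z w').1 = t w'.2 := by rw [hZ]; rfl
    have e3 : t w.2 = t w'.2 := by rw [← e1, ← e2, hz]
    rw [hS1, hS2] at hs
    have s1 : t w.2 - t w.1.1.1.1 = t w'.2 - t w'.1.1.1.1 := (Prod.ext_iff.mp hs).1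
    have s2 : t w.2 - t w.1.1.2 = t w'.2 - t w'.1.1.2 := (Prod.ext_iff.mp hs).2
    refine Prod.ext ?_ ?_
    · show t w.1.1.1.1 = t w'.1.1.1.1
      rw [e3] at s1
      linarith
    · show t w.1.1.2 = t w'.1.1.2
      rw [e3] at s2
      linarith
  -- the nonfull coordinate
  have hdens : ∀ w, Q' w ≤ 2 * R * P4 p L G₁ G₂ w := by
    intro w
    have h4 : Q w ≤ R * P w := by
      rw [hQ]
      unfold Pool.Agent.H49.Ent.cond
      split_ifs
      · rw [div_le_iff₀ hE0]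
        have h5 : 1 ≤ R * law P E True := by
          have := mul_le_mul_of_nonneg_left hcon hR.le
          rwa [mul_one_div_cancel hR.ne'] at this
        have h6 := hL4.nonneg w
        nlinarith
      · exact mul_nonneg hR.le (hL4.nonneg w)
    have h5 : Q' w ≤ 2 * Q w := by
      rw [hQ']
      unfold Pool.Agent.H49.Ent.cond
      split_ifs
      · rw [div_le_iff₀ hG0]
        have h6 := hQlaw.nonneg w
        nlinarith
      · exact mul_nonneg (by norm_num) (hQlaw.nonneg w)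
    rw [← hP]
    linarith
  have hd : CH Q' (fun w => n (L w.1.2) (t w.2)) (fun w => (n (L w.1.2) (t w.2) / (m : ℤ),
      (u (L w.1.2) (t w.2), Z w))) ≤ U := by
    rw [hZ]
    exact fresh_NF hp L t G₁ G₂ C D u n m
      (fun ω ω' a b c => (hG₁ ω ω' a b c).1) (fun ω ω' a b c => (hG₂ ω ω' a b c).1) hQ'law hdens hNF
  have hlog : Real.log M ≤ Real.log (2 * M + 1) := Real.log_le_log (by linarith) (by linarith)
  have hcst : Real.log (cstP Lc K δ) = 2 * Real.log (131 * Lc) + Real.log (64 * (K : ℝ) ^ 2) +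
      Real.log (21 * K) + Real.log (27 * K) - 3 * Real.log δ := by
    unfold cstP
    have hK0 : (0 : ℝ) < K := by linarith
    rw [Real.log_mul (by positivity) (by positivity), Real.log_mul (by positivity)
      (by positivity), Real.log_mul (by positivity) (by positivity), Real.log_pow,
      Real.log_div (by positivity) hδ0.ne', Real.log_div (by positivity) hδ0.ne']
    push_cast
    ring
  rw [hcst, hδl] at hcore
  have h2 : (e' + Real.log 2) / (1 / 2) = 2 * (e' + Real.log 2) := by ring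
  rw [h2] at hFQ'
  have h3 : (24 + 72 * d + A₀) * (R * e + 1) = 24 * (R * e) + 24 + 72 * d * (R * e) + 72 * d +
    A₀ * (R * e) + A₀ := by ring
  rw [h3] at hbig
  have h5 : 0 ≤ A₀ * (R * e) := by positivity
  have h6 : 6 * (d : ℝ) * (2 * (e' + Real.log 2) + Real.log (2 * Cb)) = 72 * d * (R * e) +
      6 * d * (2 * Real.log 2 + Real.log (2 * Cb)) := by
    rw [he']
    ring
  have h7 : 3 * (2 * (d : ℝ) * (2 * (e' + Real.log 2) + Real.log (2 * Cb))) =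
      6 * d * (2 * (e' + Real.log 2) + Real.log (2 * Cb)) := by ring
  rw [hA₀] at hbig
  rw [he'] at hFQ' 
  rw [he'] at h6 h7 hcore
  have hd72 : 0 ≤ 72 * (d : ℝ) := by positivity
  rw [hA₀] at h5
  linarith

end Pool.PRQ76
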