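import Pool.Agent.H46.PR.Cel
import Pool.Agent.H76.PR.Twq

/-!
# Two hops, polynomial heights: the constants

`poly_eps`: the hypotheses on one law up to `δ Q`, the height `n` nonfull given the height `u` on all
events of mass at least `c₀`; then the freedom `frp` of `n` given `u` is less than `2^(ε Q)`, up to
probability `ε`.
-/

set_option autoImplicit false

namespace Pool.PRQ76

open Finset Real MvPolynomial
open Pool.Agent.H49.Ent Pool.Agent.H32.Dense Pool.STK Pool.OWN68 Pool.PR46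
open Pool.BFL (Pb)

/-- The hypotheses for one law. -/
structure PolyH {Ω Λ Γ₁ Γ₂ 𝒞 𝒟 𝒩₁ 𝒩₂ : Type} [Fintype Ω] (p : Ω → ℝ) (d M K Q : ℕ)
    (δ c₀ h : ℝ) (L : Ω → Λ) (t : Ω → ℤ) (G₁ : Ω → Γ₁) (G₂ : Ω → Γ₂) (C : Λ → 𝒞) (D : Λ → 𝒟)
    (N₁ : Λ → 𝒩₁) (N₂ : Λ → 𝒩₂) (u n : Λ → ℤ → ℤ) (k₁ k₂ a : Zt Λ 𝒟 → ℝ)
    (Φ : Zt Λ 𝒟 → MvPolynomial (Fin 2) ℝ) : Prop where
  rcs : Recs p M (δ * Q) L t G₁ G₂ C D N₁ N₂
  deg : ∀ z, (Φ z).totalDegree ≤ d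
  dis : ∀ ω₀ ω₁ ω₁' ω₂, 0 < p ω₀ → 0 < p ω₁ → 0 < p ω₁' → 0 < p ω₂ → G₁ ω₀ = G₁ ω₁ →
      L ω₁ = L ω₁' → G₂ ω₁' = G₂ ω₂ → ∀ τ : ℤ, |τ| ≤ (M : ℤ) → ∀ z : Zt Λ 𝒟,
      z = (τ, (D (L ω₂), (D (L ω₁), L ω₀))) →
      |k₁ z| ≤ K * M ∧ |k₂ z| ≤ K * M ∧ ngr (Φ z) ≤ K * M ∧
      |(u (L ω₂) τ : ℝ) - (a z + (k₁ z * ((τ - t ω₀ : ℤ) : ℝ) +
        k₂ z * ((τ - t ω₁' : ℤ) : ℝ)) / M)| ≤ K ∧
      |(n (L ω₂) τ : ℝ) - eval (pnt M (τ - t ω₀, τ - t ω₁')) (Φ z)| ≤ K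
  nf : ∀ k ≤ Q + 1, ∀ E : Ω → Prop, c₀ ≤ Pb p E →
      CH (cond p E True) (fun ω => n (L ω) (t ω)) (fun ω => ((n (L ω) (t ω) / 2 ^ k,
        u (L ω) (t ω)), (t ω, (C (L ω), D (L ω))))) ≤ (1 - h) * k * Real.log 2 + δ * Q

/-- Nonfull below a coarser quotient. -/
theorem nf_coarse {Ω T : Type} [Fintype Ω] {q : Ω → ℝ} (hq : IsLaw q) (x : Ω → ℤ) (Y : Ω → T)
    {k k' : ℕ} (hk : k' ≤ k) :
    CH q x (fun ω => (x ω / 2 ^ k, Y ω)) ≤ CH q x (fun ω => (x ω / 2 ^ k', Y ω)) +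
      ((k : ℝ) - k' + 2) * Real.log 2 := by
  have h0 := hq.nonneg
  have h1 := CH_le_add h0 x (fun ω => x ω / (2 : ℤ) ^ k') (fun ω => (x ω / (2 : ℤ) ^ k, Y ω))
  have h2 : CH q x (fun ω => (x ω / (2 : ℤ) ^ k', (x ω / (2 : ℤ) ^ k, Y ω))) ≤
      CH q x (fun ω => (x ω / 2 ^ k', Y ω)) :=
    CH_mono_cond h0 fun ω ω' _ _ hz => by
      have z1 := (Prod.ext_iff.mp hz).1
      have z2 := (Prod.ext_iff.mp (Prod.ext_iff.mp hz).2).2
      exact Prod.ext z1 z2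
  have h3 : CH q (fun ω => x ω / (2 : ℤ) ^ k') (fun ω => (x ω / (2 : ℤ) ^ k, Y ω)) ≤
      ((k - k' : ℕ) + 2) * Real.log 2 := by
    refine CH_quot hq (fun ω => x ω / (2 : ℤ) ^ k') _ (k := k - k') fun ω ω' _ _ hz => ?_
    have z1 : x ω / (2 : ℤ) ^ k = x ω' / (2 : ℤ) ^ k := (Prod.ext_iff.mp hz).1
    have e : ∀ y : ℤ, y / (2 : ℤ) ^ k' / 2 ^ (k - k') = y / 2 ^ k := by
      intro y
      rw [Int.ediv_ediv_of_nonneg (by positivity), ← pow_add, Nat.add_sub_cancel' hk]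
    rw [e, e, z1]
  have e : (((k - k' : ℕ) : ℝ) + 2) = (k : ℝ) - k' + 2 := by
    rw [Nat.cast_sub hk]
  rw [e] at h3
  linarith

/-- **Two hops, polynomial heights: constants.** -/
theorem poly_eps (d K : ℕ) (hK : 1 ≤ K) {h ε : ℝ} (hh : 0 < h) (hh1 : h ≤ 1) (hε : 0 < ε) :
    ∃ δ > 0, ∃ c₀ > 0, ∃ Q₀ : ℕ, ∀ Q ≥ Q₀, ∀ M : ℕ, 1 ≤ M → M ≤ 2 ^ Q →
      ∀ {Ω Λ Γ₁ Γ₂ 𝒞 𝒟 𝒩₁ 𝒩₂ : Type} [Fintype Ω] {p : Ω → ℝ},
      IsLaw p → ∀ {L : Ω → Λ} {t : Ω → ℤ} {G₁ : Ω → Γ₁} {G₂ : Ω → Γ₂} {C : Λ → 𝒞} {D : Λ → 𝒟}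
      {N₁ : Λ → 𝒩₁} {N₂ : Λ → 𝒩₂} {u n : Λ → ℤ → ℤ} {k₁ k₂ a : Zt Λ 𝒟 → ℝ}
      {Φ : Zt Λ 𝒟 → MvPolynomial (Fin 2) ℝ},
      PolyH p d M K Q δ c₀ h L t G₁ G₂ C D N₁ N₂ u n k₁ k₂ a Φ →
      Pb (P4 p L G₁ G₂) (fun w => (2 : ℝ) ^ (ε * Q) ≤
        frp (k₁ (zt L t D w)) (k₂ (zt L t D w)) (Φ (zt L t D w))) ≤ ε := by
  classical
  have hl2 : 0 < Real.log 2 := Real.log_pos (by norm_num)
  have hl2' : Real.log 2 ≤ 1 := by
    have := Real.log_two_lt_d9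
    linarith
  have hKr : (1 : ℝ) ≤ K := by exact_mod_cast hK
  obtain ⟨C₀, hC₀, hcellP⟩ := two_cellP d K hK
  -- constants
  obtain ⟨η₁, hη₁⟩ : ∃ η₁ : ℝ, η₁ = min ε 1 := ⟨_, rfl⟩
  have hη₁0 : 0 < η₁ := by rw [hη₁]; exact lt_min hε one_pos
  have hη₁1 : η₁ ≤ 1 := by rw [hη₁]; exact min_le_right ε 1
  have hη₁ε : η₁ ≤ ε := by rw [hη₁]; exact min_le_left ε 1
  obtain ⟨ε₂, hε₂⟩ : ∃ ε₂ : ℝ, ε₂ = ε / 2 := ⟨_, rfl⟩
  have hε₂0 : 0 < ε₂ := by rw [hε₂]; positivity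
  obtain ⟨J, hJ⟩ : ∃ J : ℕ, J = ⌈16 / (h * ε₂)⌉₊ := ⟨_, rfl⟩
  have hJr : 16 / (h * ε₂) ≤ J := by rw [hJ]; exact Nat.le_ceil _
  have hJ0 : 0 < J := by
    have : (0 : ℝ) < J := lt_of_lt_of_le (by positivity) hJr
    exact_mod_cast this
  have hJ1 : (1 : ℝ) ≤ J := by exact_mod_cast hJ0
  obtain ⟨R, hR⟩ : ∃ R : ℝ, R = J / η₁ := ⟨_, rfl⟩
  have hR1 : 1 ≤ R := by rw [hR, le_div_iff₀ hη₁0]; linarith
  have hR0 : 0 < R := by linarith
  obtain ⟨θ, hθ⟩ : ∃ θ : ℝ, θ = h * ε₂ / 64 := ⟨_, rfl⟩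
  have hθ0 : 0 < θ := by rw [hθ]; positivity
  obtain ⟨N, hN⟩ : ∃ N : ℕ, 2 * R / (1 + h / 2) ^ N ≤ θ := by
    obtain ⟨N, hN⟩ := pow_unbounded_of_one_lt (2 * R / θ) (by linarith : 1 < 1 + h / 2)
    refine ⟨N, ?_⟩
    rw [div_le_iff₀ (by positivity)]
    rw [div_lt_iff₀ hθ0] at hN
    linarith
  obtain ⟨c₀, hc₀⟩ : ∃ c₀ : ℝ, c₀ = θ * (h / 2) / (2 * R * (1 + h / 2)) := ⟨_, rfl⟩
  have hc₀0 : 0 < c₀ := by rw [hc₀]; positivity
  have hc₀2 : 2 * R * c₀ * (1 + h / 2) / (h / 2) ≤ θ := by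
    rw [hc₀]
    refine le_of_eq ?_
    field_simp
  obtain ⟨δ, hδ⟩ : ∃ δ : ℝ, δ = h * ε₂ / 16 * Real.log 2 / (2 + C₀ * R) := ⟨_, rfl⟩
  have hCR : 0 < 2 + C₀ * R := by positivity
  have hδ0 : 0 < δ := by rw [hδ]; positivity
  have hδ2 : (2 + C₀ * R) * δ ≤ h * ε₂ / 16 * Real.log 2 := by
    rw [hδ, mul_div_cancel₀ _ hCR.ne']
  obtain ⟨c₁, hc₁⟩ : ∃ c₁ : ℝ, c₁ = Real.log (N + 1) + C₀ + 2 * (K + 2) := ⟨_, rfl⟩
  have hlN : 0 ≤ Real.log ((N : ℝ) + 1) := Real.log_nonneg (by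
    have : (0 : ℝ) ≤ N := Nat.cast_nonneg N
    linarith)
  have hc₁0 : 0 ≤ c₁ := by rw [hc₁]; positivity
  refine ⟨δ, hδ0, c₀, hc₀0, ⌈(32 * c₁ / (h * ε₂ * Real.log 2) + 8 / (h * ε₂) + 2 / ε + K + 4)⌉₊, ?_⟩
  intro Q hQ M hM hMQ Ω Λ Γ₁ Γ₂ 𝒞 𝒟 𝒩₁ 𝒩₂ _ p hp L t G₁ G₂ C D N₁ N₂ u n k₁ k₂ a Φ H
  have hQr : 32 * c₁ / (h * ε₂ * Real.log 2) + 8 / (h * ε₂) + 2 / ε + K + 4 ≤ Q :=
    (Nat.le_ceil _).trans (by exact_mod_cast hQ)
  have q1 : 0 ≤ 32 * c₁ / (h * ε₂ * Real.log 2) := by positivity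
  have q2 : 0 ≤ 8 / (h * ε₂) := by positivity
  have q3 : 0 ≤ 2 / ε := by positivity
  have Q1 : 32 * c₁ / (h * ε₂ * Real.log 2) ≤ Q := by linarith
  have Q2 : 8 / (h * ε₂) ≤ Q := by linarith
  have Q3 : 2 / ε ≤ Q := by linarith
  have Q7 : (K : ℝ) + 4 ≤ Q := by linarith
  rw [div_le_iff₀ (by positivity)] at Q1 Q2 Q3
  have hQ0 : (0 : ℝ) < Q := by linarith
  have hMr : (1 : ℝ) ≤ M := by exact_mod_cast hM
  have hM0 : (0 : ℝ) < M := by linarith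
  have hMQr : (M : ℝ) ≤ 2 ^ Q := by exact_mod_cast hMQ
  have hL4 := P4_law hp L G₁ G₂
  -- the cells
  obtain ⟨k₀, hk₀⟩ : ∃ k₀ : ℕ, k₀ = ⌈ε₂ * Q⌉₊ := ⟨_, rfl⟩
  have hk1 : ε₂ * Q ≤ k₀ := by rw [hk₀]; exact Nat.le_ceil _
  have hk2 : (k₀ : ℝ) ≤ ε₂ * Q + 1 := by
    rw [hk₀]
    exact (Nat.ceil_lt_add_one (by positivity)).le
  obtain ⟨s, hs⟩ : ∃ s : ℕ, s = ⌊h * k₀ / 4⌋₊ := ⟨_, rfl⟩
  have hs1 : (s : ℝ) ≤ h * k₀ / 4 := by rw [hs]; exact Nat.floor_le (by positivity)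
  have hs2 : h * ε₂ * Q / 8 ≤ s := by
    have g1 : h * k₀ / 4 < s + 1 := by rw [hs]; exact Nat.lt_floor_add_one _
    have g2 : h * (ε₂ * Q) ≤ h * k₀ := mul_le_mul_of_nonneg_left hk1 hh.le
    have g3 : 8 ≤ h * ε₂ * Q := by linarith
    linarith
  have hJs : (Q + K) + 1 ≤ k₀ + J * s := by
    have g1 : (2 : ℝ) * Q ≤ J * s := by
      have g2 : 16 / (h * ε₂) * (h * ε₂ * Q / 8) ≤ J * s :=
        mul_le_mul hJr hs2 (by positivity) (by linarith)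
      have g3 : 16 / (h * ε₂) * (h * ε₂ * Q / 8) = 2 * Q := by
        field_simp
        ring
      linarith
    have g4 : (((Q + K) + 1 : ℕ) : ℝ) ≤ ((k₀ + J * s : ℕ) : ℝ) := by
      push_cast
      have : (0 : ℝ) ≤ k₀ := Nat.cast_nonneg _
      linarith
    exact_mod_cast g4
  obtain ⟨kk, hkk⟩ : ∃ kk : ℕ → ℕ, ∀ j, kk j = min (k₀ + (j + 1) * s) ((Q + K) + 1) :=
    ⟨_, fun _ => rfl⟩
  have hkk1 : ∀ j, (kk j : ℝ) ≤ k₀ + (j + 1) * s := fun j => by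
    have : kk j ≤ k₀ + (j + 1) * s := by rw [hkk]; exact min_le_left _ _
    exact_mod_cast this
  have hkk2 : ∀ j, kk j ≤ Q + K + 1 := fun j => by rw [hkk]; exact min_le_right _ _
  have hδQ : (0 : ℝ) ≤ δ * Q := by positivity
  have hh2 : 0 ≤ 1 - h := by linarith
  -- nonfull down from all the cells
  have hnf : ∀ k ≤ Q + K + 1, ∀ E : Ω → Prop, c₀ ≤ Pb p E →
      CH (cond p E True) (fun ω => n (L ω) (t ω)) (fun ω => ((n (L ω) (t ω) / 2 ^ k,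
        u (L ω) (t ω)), (t ω, (C (L ω), D (L ω))))) ≤
        (1 - h) * k * Real.log 2 + δ * Q + (K + 2) * Real.log 2 := by
    intro k hk E hE
    rcases le_total k (Q + 1) with hc | hc
    · refine (H.nf k hc E hE).trans ?_
      have : 0 ≤ ((K : ℝ) + 2) * Real.log 2 := by positivity
      linarith
    · have hE0 : 0 < law p E True := by
        have h1 : Pb p E = law p E True := by
          rw [← Pb_sum]
          unfold law
          refine Finset.sum_congr rfl fun ω _ => ?_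
          simp only [eq_iff_iff, iff_true]
        rw [← h1]
        linarith
      have hq : IsLaw (cond p E True) := ⟨cond_nonneg hp.nonneg E True, sum_cond p E hE0.ne'⟩
      have h1 := H.nf (Q + 1) le_rfl E hE
      have h2 := nf_coarse hq (fun ω => n (L ω) (t ω)) (fun ω => (u (L ω) (t ω),
        (t ω, (C (L ω), D (L ω))))) hc
      have h3 : CH (cond p E True) (fun ω => n (L ω) (t ω)) (fun ω => ((n (L ω) (t ω) / 2 ^ k,
          u (L ω) (t ω)), (t ω, (C (L ω), D (L ω))))) ≤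
          CH (cond p E True) (fun ω => n (L ω) (t ω)) (fun ω => (n (L ω) (t ω) / 2 ^ k,
          (u (L ω) (t ω), (t ω, (C (L ω), D (L ω)))))) :=
        CH_mono_cond hq.nonneg fun ω ω' _ _ hz => by
          have z1 := (Prod.ext_iff.mp (Prod.ext_iff.mp hz).1).1
          have z2 := (Prod.ext_iff.mp (Prod.ext_iff.mp hz).1).2
          have z3 := (Prod.ext_iff.mp hz).2
          exact Prod.ext z1 (Prod.ext z2 z3)
      have h4 : CH (cond p E True) (fun ω => n (L ω) (t ω)) (fun ω => (n (L ω) (t ω) / 2 ^ (Q + 1),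
          (u (L ω) (t ω), (t ω, (C (L ω), D (L ω)))))) ≤
          CH (cond p E True) (fun ω => n (L ω) (t ω)) (fun ω => ((n (L ω) (t ω) / 2 ^ (Q + 1),
          u (L ω) (t ω)), (t ω, (C (L ω), D (L ω))))) :=
        CH_mono_cond hq.nonneg fun ω ω' _ _ hz => by
          have z1 := (Prod.ext_iff.mp hz).1
          have z2 := (Prod.ext_iff.mp (Prod.ext_iff.mp hz).2).1
          have z3 := (Prod.ext_iff.mp (Prod.ext_iff.mp hz).2).2
          exact Prod.ext (Prod.ext z1 z2) z3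
      have h5 : (1 - h) * ((Q + 1 : ℕ) : ℝ) * Real.log 2 ≤ (1 - h) * k * Real.log 2 := by
        have : ((Q + 1 : ℕ) : ℝ) ≤ k := by exact_mod_cast hc
        exact mul_le_mul_of_nonneg_right (mul_le_mul_of_nonneg_left this hh2) hl2.le
      have h6 : ((k : ℝ) - ((Q + 1 : ℕ) : ℝ) + 2) * Real.log 2 ≤ (K + 2) * Real.log 2 := by
        refine mul_le_mul_of_nonneg_right ?_ hl2.le
        have h7 : (k : ℝ) ≤ Q + K + 1 := by exact_mod_cast hk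
        push_cast
        linarith
      linarith
  -- the cells
  have hcel : ∀ j < J, Pb (P4 p L G₁ G₂) (fun w => (2 : ℝ) ^ (k₀ + j * s) ≤
      frp (k₁ (zt L t D w)) (k₂ (zt L t D w)) (Φ (zt L t D w)) ∧
      frp (k₁ (zt L t D w)) (k₂ (zt L t D w)) (Φ (zt L t D w)) ≤ (2 : ℝ) ^ (kk j)) ≤ 1 / R := by
    intro j _
    have key := hcellP hp (m := 2 ^ kk j) hM L t G₁ G₂ C D N₁ N₂ u n k₁ k₂ a Φ
      (V := (2 : ℝ) ^ (k₀ + j * s)) (R := R) (e := δ * Q)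
      (U := (1 + h / 2) * ((1 - h) * kk j * Real.log 2 + δ * Q + (K + 2) * Real.log 2) +
        (2 * R * c₀ * (1 + h / 2) / (h / 2) + 2 * R / (1 + h / 2) ^ N) *
        ((Q + K + 3) * Real.log 2) + Real.log (N + 1))
      (one_le_pow₀ (by norm_num)) hR0 hδQ H.deg H.rcs.tb H.rcs.g1 H.rcs.g2 H.rcs.nd H.rcs.full
      H.rcs.i1 H.rcs.i2 H.dis ?_ ?_
    · rw [← Pb_sum]
      refine le_trans (le_of_eq (Finset.sum_congr rfl fun w _ => ?_)) key.le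
      push_cast
      congr
    · intro q hq hqd
      have hcast : ∀ ω, n (L ω) (t ω) / (((2 ^ kk j : ℕ) : ℤ)) = n (L ω) (t ω) / 2 ^ kk j :=
        fun ω => by push_cast; rfl
      have hcast2 : (fun ω => ((n (L ω) (t ω) / (((2 ^ kk j : ℕ) : ℤ)), u (L ω) (t ω)),
          (t ω, (C (L ω), D (L ω))))) = (fun ω => ((n (L ω) (t ω) / 2 ^ kk j, u (L ω) (t ω)),
          (t ω, (C (L ω), D (L ω))))) := by
        funext ω
        rw [hcast]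
      rw [hcast2]
      refine Pool.NFD.nf_dens hp hq (M := 2 * R) (by linarith) hqd hc₀0 (by positivity : 0 < h / 2)
        (fun ω => n (L ω) (t ω)) (fun ω => ((n (L ω) (t ω) / 2 ^ kk j, u (L ω) (t ω)),
          (t ω, (C (L ω), D (L ω))))) (L := N) ?_ ?_ (fun A hA => hnf (kk j) (hkk2 j) A hA) ?_
      · positivity
      · positivity
      · intro r hr _
        refine (CH_quot hr (fun ω => n (L ω) (t ω)) _ (k := kk j) fun ω ω' _ _ hz => ?_).trans ?_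
        · have := (Prod.ext_iff.mp (Prod.ext_iff.mp hz).1).1
          exact this
        · refine mul_le_mul_of_nonneg_right ?_ hl2.le
          have : (kk j : ℝ) ≤ Q + K + 1 := by exact_mod_cast hkk2 j
          linarith
    · rw [Real.log_pow]
      have g1 : (1 + h / 2) * ((1 - h) * kk j * Real.log 2) ≤
          (1 - h / 2) * (k₀ + (j + 1) * s) * Real.log 2 := by
        have e1 : (1 + h / 2) * ((1 - h) * kk j * Real.log 2) =
            ((1 + h / 2) * (1 - h) * kk j) * Real.log 2 := by ring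
        rw [e1]
        refine mul_le_mul_of_nonneg_right ?_ hl2.le
        have e2 : (1 + h / 2) * (1 - h) ≤ 1 - h / 2 := by nlinarith
        have hkn : (0 : ℝ) ≤ kk j := Nat.cast_nonneg _
        exact (mul_le_mul_of_nonneg_right e2 hkn).trans
          (mul_le_mul_of_nonneg_left (hkk1 j) (by linarith))
      have g2 : (2 * R * c₀ * (1 + h / 2) / (h / 2) + 2 * R / (1 + h / 2) ^ N) *
          ((Q + K + 3) * Real.log 2) ≤ h * ε₂ / 16 * Q * Real.log 2 := by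
        have e1 : 2 * R * c₀ * (1 + h / 2) / (h / 2) + 2 * R / (1 + h / 2) ^ N ≤ 2 * θ := by linarith
        have e2 : ((Q : ℝ) + K + 3) * Real.log 2 ≤ 2 * Q * Real.log 2 :=
          mul_le_mul_of_nonneg_right (by linarith) hl2.le
        refine (mul_le_mul e1 e2 (by positivity) (by positivity)).trans (le_of_eq ?_)
        rw [hθ]
        ring
      have g3 : (1 + h / 2) * (δ * Q) + C₀ * (R * (δ * Q)) ≤ h * ε₂ / 16 * Real.log 2 * Q := by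
        have e1 : (1 + h / 2) * (δ * Q) + C₀ * (R * (δ * Q)) ≤ (2 + C₀ * R) * δ * Q := by
          have : (1 + h / 2) * (δ * Q) ≤ 2 * (δ * Q) :=
            mul_le_mul_of_nonneg_right (by linarith) (by positivity)
          linarith
        exact e1.trans (mul_le_mul_of_nonneg_right hδ2 hQ0.le)
      have g4 : Real.log (N + 1) + C₀ + (1 + h / 2) * ((K + 2) * Real.log 2) ≤
          h * ε₂ / 32 * Q * Real.log 2 := by
        have e1 : (1 + h / 2) * (((K : ℝ) + 2) * Real.log 2) ≤ 2 * (K + 2) := by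
          have e2 : ((K : ℝ) + 2) * Real.log 2 ≤ (K + 2) * 1 :=
            mul_le_mul_of_nonneg_left hl2' (by positivity)
          have e3 : (1 + h / 2) * (((K : ℝ) + 2) * Real.log 2) ≤ 2 * (((K : ℝ) + 2) * 1) :=
            mul_le_mul (by linarith) e2 (by positivity) (by norm_num)
          linarith
        have e4 : c₁ ≤ h * ε₂ / 32 * Q * Real.log 2 := by linarith
        rw [hc₁] at e4
        linarith
      have g5 : (s : ℝ) * Real.log 2 ≤ h * k₀ / 4 * Real.log 2 :=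
        mul_le_mul_of_nonneg_right hs1 hl2.le
      have g6 : h * (ε₂ * Q) * Real.log 2 ≤ h * k₀ * Real.log 2 :=
        mul_le_mul_of_nonneg_right (mul_le_mul_of_nonneg_left hk1 hh.le) hl2.le
      have g7 : 0 < h * (ε₂ * Q) * Real.log 2 := by positivity
      have g8 : 0 ≤ h / 2 * (j * s) * Real.log 2 := by positivity
      have g9 : 0 ≤ h / 2 * s * Real.log 2 := by positivity
      push_cast
      have e3 : (1 - h / 2) * (k₀ + ((j : ℝ) + 1) * s) * Real.log 2 =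
          (k₀ + j * s) * Real.log 2 + s * Real.log 2 - h / 2 * k₀ * Real.log 2 -
            h / 2 * (j * s) * Real.log 2 - h / 2 * s * Real.log 2 := by ring
      rw [e3] at g1
      have e4 : (1 + h / 2) * ((1 - h) * kk j * Real.log 2 + δ * Q + (K + 2) * Real.log 2) =
        (1 + h / 2) * ((1 - h) * kk j * Real.log 2) + (1 + h / 2) * (δ * Q) +
          (1 + h / 2) * ((K + 2) * Real.log 2) := by ring
      have e5 : C₀ * (R * (δ * Q) + 1) = C₀ * (R * (δ * Q)) + C₀ := by ring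
      rw [e4, e5]
      linarith
  have hall := cells_all hL4.nonneg (fun w => frp (k₁ (zt L t D w)) (k₂ (zt L t D w))
    (Φ (zt L t D w))) (V := (2 : ℝ) ^ k₀) (X := (2 : ℝ) ^ (Q + K + 1)) (r := 1 / R) (J := J)
    (fun j => (2 : ℝ) ^ (k₀ + j * s)) (fun j => (2 : ℝ) ^ (kk j)) (fun x hx1 hx2 => by
      obtain ⟨j, hj, hj1, hj2⟩ := cells_cov (Q := Q + K) hJs hJ0 hx1 hx2
      exact ⟨j, hj, hj1, hj2.trans (le_of_eq (by rw [← hkk]))⟩) (fun w hw => by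
      obtain ⟨q1, q2, q3⟩ := P4_pos hp L G₁ G₂ hw
      obtain ⟨a1, a2, a3, a4, a5, a6, a7⟩ := P3_sup hp L G₁ G₂ q1
      have hd := (H.dis _ _ _ _ a1 a2 a3 a4 a5 a6 a7 (t w.2) (H.rcs.tb _ q2)
        (zt L t D w) rfl).2.2.1
      have h1 := frp_le (k₁ (zt L t D w)) (k₂ (zt L t D w)) (Φ (zt L t D w))
      have h2 : (K : ℝ) ≤ 2 ^ K := by exact_mod_cast (Nat.lt_two_pow_self (n := K)).le
      have h3 : (K : ℝ) * M ≤ 2 ^ K * 2 ^ Q := mul_le_mul h2 hMQr hM0.le (by positivity)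
      have h4 : (2 : ℝ) ^ (Q + K + 1) = 2 * (2 ^ K * 2 ^ Q) := by
        rw [pow_succ, pow_add]
        ring
      rw [h4]
      linarith) hcel
  have hJR : (J : ℝ) * (1 / R) ≤ ε := by
    have e1 : (J : ℝ) * (1 / R) = η₁ := by
      rw [hR]
      field_simp
    rw [e1]
    exact hη₁ε
  refine le_trans ?_ (hall.trans hJR)
  refine Pb_imp hL4.nonneg fun w _ hw => le_trans ?_ hw
  have h1 : ((2 : ℝ) ^ k₀) = (2 : ℝ) ^ ((k₀ : ℕ) : ℝ) := (Real.rpow_natCast 2 k₀).symm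
  rw [h1]
  refine Real.rpow_le_rpow_of_exponent_le (by norm_num) ?_
  have : ε₂ * Q + 1 ≤ ε * Q := by
    rw [hε₂]
    linarith
  linarith

end Pool.PRQ76
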