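import Pool.Agent.H76.PR.Pol

/-!
# Two hops: a moving slope

Two hops with `D` = the velocity of `u` alone. The height `n` (relative to the slope path `c (τ)`)
of the copy is moved by `(c (t) - c (τ)) (du' - du) (τ - t)`. If `u` is alive at the scale `B`, then
the slope path is constant up to `2^(ε Q) / B`.
-/

set_option autoImplicit false

namespace Pool.PRQ76

open Finset Real MvPolynomial
open Pool.Agent.H49.Ent Pool.Agent.H32.Dense Pool.STK Pool.OWN68 Pool.PR46
open Pool.BFL (Pb)

/-! ### One variable polynomials in one of the two variables -/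

/-- A polynomial of one of the variables. -/
noncomputable def uv (i : Fin 2) (g : Polynomial ℝ) : MvPolynomial (Fin 2) ℝ :=
  Polynomial.aeval (X i : MvPolynomial (Fin 2) ℝ) g

theorem uv_eval (i : Fin 2) (g : Polynomial ℝ) (v : Fin 2 → ℝ) :
    eval v (uv i g) = g.eval (v i) := by
  unfold uv
  induction g using Polynomial.induction_on' with
  | add p q hp hq => rw [map_add, map_add, hp, hq, Polynomial.eval_add]
  | monomial n a =>
    rw [Polynomial.aeval_monomial, Polynomial.eval_monomial, map_mul, map_pow, eval_X]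
    congr 1
    rw [MvPolynomial.algebraMap_eq, eval_C]

theorem uv_deg (i : Fin 2) {g : Polynomial ℝ} {d : ℕ} (h : g.natDegree ≤ d) :
    (uv i g).totalDegree ≤ d := by
  unfold uv
  rw [Polynomial.aeval_eq_sum_range]
  refine (totalDegree_finsetSum _ _).trans (Finset.sup_le fun k hk => ?_)
  rw [Finset.mem_range] at hk
  refine (totalDegree_smul_le _ _).trans ?_
  rw [totalDegree_X_pow]
  omega

theorem uv_pderiv_same (i : Fin 2) (g : Polynomial ℝ) :
    pderiv i (uv i g) = uv i g.derivative := by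
  unfold uv
  rw [Derivation.map_aeval, pderiv_X_self, smul_eq_mul, mul_one]

theorem uv_pderiv_ne {i j : Fin 2} (h : i ≠ j) (g : Polynomial ℝ) : pderiv j (uv i g) = 0 := by
  unfold uv
  rw [Derivation.map_aeval, pderiv_X_of_ne h, smul_zero]

/-- The polynomial `b + k₁ g (s₁) + k₂ g (s₂)`. -/
noncomputable def phi (b k₁ k₂ : ℝ) (g : Polynomial ℝ) : MvPolynomial (Fin 2) ℝ :=
  C b + C k₁ * uv 0 g + C k₂ * uv 1 g

theorem phi_eval (b k₁ k₂ : ℝ) (g : Polynomial ℝ) (v : Fin 2 → ℝ) :
    eval v (phi b k₁ k₂ g) = b + k₁ * g.eval (v 0) + k₂ * g.eval (v 1) := by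
  unfold phi
  simp only [map_add, map_mul, eval_C, uv_eval]

theorem phi_deg (b k₁ k₂ : ℝ) {g : Polynomial ℝ} {d : ℕ} (h : g.natDegree ≤ d) :
    (phi b k₁ k₂ g).totalDegree ≤ d := by
  unfold phi
  have hC : ∀ (k : ℝ) (i : Fin 2), (C k * uv i g).totalDegree ≤ d := by
    intro k i
    refine (totalDegree_mul _ _).trans ?_
    rw [totalDegree_C, zero_add]
    exact uv_deg i h
  refine (totalDegree_add _ _).trans (max_le ?_ (hC k₂ 1))
  refine (totalDegree_add _ _).trans (max_le ?_ (hC k₁ 0))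
  rw [totalDegree_C]
  exact Nat.zero_le _

theorem phi_p0 (b k₁ k₂ : ℝ) (g : Polynomial ℝ) (v : Fin 2 → ℝ) :
    eval v (pderiv 0 (phi b k₁ k₂ g)) = k₁ * g.derivative.eval (v 0) := by
  have e : pderiv 0 (phi b k₁ k₂ g) = C k₁ * uv 0 g.derivative := by
    unfold phi
    simp only [map_add, pderiv_C, zero_add, pderiv_C_mul, uv_pderiv_same,
      uv_pderiv_ne (show (1 : Fin 2) ≠ 0 by decide), smul_zero, add_zero, smul_eq_C_mul, mul_zero]
  rw [e, map_mul, eval_C, uv_eval]

theorem phi_p1 (b k₁ k₂ : ℝ) (g : Polynomial ℝ) (v : Fin 2 → ℝ) :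
    eval v (pderiv 1 (phi b k₁ k₂ g)) = k₂ * g.derivative.eval (v 1) := by
  have e : pderiv 1 (phi b k₁ k₂ g) = C k₂ * uv 1 g.derivative := by
    unfold phi
    simp only [map_add, pderiv_C, zero_add, pderiv_C_mul, uv_pderiv_same,
      uv_pderiv_ne (show (0 : Fin 2) ≠ 1 by decide), smul_zero, add_zero, smul_eq_C_mul, mul_zero]
  rw [e, map_mul, eval_C, uv_eval]

theorem phi_jac (b k₁ k₂ : ℝ) (g : Polynomial ℝ) (v : Fin 2 → ℝ) :
    eval v (jac k₁ k₂ (phi b k₁ k₂ g)) =
      k₁ * k₂ * (g.derivative.eval (v 1) - g.derivative.eval (v 0)) := by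
  rw [jac_eval, phi_p0, phi_p1]
  ring

/-! ### The moving slope -/

/-- `s (c (x - s) - c (x))`. -/
noncomputable def msl (c : Polynomial ℝ) (x : ℝ) : Polynomial ℝ :=
  Polynomial.X * (c.comp (Polynomial.C x - Polynomial.X) - Polynomial.C (c.eval x))

theorem msl_eval (c : Polynomial ℝ) (x s : ℝ) :
    (msl c x).eval s = s * (c.eval (x - s) - c.eval x) := by
  unfold msl
  simp only [Polynomial.eval_mul, Polynomial.eval_X, Polynomial.eval_sub, Polynomial.eval_comp,
    Polynomial.eval_C]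

theorem msl_deg {c : Polynomial ℝ} {d : ℕ} (h : c.natDegree ≤ d) (x : ℝ) :
    (msl c x).natDegree ≤ d + 1 := by
  unfold msl
  refine Polynomial.natDegree_mul_le.trans ?_
  rw [Polynomial.natDegree_X, add_comm]
  refine Nat.add_le_add_right ?_ 1
  refine (Polynomial.natDegree_sub_le _ _).trans (max_le ?_ ?_)
  · refine Polynomial.natDegree_comp_le.trans ?_
    have h1 : (Polynomial.C x - Polynomial.X : Polynomial ℝ).natDegree ≤ 1 := by
      refine (Polynomial.natDegree_sub_le _ _).trans (max_le ?_ ?_)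
      · rw [Polynomial.natDegree_C]
        exact Nat.zero_le _
      · exact Polynomial.natDegree_X_le
    calc c.natDegree * (Polynomial.C x - Polynomial.X : Polynomial ℝ).natDegree ≤ d * 1 :=
        Nat.mul_le_mul h h1
      _ = d := mul_one d
  · rw [Polynomial.natDegree_C]
    exact Nat.zero_le _

theorem msl_der (c : Polynomial ℝ) (x s : ℝ) :
    (msl c x).derivative.eval s = (c.eval (x - s) - c.eval x) - s * c.derivative.eval (x - s) := by
  unfold msl
  rw [Polynomial.derivative_mul, Polynomial.derivative_X, Polynomial.derivative_sub,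
    Polynomial.derivative_C, Polynomial.derivative_comp, Polynomial.derivative_sub,
    Polynomial.derivative_C, Polynomial.derivative_X]
  simp only [Polynomial.eval_add, Polynomial.eval_mul, Polynomial.eval_X, Polynomial.eval_sub,
    Polynomial.eval_comp, Polynomial.eval_C, Polynomial.eval_one, Polynomial.eval_zero,
    Polynomial.eval_neg]
  ring

/-- The mean value. -/
theorem msl_mvt (c : Polynomial ℝ) (x s : ℝ) (hs : |s| ≤ 2) : ∃ ξ : ℝ, |ξ| ≤ 2 ∧
    |c.eval (x - s) - c.eval x| ≤ |(msl c x).derivative.eval ξ| := by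
  by_cases hs0 : s = 0
  · refine ⟨0, by norm_num, ?_⟩
    rw [hs0, sub_zero, sub_self, abs_zero]
    exact abs_nonneg _
  · -- the polynomial on `[0, 1]`
    obtain ⟨θ, ⟨h0, h1⟩, h2⟩ := exists_hasDerivAt_eq_slope
      (fun r => (msl c x).eval (r * s)) (fun r => (msl c x).derivative.eval (r * s) * s)
      zero_lt_one (by fun_prop) (fun r _ => by
        have h3 := ((msl c x).hasDerivAt (r * s)).comp r (hasDerivAt_mul_const s)
        exact h3)
    refine ⟨θ * s, ?_, ?_⟩
    · rw [abs_mul, abs_of_pos h0]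
      nlinarith [abs_nonneg s]
    · rw [sub_zero, div_one, zero_mul, one_mul, msl_eval, msl_eval, zero_mul, sub_zero] at h2
      have h3 : (msl c x).derivative.eval (θ * s) = c.eval (x - s) - c.eval x := by
        have h4 : ((msl c x).derivative.eval (θ * s)) * s = (c.eval (x - s) - c.eval x) * s := by
          rw [h2]
          ring
        exact mul_right_cancel₀ hs0 h4
      rw [h3]

/-- From `[-1, 1]` to `[-3, 3]`. -/
theorem poly_ext (d : ℕ) : ∃ A : ℝ, 1 ≤ A ∧ ∀ (c : Polynomial ℝ) (S : ℝ), c.natDegree ≤ d →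
    (∀ x : ℝ, |x| ≤ 1 → |c.eval x| ≤ S) → ∀ x : ℝ, |x| ≤ 3 →
    |c.eval x| ≤ A * S ∧ |c.derivative.eval x| ≤ A * S := by
  obtain ⟨C, hC, hmk⟩ := Pool.Agent.H40.BFL.mko_thm d
  obtain ⟨A, hA⟩ : ∃ A : ℝ, A = ((d : ℝ) + 1) * (4 / (1 / ((d : ℝ) + 1))) ^ d := ⟨_, rfl⟩
  have hd : (0 : ℝ) ≤ d := Nat.cast_nonneg d
  have hA1 : 1 ≤ A := by
    rw [hA]
    have h1 : (1 : ℝ) ≤ 4 / (1 / ((d : ℝ) + 1)) := by
      rw [div_div_eq_mul_div, div_one]
      linarith
    have h2 : (1 : ℝ) ≤ (4 / (1 / ((d : ℝ) + 1))) ^ d := one_le_pow₀ h1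
    nlinarith
  have hAC : A ≤ C * A := by nlinarith
  refine ⟨C * A, by nlinarith, ?_⟩
  intro c S hc hS x hx
  have hS0 : 0 ≤ S := (abs_nonneg _).trans (hS 0 (by norm_num))
  have hdp : (0 : ℝ) < (d : ℝ) + 1 := by linarith
  have key : ∀ y ∈ Set.Icc (-3 : ℝ) (-3 + 6), |c.eval y| ≤ A * S := by
    intro y hy
    rw [hA]
    refine Pool.KAL.RMG.lagrange_bound d c (fun i => (i : ℝ) / ((d : ℝ) + 1)) y 4
      (1 / ((d : ℝ) + 1)) S hc (by positivity) ?_ ?_ ?_
    · intro i j hij
      rw [← sub_div, abs_div, abs_of_pos hdp]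
      refine div_le_div_of_nonneg_right ?_ hdp.le
      have h1 : (i : ℤ) - j ≠ 0 := by
        intro h
        refine hij (Fin.ext ?_)
        omega
      have h2 := Int.one_le_abs h1
      have h3 : ((1 : ℤ) : ℝ) ≤ ((|(i : ℤ) - j| : ℤ) : ℝ) := by exact_mod_cast h2
      push_cast at h3
      exact h3
    · intro i
      have h1 : (0 : ℝ) ≤ (i : ℝ) / ((d : ℝ) + 1) := by positivity
      have h2 : (i : ℝ) / ((d : ℝ) + 1) ≤ 1 := by
        rw [div_le_one hdp]
        have : (i : ℕ) ≤ d + 1 := i.2.le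
        exact_mod_cast this
      rw [abs_le]
      constructor <;> linarith [hy.1, hy.2]
    · intro i
      refine hS _ ?_
      have h1 : (0 : ℝ) ≤ (i : ℝ) / ((d : ℝ) + 1) := by positivity
      have h2 : (i : ℝ) / ((d : ℝ) + 1) ≤ 1 := by
        rw [div_le_one hdp]
        have : (i : ℕ) ≤ d + 1 := i.2.le
        exact_mod_cast this
      rw [abs_le]
      constructor <;> linarith
  have hx' := abs_le.mp hx
  have hxI : x ∈ Set.Icc (-3 : ℝ) (-3 + 6) := ⟨hx'.1, by linarith [hx'.2]⟩
  have hAS : 0 ≤ A * S := by positivity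
  constructor
  · refine (key x hxI).trans ?_
    exact mul_le_mul_of_nonneg_right hAC hS0
  · have h1 := hmk c (-3) 6 (A * S) hc (by norm_num) key x hxI
    refine h1.trans ?_
    have h2 : C * (A * S) / 6 ≤ C * (A * S) / 1 := by
      refine div_le_div_of_nonneg_left (by positivity) (by norm_num) (by norm_num)
    rw [div_one] at h2
    linarith

end Pool.PRQ76
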